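import Pool.Agent.N30.AP.Win
import Pool.Agent.W188.QS.Asm2

set_option autoImplicit false

open Complex MeasureTheory Set Filter Topology
open Pool.Agent.W188.QS (XX cp fp GG gg Zk PC)

namespace Pool.Agent.N30.AP

lemma mu_zero (k : ℕ) : mu k (Iic 0) = 0 := by
  unfold mu
  apply withDensity_absolutelyContinuous
  rw [Measure.restrict_apply measurableSet_Iic]
  have : (Iic (0 : ℝ)) ∩ Ioi 0 = ∅ := by
    ext x
    simp only [mem_inter_iff, mem_Iic, mem_Ioi, mem_empty_iff_false, iff_false, not_and, not_lt]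
    exact fun h => h
  rw [this]
  exact measure_empty

lemma nu_zero (k : ℕ) (δ τ : ℝ) : nu k δ τ (Iic 0) = 0 := by
  unfold nu
  rw [Measure.restrict_apply measurableSet_Iic]
  have : (Iic (0 : ℝ)) ∩ Ioi 0 = ∅ := by
    ext x
    simp only [mem_inter_iff, mem_Iic, mem_Ioi, mem_empty_iff_false, iff_false, not_and, not_lt]
    exact fun h => h
  rw [this]
  exact measure_empty

lemma ev_log_ge (c : ℝ) : ∀ᶠ T : ℝ in atTop, c ≤ Real.log T :=
  Real.tendsto_log_atTop.eventually (eventually_ge_atTop c)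

/-- comparison of the two measures at all scales between `T^κ` and `2T` -/
theorem cmp_all (hW : S_WIN) (hMB : S_MEB) (hMC : S_MEC) (hMA : S_MEA) (hB : S_BLOCK) {k : ℕ} (hk : 1 ≤ k) {A : ℝ}
    (hA : 0 < A) (hkA : (k : ℝ) - 1 < A) :
    ∃ κ θ T₀ : ℝ, 0 < κ ∧ κ < 1 ∧ 0 < θ ∧ θ < 1 ∧ (∀ T : ℝ, T₀ ≤ T → ∀ δ τ : ℝ, 0 < δ →
      δ * (A * Real.log T) ≤ 2 * Real.pi → (∀ x : ℝ, T ^ κ ≤ x → x ≤ 2 * T → Cmp θ (mu k) (nu k δ τ) x) ∧
      (mu k).real (Ioc 0 (2 * T ^ κ)) ≤ T ^ (1 / 2 : ℝ) ∧ (nu k δ τ).real (Ioc 0 (2 * T ^ κ)) ≤ T ^ (1 / 2 : ℝ)) := by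
  have hk1 : (1 : ℝ) ≤ k := by exact_mod_cast hk
  set γ : ℝ := (A - ((k : ℝ) - 1)) / 2 with hγ
  have hγ0 : 0 < γ := by rw [hγ]; linarith
  set A2 : ℝ := (A + ((k : ℝ) - 1)) / 2 with hA2
  have hA2g : A2 = (k : ℝ) - 1 + γ := by rw [hA2, hγ]; ring
  have hA2A : A2 < A := by rw [hA2]; linarith
  have hA20 : 0 < A2 := by rw [hA2g]; linarith
  obtain ⟨B, C, T₁, hB1, hC, hT1, hwin⟩ := hW k k hk hk A2 (γ / 8) hA20 (by rw [hA2g]; linarith)
    (by rw [hA2g]; linarith) (by positivity)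
  obtain ⟨B2, T₂, hB2, hT2, hmeb⟩ := hMB k hk 1
  obtain ⟨⟨κ, hκ0, hκ1, T₃, hmec⟩, C3, hC3, hgrow⟩ := hMC k hk
  set θ₀ : ℝ := min (1 / 2) (3 * γ / 16) with hθ₀
  have hθ₀0 : 0 < θ₀ := lt_min (by norm_num) (by positivity)
  have hθ₀1 : θ₀ ≤ 1 / 2 := min_le_left _ _
  have hθ₀γ : θ₀ ≤ 3 * γ / 16 := min_le_right _ _
  obtain ⟨θ, T₄, hθ0, hθ1, hblock⟩ := hB C3 (C3 + C + 2) κ θ₀ hC3 (by positivity) hκ0 hκ1 hθ₀0 (by linarith)
  -- large T
  have ev1 : ∀ᶠ T : ℝ in atTop, max (max T₁ T₂) (Real.exp ((B + B2 + 1) ^ 2)) * 2 ≤ T ^ κ :=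
    (tendsto_rpow_atTop hκ0).eventually (eventually_ge_atTop _)
  have ev2 : ∀ᶠ T : ℝ in atTop, A2 * Real.log 8 / (A - A2) ≤ Real.log T := ev_log_ge _
  have ev3 : ∀ᶠ T : ℝ in atTop, 1 / A ≤ Real.log T := ev_log_ge _
  obtain ⟨T₅, h5⟩ := eventually_atTop.1 (ev1.and (ev2.and ev3))
  refine ⟨κ, θ, max (max T₃ T₄) (max T₅ 1), hκ0, hκ1, hθ0, hθ1, ?_⟩
  intro T hT δ τ hδ hδA
  have hT3 : T₃ ≤ T := ((le_max_left _ _).trans (le_max_left _ _)).trans hT
  have hT4 : T₄ ≤ T := ((le_max_right _ _).trans (le_max_left _ _)).trans hT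
  have hT5 : T₅ ≤ T := ((le_max_left _ _).trans (le_max_right _ _)).trans hT
  have hT1' : 1 ≤ T := ((le_max_right _ _).trans (le_max_right _ _)).trans hT
  obtain ⟨e1, e2, e3⟩ := h5 T hT5
  have hTpos : 0 < T := by linarith
  have hlogpos : 0 < Real.log T := lt_of_lt_of_le (by positivity) e3
  have hδ10 : δ ≤ 10 := by
    have h1 : 1 ≤ A * Real.log T := by
      rw [div_le_iff₀ hA] at e3
      linarith
    have h2 : δ * 1 ≤ δ * (A * Real.log T) := mul_le_mul_of_nonneg_left h1 hδ.le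
    have := Real.pi_lt_d2
    linarith
  refine ⟨fun x hx1 hx2 => ?_, (hmec T hT3).1, (hmec T hT3).2 δ τ hδ hδ10⟩
  have hmax1 : max (max T₁ T₂) (Real.exp ((B + B2 + 1) ^ 2)) * 2 ≤ x := e1.trans hx1
  have hexp1 : 1 ≤ Real.exp ((B + B2 + 1) ^ 2) := Real.one_le_exp (by positivity)
  have hx1' : 1 ≤ x := by
    have := le_max_right (max T₁ T₂) (Real.exp ((B + B2 + 1) ^ 2))
    linarith
  have hMA' := hMA k hk
  refine hblock (mu k) (nu k δ τ) T x hT4 hx1 hx2 hMA'.1 (fun y => hMA'.2.1 δ τ y hδ) (mu_zero k) (nu_zero k δ τ)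
    ?_ ?_ ?_
  · refine ((hgrow (4 * x) (by linarith)).1).trans ?_
    apply mul_le_mul_of_nonneg_right _ (by positivity)
    linarith
  · refine ((hgrow (4 * x) (by linarith)).2 δ τ hδ hδ10).trans ?_
    apply mul_le_mul_of_nonneg_right _ (by positivity)
    linarith
  · intro y hy1 hy2 Δ hΔ1 hΔ2
    have hyM : max (max T₁ T₂) (Real.exp ((B + B2 + 1) ^ 2)) ≤ y := by linarith
    have hyT1 : T₁ ≤ y := ((le_max_left _ _).trans (le_max_left _ _)).trans hyM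
    have hyT2 : T₂ ≤ y := ((le_max_right _ _).trans (le_max_left _ _)).trans hyM
    have hyE : Real.exp ((B + B2 + 1) ^ 2) ≤ y := (le_max_right _ _).trans hyM
    have hypos : 0 < y := lt_of_lt_of_le (Real.exp_pos _) hyE
    have hy1' : 1 ≤ y := hexp1.trans hyE
    have hlogy : (B + B2 + 1) ^ 2 ≤ Real.log y := by
      rw [Real.le_log_iff_exp_le hypos]
      exact hyE
    have hBB : 0 ≤ B + B2 + 1 := by linarith
    have hsq : B + B2 + 1 ≤ √(Real.log y) := Real.le_sqrt_of_sq_le hlogy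
    have hlog0 : 0 ≤ Real.log y := (sq_nonneg _).trans hlogy
    have hsqr : √(Real.log y) * √(Real.log y) = Real.log y := Real.mul_self_sqrt hlog0
    have hΔ1' : 1 ≤ Δ := by
      refine le_trans ?_ hΔ1
      exact Real.one_le_rpow hy1' (by linarith)
    have hsq0 : 0 ≤ √(Real.log y) := Real.sqrt_nonneg _
    have hb : ∀ D : ℝ, D ≤ B + B2 + 1 → D * Δ * √(Real.log y) ≤ y := by
      intro D hD
      have h1 : D * (Δ * √(Real.log y)) ≤ √(Real.log y) * (Δ * √(Real.log y)) :=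
        mul_le_mul_of_nonneg_right (hD.trans hsq) (by positivity)
      have h2 : √(Real.log y) * (Δ * √(Real.log y)) = Δ * Real.log y := by
        calc √(Real.log y) * (Δ * √(Real.log y)) = Δ * (√(Real.log y) * √(Real.log y)) := by ring
          _ = Δ * Real.log y := by rw [hsqr]
      linarith
    have hylog : δ * (A2 * Real.log y) ≤ 2 * Real.pi := by
      have h1 : Real.log y ≤ Real.log 8 + Real.log T := by
        rw [← Real.log_mul (by norm_num) hTpos.ne']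
        exact Real.log_le_log hypos (by linarith)
      have h2 : A2 * Real.log 8 ≤ (A - A2) * Real.log T := by
        rw [div_le_iff₀ (by linarith)] at e2
        linarith
      have h3 : A2 * Real.log y ≤ A * Real.log T := by
        have := mul_le_mul_of_nonneg_left h1 hA20.le
        linarith
      exact (mul_le_mul_of_nonneg_left h3 hδ.le).trans hδA
    have w := (hwin y Δ δ τ hyT1 hΔ1' (hb B (by linarith)) hδ hylog).2
    have m := hmeb y Δ hyT2 hΔ1' (hb B2 (by linarith))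
    have m1 := m.1
    have m2 := m.2 δ τ hδ hδ10
    have w2 : |((δ : ℂ) * (∑' n : ℤ, zg k k y Δ (n * δ + τ))).re - (∫ t : ℝ, zg k k y Δ t).re| ≤
        C * y ^ (1 / 2 + (max (k : ℝ) k - A2) / 2 + γ / 8) := by
      rw [← Complex.sub_re]
      exact (Complex.abs_re_le_norm _).trans w
    have hexpo : 1 / 2 + (max (k : ℝ) k - A2) / 2 + γ / 8 = 1 - 3 * γ / 8 := by
      rw [max_self, hA2g]
      ring
    rw [hexpo] at w2
    have hΔy : y ^ (1 - 2 * θ₀) ≤ Δ * y ^ (-θ₀) := by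
      have : y ^ (1 - 2 * θ₀) = y ^ (1 - θ₀) * y ^ (-θ₀) := by
        rw [← Real.rpow_add hypos]
        congr 1
        ring
      rw [this]
      exact mul_le_mul_of_nonneg_right hΔ1 (by positivity)
    have hp1 : y ^ (1 - 3 * γ / 8) ≤ y ^ (1 - 2 * θ₀) :=
      Real.rpow_le_rpow_of_exponent_le hy1' (by linarith)
    have hp2 : y ^ (-(1 : ℝ)) ≤ y ^ (1 - 2 * θ₀) :=
      Real.rpow_le_rpow_of_exponent_le hy1' (by linarith)
    have hp0 : 0 ≤ y ^ (1 - 2 * θ₀) := by positivity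
    have t1 : |(∫ t in Ioo (y / 2) (3 * y / 2), gg y Δ t ∂(mu k)) - ∫ t in Ioo (y / 2) (3 * y / 2), gg y Δ t ∂(nu k δ τ)| ≤
        2 * y ^ (-(1 : ℝ)) + C * y ^ (1 - 3 * γ / 8) := by
      rw [abs_le] at m1 m2 w2 ⊢
      constructor <;> linarith [m1.1, m1.2, m2.1, m2.2, w2.1, w2.2]
    refine t1.trans ?_
    have t2 : 2 * y ^ (-(1 : ℝ)) + C * y ^ (1 - 3 * γ / 8) ≤ (C + 2) * y ^ (1 - 2 * θ₀) := by
      have := mul_le_mul_of_nonneg_left hp1 hC
      nlinarith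
    refine t2.trans ?_
    have t3 : (C + 2) * y ^ (1 - 2 * θ₀) ≤ (C3 + C + 2) * (Δ * y ^ (-θ₀)) := by
      apply mul_le_mul (by linarith) hΔy hp0 (by positivity)
    linarith [t3, mul_assoc (C3 + C + 2) Δ (y ^ (-θ₀))]

/-- equivalence of the asymptotic formulas -/
theorem equiv_all (hW : S_WIN) (hMB : S_MEB) (hMC : S_MEC) (hMA : S_MEA) (hB : S_BLOCK) (hF : S_FAM) {k : ℕ}
    (hk : 1 ≤ k) {A : ℝ} (hA : 0 < A) (hkA : (k : ℝ) - 1 < A) (δ τ : ℝ → ℝ)
    (hδ : ∀ᶠ T : ℝ in atTop, 0 < δ T ∧ δ T * (A * Real.log T) ≤ 2 * Real.pi) (c m : ℝ) (hm : 0 ≤ m) :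
    Tendsto (fun T => (∫ t in (0 : ℝ)..T, Zk k t) / (T * Real.log T ^ m)) atTop (𝓝 c) ↔
    Tendsto (fun T => Sa k (δ T) (τ T) T / (T * Real.log T ^ m)) atTop (𝓝 c) := by
  obtain ⟨κ, θ, T₀, hκ0, hκ1, hθ0, hθ1, h⟩ := cmp_all hW hMB hMC hMA hB hk hA hkA
  set δ' : ℝ → ℝ := fun T => if 0 < δ T then δ T else 1 with hδ'
  have hδ'0 : ∀ T, 0 < δ' T := by
    intro T
    simp only [hδ']
    split_ifs with h1
    · exact h1
    · exact one_pos
  have hM := hMA k hk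
  have key := hF κ θ (mu k) (fun T => nu k (δ' T) (τ T)) hκ0 hκ1 hθ0 hθ1 hM.1 (fun T y => hM.2.1 _ _ _ (hδ'0 T))
    (by
      filter_upwards [hδ, eventually_ge_atTop T₀] with T h1 h2 x hx1 hx2
      have e : δ' T = δ T := by simp only [hδ', if_pos h1.1]
      rw [e]
      exact (h T h2 (δ T) (τ T) h1.1 h1.2).1 x hx1 hx2)
    (by
      filter_upwards [hδ, eventually_ge_atTop T₀] with T h1 h2
      have e : δ' T = δ T := by simp only [hδ', if_pos h1.1]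
      rw [e]
      exact (h T h2 (δ T) (τ T) h1.1 h1.2).2) c m hm
  have e1 : (fun T => (mu k).real (Ioc 0 T) / (T * Real.log T ^ m)) =ᶠ[atTop]
      fun T => (∫ t in (0 : ℝ)..T, Zk k t) / (T * Real.log T ^ m) := by
    filter_upwards [eventually_ge_atTop 0] with T hT
    rw [hM.2.2.1 T hT]
  have e2 : (fun T => (nu k (δ' T) (τ T)).real (Ioc 0 T) / (T * Real.log T ^ m)) =ᶠ[atTop]
      fun T => Sa k (δ T) (τ T) T / (T * Real.log T ^ m) := by
    filter_upwards [hδ] with T h1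
    have e : δ' T = δ T := by simp only [hδ', if_pos h1.1]
    rw [hM.2.2.2 (δ' T) (τ T) T (hδ'0 T), e]
  rw [tendsto_congr' e1, tendsto_congr' e2] at key
  exact key

/-- comparison on intervals -/
theorem inter_all (hW : S_WIN) (hMB : S_MEB) (hMC : S_MEC) (hMA : S_MEA) (hB : S_BLOCK) {k : ℕ}
    (hk : 1 ≤ k) {A : ℝ} (hA : 0 < A) (hkA : (k : ℝ) - 1 < A) :
    ∃ θ T₀ : ℝ, 0 < θ ∧ θ < 1 ∧ ∀ T δ τ u v : ℝ, T₀ ≤ T → 0 < δ → δ * (A * Real.log T) ≤ 2 * Real.pi →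
      T ≤ u → u ≤ v → v ≤ 2 * T →
      (∫ t in u..v, Zk k t) ≤ Sa k δ τ (v + T ^ (1 - θ)) - Sa k δ τ (u - T ^ (1 - θ)) + T ^ (1 - θ) ∧
      Sa k δ τ v - Sa k δ τ u ≤ (∫ t in (u - T ^ (1 - θ))..(v + T ^ (1 - θ)), Zk k t) + T ^ (1 - θ) := by
  obtain ⟨κ, θ, T₀, hκ0, hκ1, hθ0, hθ1, h⟩ := cmp_all hW hMB hMC hMA hB hk hA hkA
  refine ⟨θ, max T₀ 1, hθ0, hθ1, ?_⟩
  intro T δ τ u v hT hδ hδA hu huv hv
  have hT0 : T₀ ≤ T := (le_max_left _ _).trans hT
  have hT1 : 1 ≤ T := (le_max_right _ _).trans hT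
  have hTpos : 0 < T := by linarith
  have hpow : T ^ (1 - θ) ≤ T := by
    have := Real.rpow_le_rpow_of_exponent_le hT1 (show 1 - θ ≤ 1 by linarith)
    rwa [Real.rpow_one] at this
  have hpow0 : 0 ≤ T ^ (1 - θ) := by positivity
  have hκT : T ^ κ ≤ T := by
    have := Real.rpow_le_rpow_of_exponent_le hT1 hκ1.le
    rwa [Real.rpow_one] at this
  have hM := hMA k hk
  obtain ⟨h1, h2⟩ := (h T hT0 δ τ hδ hδA).1 T hκT (by linarith) u v hu huv hv
  have fmu : ∀ p q : ℝ, 0 ≤ p → p ≤ q → (mu k).real (Ioc p q) = ∫ t in p..q, Zk k t := by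
    intro p q hp hpq
    have e : (mu k).real (Ioc 0 q) = (mu k).real (Ioc 0 p) + (mu k).real (Ioc p q) := by
      rw [← Ioc_union_Ioc_eq_Ioc hp hpq, measureReal_union (Ioc_disjoint_Ioc_of_le le_rfl) measurableSet_Ioc
        ((measure_mono Ioc_subset_Iic_self).trans_lt (hM.1 p)).ne ((measure_mono Ioc_subset_Iic_self).trans_lt (hM.1 q)).ne]
    rw [hM.2.2.1 q (hp.trans hpq), hM.2.2.1 p hp] at e
    have hc : Continuous (Zk k) := Pool.Agent.W188.QS.Zk_cont k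
    have e2 := intervalIntegral.integral_add_adjacent_intervals (hc.intervalIntegrable (μ := volume) 0 p)
      (hc.intervalIntegrable (μ := volume) p q)
    linarith
  have fnu : ∀ p q : ℝ, 0 ≤ p → p ≤ q → (nu k δ τ).real (Ioc p q) = Sa k δ τ q - Sa k δ τ p := by
    intro p q hp hpq
    have e : (nu k δ τ).real (Ioc 0 q) = (nu k δ τ).real (Ioc 0 p) + (nu k δ τ).real (Ioc p q) := by
      rw [← Ioc_union_Ioc_eq_Ioc hp hpq, measureReal_union (Ioc_disjoint_Ioc_of_le le_rfl) measurableSet_Ioc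
        ((measure_mono Ioc_subset_Iic_self).trans_lt (hM.2.1 δ τ p hδ)).ne
        ((measure_mono Ioc_subset_Iic_self).trans_lt (hM.2.1 δ τ q hδ)).ne]
    rw [hM.2.2.2 δ τ q hδ, hM.2.2.2 δ τ p hδ] at e
    linarith
  rw [fmu u v (by linarith) huv, fnu _ _ (by linarith) (by linarith)] at h1
  rw [fnu u v (by linarith) huv, fmu _ _ (by linarith) (by linarith)] at h2
  exact ⟨h1, h2⟩

end Pool.Agent.N30.AP
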