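import Pool.Agent.N30.AP.Stm
import Pool.Agent.W369.QS.Sand
import Pool.Agent.W864.QS.PCm
import Pool.Agent.W928.QS.Fub

set_option autoImplicit false

/-!
# Project AP, part BLOCK: from Gaussian windows to intervals (helper196)
-/

open MeasureTheory Set Filter Topology

namespace Pool.Agent.N30.AP

open Pool.Agent.W188.QS (gg StSand)

namespace Block

theorem real_mono {μ : Measure ℝ} (hμ : ∀ y : ℝ, μ (Iic y) < ⊤) {s t : Set ℝ} {y : ℝ}
    (hst : s ⊆ t) (ht : t ⊆ Iic y) : μ.real s ≤ μ.real t :=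
  measureReal_mono hst (measure_lt_top_mono ht (hμ y)).ne
  where measure_lt_top_mono {s t : Set ℝ} (h : s ⊆ t) (h' : μ t < ⊤) : μ s < ⊤ :=
    (measure_mono h).trans_lt h'

theorem one_side (hS : StSand) {A C' θ x : ℝ} (hC' : 0 ≤ C') (hθ : 0 < θ) (hθ8 : 8 * θ < 1)
    (a1 : 1 ≤ x) (a2 : 5 ≤ x ^ (2 * θ)) (a3 : 8 * Real.log (4 * x) ≤ x ^ (4 * θ))
    (a4 : 2 < x ^ θ)
    (a5 : 2 * (Real.exp (-(x ^ (4 * θ) / 16)) * (C' * (4 * x) ^ A)) + 4 * C' * x ^ (1 - 8 * θ) ≤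
      x ^ (1 - θ))
    (μ ν : Measure ℝ) (hμ : ∀ y : ℝ, μ (Iic y) < ⊤) (hν : ∀ y : ℝ, ν (Iic y) < ⊤)
    (m1 : μ.real (Ioc 0 (4 * x)) ≤ C' * (4 * x) ^ A)
    (m2 : ν.real (Ioc 0 (4 * x)) ≤ C' * (4 * x) ^ A)
    (H : ∀ y : ℝ, x / 2 ≤ y → y ≤ 4 * x → ∀ Δ : ℝ, y ^ (1 - 8 * θ) ≤ Δ → Δ * Real.log y ≤ y →
      |(∫ t in Ioo (y / 2) (3 * y / 2), gg y Δ t ∂μ) - ∫ t in Ioo (y / 2) (3 * y / 2), gg y Δ t ∂ν| ≤
        C' * Δ * y ^ (-(8 * θ)))
    {u v : ℝ} (hu : x ≤ u) (huv : u ≤ v) (hv : v ≤ 2 * x) :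
    ν.real (Ioc u v) ≤ μ.real (Ioc (u - x ^ (1 - θ)) (v + x ^ (1 - θ))) + x ^ (1 - θ) := by
  have hx0 : 0 < x := by linarith
  set r : ℝ := x ^ (1 - 2 * θ) with hr
  set D : ℝ := 4 * x ^ (1 - 4 * θ) with hD
  have hr0 : 0 < r := Real.rpow_pos_of_pos hx0 _
  have hD0 : 0 < D := by positivity
  have e1 : r * x ^ (2 * θ) = x := by
    rw [hr, ← Real.rpow_add hx0]
    ring_nf
    exact Real.rpow_one x
  have e2 : r * x ^ θ = x ^ (1 - θ) := by
    rw [hr, ← Real.rpow_add hx0]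
    ring_nf
  have e3 : x ^ (1 - 4 * θ) * x ^ (2 * θ) = r := by
    rw [hr, ← Real.rpow_add hx0]
    ring_nf
  have e4 : x ^ (1 - 4 * θ) * x ^ (4 * θ) = x := by
    rw [← Real.rpow_add hx0]
    ring_nf
    exact Real.rpow_one x
  have b1 : 5 * r ≤ x := by
    calc 5 * r = r * 5 := mul_comm _ _
      _ ≤ r * x ^ (2 * θ) := mul_le_mul_of_nonneg_left a2 hr0.le
      _ = x := e1
  have b2 : 2 * r < x ^ (1 - θ) := by
    calc 2 * r = r * 2 := mul_comm _ _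
      _ < r * x ^ θ := mul_lt_mul_of_pos_left a4 hr0
      _ = _ := e2
  have b3 : ∀ y : ℝ, x / 2 ≤ y → y ≤ 4 * x → y ^ (1 - 8 * θ) ≤ D := by
    intro y hy1 hy2
    calc y ^ (1 - 8 * θ) ≤ (4 * x) ^ (1 - 8 * θ) :=
          Real.rpow_le_rpow (by linarith) hy2 (by linarith)
      _ = 4 ^ (1 - 8 * θ) * x ^ (1 - 8 * θ) := Real.mul_rpow (by norm_num) hx0.le
      _ ≤ 4 * x ^ (1 - 4 * θ) := by
          refine mul_le_mul ?_ (Real.rpow_le_rpow_of_exponent_le a1 (by linarith)) (by positivity)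
            (by norm_num)
          calc (4 : ℝ) ^ (1 - 8 * θ) ≤ 4 ^ (1 : ℝ) :=
                Real.rpow_le_rpow_of_exponent_le (by norm_num) (by linarith)
            _ = 4 := Real.rpow_one 4
  have b4 : ∀ y : ℝ, x / 2 ≤ y → y ≤ 4 * x → D * Real.log y ≤ y := by
    intro y hy1 hy2
    have hlog : Real.log y ≤ Real.log (4 * x) := Real.log_le_log (by linarith) hy2
    have hX : 0 < x ^ (1 - 4 * θ) := Real.rpow_pos_of_pos hx0 _
    calc D * Real.log y ≤ D * Real.log (4 * x) := mul_le_mul_of_nonneg_left hlog hD0.le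
      _ = x ^ (1 - 4 * θ) * (8 * Real.log (4 * x)) / 2 := by rw [hD]; ring
      _ ≤ x ^ (1 - 4 * θ) * x ^ (4 * θ) / 2 := by
          have := mul_le_mul_of_nonneg_left a3 hX.le
          linarith
      _ = x / 2 := by rw [e4]
      _ ≤ y := hy1
  set E : ℝ := C' * D * (x / 2) ^ (-(8 * θ)) with hE
  have key := hS μ ν hμ hν (u - r) (v + r) D r E (by linarith) (by linarith) (by linarith) hD0
    hr0.le (by linarith) (by
      intro τ hτ
      rw [mem_Icc] at hτ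
      have c1 : x / 2 ≤ τ := by linarith
      have c2 : τ ≤ 4 * x := by linarith
      refine (H τ c1 c2 D (b3 τ c1 c2) (b4 τ c1 c2)).trans ?_
      rw [hE]
      refine mul_le_mul_of_nonneg_left ?_ (by positivity)
      exact Real.rpow_le_rpow_of_nonpos (by linarith) c1 (by linarith))
  have f1 : u - r + r = u := by ring
  have f2 : v + r - r = v := by ring
  have f3 : (r / D) ^ 2 = x ^ (4 * θ) / 16 := by
    have g1 : r / D = x ^ (2 * θ) / 4 := by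
      rw [hD, ← e3]
      have : x ^ (1 - 4 * θ) ≠ 0 := (Real.rpow_pos_of_pos hx0 _).ne'
      field_simp
    have g2 : (x ^ (2 * θ)) ^ 2 = x ^ (4 * θ) := by
      rw [← Real.rpow_natCast, ← Real.rpow_mul hx0.le]
      congr 1
      push_cast
      ring
    rw [g1, div_pow, g2]
    norm_num
  rw [f1, f2, f3] at key
  set ee : ℝ := Real.exp (-(x ^ (4 * θ) / 16)) with hee
  have hee0 : 0 < ee := Real.exp_pos _
  -- the pieces
  have s1 : ν.real (Ioc u v) ≤ ν.real (Icc u v) :=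
    real_mono hν Ioc_subset_Icc_self Icc_subset_Iic_self
  have s2 : ν.real (Icc u v) ≤ C' * (4 * x) ^ A := by
    refine (real_mono hν (y := 4 * x) (fun t ht => ?_) Ioc_subset_Iic_self).trans m2
    rw [mem_Icc] at ht
    exact ⟨by linarith, by linarith⟩
  have s3 : μ.real (Ioo ((u - r) / 2) (3 * (v + r) / 2)) ≤ C' * (4 * x) ^ A := by
    refine (real_mono hμ (y := 4 * x) (fun t ht => ?_) Ioc_subset_Iic_self).trans m1
    rw [mem_Ioo] at ht
    exact ⟨by linarith, by linarith⟩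
  have s4 : μ.real (Icc (u - r - r) (v + r + r)) ≤
      μ.real (Ioc (u - x ^ (1 - θ)) (v + x ^ (1 - θ))) := by
    refine real_mono hμ (y := v + x ^ (1 - θ)) (fun t ht => ?_) Ioc_subset_Iic_self
    rw [mem_Icc] at ht
    exact ⟨by linarith, by linarith⟩
  have s5 : (v + r - (u - r)) * E / (√Real.pi * D) ≤ 4 * C' * x ^ (1 - 8 * θ) := by
    have hpi : 1 ≤ √Real.pi := by
      rw [Real.one_le_sqrt]
      linarith [Real.pi_gt_three]
    have g1 : (v + r - (u - r)) * E / (√Real.pi * D) =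
        (v + r - (u - r)) * (C' * (x / 2) ^ (-(8 * θ))) / √Real.pi := by
      rw [hE]
      have := hD0.ne'
      field_simp
    rw [g1]
    have g2 : (x / 2) ^ (-(8 * θ)) ≤ 2 * x ^ (-(8 * θ)) := by
      rw [Real.div_rpow hx0.le (by norm_num), div_eq_mul_inv, ← Real.rpow_neg (by norm_num), neg_neg,
        mul_comm]
      refine mul_le_mul_of_nonneg_right ?_ (by positivity)
      calc (2 : ℝ) ^ (8 * θ) ≤ 2 ^ (1 : ℝ) :=
            Real.rpow_le_rpow_of_exponent_le (by norm_num) hθ8.le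
        _ = 2 := Real.rpow_one 2
    have g3 : x * x ^ (-(8 * θ)) = x ^ (1 - 8 * θ) := by
      have : x ^ (1 - 8 * θ) = x ^ (1 + -(8 * θ)) := by ring_nf
      rw [this, Real.rpow_add hx0, Real.rpow_one]
    have g4 : 0 ≤ C' * (x / 2) ^ (-(8 * θ)) := by positivity
    calc (v + r - (u - r)) * (C' * (x / 2) ^ (-(8 * θ))) / √Real.pi
        ≤ (v + r - (u - r)) * (C' * (x / 2) ^ (-(8 * θ))) :=
          div_le_self (mul_nonneg (by linarith) g4) hpi
      _ ≤ (2 * x) * (C' * (x / 2) ^ (-(8 * θ))) :=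
          mul_le_mul_of_nonneg_right (by linarith) g4
      _ ≤ (2 * x) * (C' * (2 * x ^ (-(8 * θ)))) :=
          mul_le_mul_of_nonneg_left (mul_le_mul_of_nonneg_left g2 hC') (by linarith)
      _ = 4 * C' * (x * x ^ (-(8 * θ))) := by ring
      _ = _ := by rw [g3]
  have t1 : ee * ν.real (Icc u v) ≤ ee * (C' * (4 * x) ^ A) :=
    mul_le_mul_of_nonneg_left s2 hee0.le
  have t2 : ee * μ.real (Ioo ((u - r) / 2) (3 * (v + r) / 2)) ≤ ee * (C' * (4 * x) ^ A) :=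
    mul_le_mul_of_nonneg_left s3 hee0.le
  have t3 : ν.real (Icc u v) = (1 - ee) * ν.real (Icc u v) + ee * ν.real (Icc u v) := by ring
  linarith

theorem eventually_large {A C' θ : ℝ} (hθ : 0 < θ) (hθ8 : 8 * θ < 1) :
    ∀ᶠ x : ℝ in atTop, 1 ≤ x ∧ 5 ≤ x ^ (2 * θ) ∧ 8 * Real.log (4 * x) ≤ x ^ (4 * θ) ∧ 2 < x ^ θ ∧
      2 * (Real.exp (-(x ^ (4 * θ) / 16)) * (C' * (4 * x) ^ A)) + 4 * C' * x ^ (1 - 8 * θ) ≤
        x ^ (1 - θ) := by
  have l1 : ∀ᶠ x : ℝ in atTop, 8 * Real.log (4 * x) ≤ x ^ (4 * θ) := by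
    have h1 : Tendsto (fun x : ℝ => 4 * x) atTop atTop :=
      tendsto_id.const_mul_atTop (by norm_num)
    have h2 := (isLittleO_log_rpow_atTop (by positivity : 0 < 4 * θ)).def
      (show (0 : ℝ) < 1 / 32 by norm_num)
    filter_upwards [h1.eventually h2, eventually_ge_atTop 1] with x h3 h4
    have h5 : 0 ≤ Real.log (4 * x) := Real.log_nonneg (by linarith)
    have h6 : 0 < (4 * x) ^ (4 * θ) := Real.rpow_pos_of_pos (by linarith) _
    rw [Real.norm_of_nonneg h5, Real.norm_of_nonneg h6.le,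
      Real.mul_rpow (by norm_num) (by linarith)] at h3
    have h7 : (4 : ℝ) ^ (4 * θ) ≤ 4 := by
      calc (4 : ℝ) ^ (4 * θ) ≤ 4 ^ (1 : ℝ) :=
            Real.rpow_le_rpow_of_exponent_le (by norm_num) (by linarith)
        _ = 4 := Real.rpow_one 4
    have h8 : 0 < x ^ (4 * θ) := Real.rpow_pos_of_pos (by linarith) _
    have h9 := mul_le_mul_of_nonneg_right h7 h8.le
    linarith
  have l2 : ∀ᶠ x : ℝ in atTop, 8 * |C'| ≤ x ^ (7 * θ) :=
    (tendsto_rpow_atTop (by positivity)).eventually_ge_atTop _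
  have l3 : Tendsto (fun x : ℝ => 2 * |C'| * (4 : ℝ) ^ A *
      ((x ^ (4 * θ)) ^ (A / (4 * θ)) * Real.exp (-(1 / 16) * x ^ (4 * θ)))) atTop (𝓝 0) := by
    have h1 := (tendsto_rpow_mul_exp_neg_mul_atTop_nhds_zero (A / (4 * θ)) (1 / 16)
      (by norm_num)).comp (tendsto_rpow_atTop (by positivity : 0 < 4 * θ))
    have h2 := h1.const_mul (2 * |C'| * (4 : ℝ) ^ A)
    rw [mul_zero] at h2
    exact h2
  have l4 := l3.eventually (gt_mem_nhds (show (0 : ℝ) < 1 / 2 by norm_num))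
  filter_upwards [eventually_ge_atTop 1, l1, l2, l4,
    (tendsto_rpow_atTop (by positivity : 0 < 2 * θ)).eventually_ge_atTop 5,
    (tendsto_rpow_atTop hθ).eventually_gt_atTop 2] with x h1 h2 h3 h4 h5 h6
  have hx0 : 0 < x := by linarith
  refine ⟨h1, h5, h2, h6, ?_⟩
  have k1 : (x ^ (4 * θ)) ^ (A / (4 * θ)) = x ^ A := by
    rw [← Real.rpow_mul hx0.le]
    congr 1
    field_simp
  rw [k1] at h4
  have k2 : (4 * x) ^ A = 4 ^ A * x ^ A := Real.mul_rpow (by norm_num) hx0.le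
  have k3 : -(x ^ (4 * θ) / 16) = -(1 / 16) * x ^ (4 * θ) := by ring
  have k4 : 1 ≤ x ^ (1 - θ) := Real.one_le_rpow h1 (by linarith)
  have k5 : x ^ (1 - 8 * θ) * x ^ (7 * θ) = x ^ (1 - θ) := by
    rw [← Real.rpow_add hx0]
    ring_nf
  have k6 : 0 < x ^ (1 - 8 * θ) := Real.rpow_pos_of_pos hx0 _
  have k7 : 4 * C' * x ^ (1 - 8 * θ) ≤ x ^ (1 - θ) / 2 := by
    calc 4 * C' * x ^ (1 - 8 * θ) ≤ 4 * |C'| * x ^ (1 - 8 * θ) := by
          have := mul_le_mul_of_nonneg_right (le_abs_self C') k6.le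
          linarith
      _ = x ^ (1 - 8 * θ) * (8 * |C'|) / 2 := by ring
      _ ≤ x ^ (1 - 8 * θ) * x ^ (7 * θ) / 2 := by
          have := mul_le_mul_of_nonneg_left h3 k6.le
          linarith
      _ = _ := by rw [k5]
  have k8 : 2 * (Real.exp (-(x ^ (4 * θ) / 16)) * (C' * (4 * x) ^ A)) ≤ 1 / 2 := by
    refine le_trans ?_ h4.le
    rw [k2, k3]
    have p1 : 0 ≤ Real.exp (-(1 / 16) * x ^ (4 * θ)) * (4 ^ A * x ^ A) := by positivity
    calc 2 * (Real.exp (-(1 / 16) * x ^ (4 * θ)) * (C' * (4 ^ A * x ^ A)))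
        = C' * (2 * (Real.exp (-(1 / 16) * x ^ (4 * θ)) * (4 ^ A * x ^ A))) := by ring
      _ ≤ |C'| * (2 * (Real.exp (-(1 / 16) * x ^ (4 * θ)) * (4 ^ A * x ^ A))) :=
          mul_le_mul_of_nonneg_right (le_abs_self C') (by linarith)
      _ = _ := by ring
  linarith

end Block

theorem t_BLOCK : S_BLOCK := by
  intro A C' κ θ₀ _ hC' hκ _ hθ0 hθ1
  have hS : StSand := Pool.Agent.W369.QS.qs_sand Pool.Agent.W864.QS.qs_pc Pool.Agent.W928.QS.qs_fub
  have hθ : 0 < θ₀ / 8 := by linarith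
  have h8 : 8 * (θ₀ / 8) = θ₀ := by ring
  obtain ⟨X, hX⟩ := eventually_atTop.1 (Block.eventually_large (A := A) (C' := C') hθ
    (by rw [h8]; exact hθ1))
  obtain ⟨T₁, hT₁⟩ := eventually_atTop.1 ((tendsto_rpow_atTop hκ).eventually_ge_atTop X)
  refine ⟨θ₀ / 8, T₁, hθ, by linarith, fun μ ν T x hT hTx _ hμ hν _ _ m1 m2 H => ?_⟩
  obtain ⟨a1, a2, a3, a4, a5⟩ := hX x ((hT₁ T hT).trans hTx)
  intro u v hu huv hv
  constructor
  · refine Block.one_side hS hC' hθ (by rw [h8]; exact hθ1) a1 a2 a3 a4 a5 ν μ hν hμ m2 m1 ?_ hu huv hv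
    intro y hy1 hy2 Δ hΔ1 hΔ2
    rw [h8] at hΔ1 ⊢
    rw [abs_sub_comm]
    exact H y hy1 hy2 Δ hΔ1 hΔ2
  · refine Block.one_side hS hC' hθ (by rw [h8]; exact hθ1) a1 a2 a3 a4 a5 μ ν hμ hν m1 m2 ?_ hu huv hv
    intro y hy1 hy2 Δ hΔ1 hΔ2
    rw [h8] at hΔ1 ⊢
    exact H y hy1 hy2 Δ hΔ1 hΔ2

end Pool.Agent.N30.AP
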