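import Pool.Agent.N30.AP.Stm

set_option autoImplicit false

/-!
# Project AP: equidistribution of the moments modulo `δ`
-/

open Complex MeasureTheory Set Filter Topology
open Pool.Agent.W188.QS (XX cp fp GG gg Zk PC)

namespace Pool.Agent.N30.AP.EQD

theorem int_shift (F : ℝ → ℂ) {W : Set ℝ} (hW : MeasurableSet W) (a : ℝ) :
    ∫ x in {x : ℝ | x - a ∈ W}, F x = ∫ w in W, F (w + a) := by
  have hm : MeasurableSet {x : ℝ | x - a ∈ W} := (measurable_id.sub_const a) hW
  rw [← integral_indicator hm, ← integral_indicator hW,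
    ← integral_sub_right_eq_self (W.indicator fun w => F (w + a)) a]
  refine integral_congr_ae (Eventually.of_forall fun x => ?_)
  by_cases hx : x - a ∈ W
  · simp only [indicator, mem_ofPred_eq, hx, if_true, sub_add_cancel]
  · simp only [indicator, mem_ofPred_eq, hx, if_false]

theorem int_shift_norm (F : ℝ → ℂ) {W : Set ℝ} (hW : MeasurableSet W) (a : ℝ) :
    ∫ x in {x : ℝ | x - a ∈ W}, ‖F x‖ = ∫ w in W, ‖F (w + a)‖ := by
  have hm : MeasurableSet {x : ℝ | x - a ∈ W} := (measurable_id.sub_const a) hW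
  rw [← integral_indicator hm, ← integral_indicator hW,
    ← integral_sub_right_eq_self (W.indicator fun w => ‖F (w + a)‖) a]
  refine integral_congr_ae (Eventually.of_forall fun x => ?_)
  by_cases hx : x - a ∈ W
  · simp only [indicator, mem_ofPred_eq, hx, if_true, sub_add_cancel]
  · simp only [indicator, mem_ofPred_eq, hx, if_false]

theorem fract_union {W : Set ℝ} (hW1 : W ⊆ Ico 0 1) :
    {x : ℝ | Int.fract x ∈ W} = ⋃ n : ℤ, {x : ℝ | x - n ∈ W} := by
  ext x
  rw [mem_iUnion]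
  constructor
  · intro h
    exact ⟨⌊x⌋, h⟩
  · rintro ⟨n, h⟩
    have h' : x - n ∈ W := h
    have h1 := hW1 h'
    have h2 : ⌊x⌋ = n := by
      rw [Int.floor_eq_iff]
      constructor
      · linarith [h1.1]
      · linarith [h1.2]
    show x - ⌊x⌋ ∈ W
    rw [h2]
    exact h'

theorem fract_disj {W : Set ℝ} (hW1 : W ⊆ Ico 0 1) :
    Pairwise (Function.onFun Disjoint fun n : ℤ => {x : ℝ | x - n ∈ W}) := by
  intro n k hnk
  refine Set.disjoint_left.2 fun x hx hx' => hnk ?_
  have h1 := hW1 (show x - n ∈ W from hx)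
  have h2 := hW1 (show x - k ∈ W from hx')
  have h3 : ⌊x⌋ = n := by
    rw [Int.floor_eq_iff]
    exact ⟨by linarith [h1.1], by linarith [h1.2]⟩
  have h4 : ⌊x⌋ = k := by
    rw [Int.floor_eq_iff]
    exact ⟨by linarith [h2.1], by linarith [h2.2]⟩
  rw [← h3, ← h4]

/-- unfolding of an integral -/
theorem unfold_int {F : ℝ → ℂ} (hi : Integrable F) {W : Set ℝ}
    (hW : MeasurableSet W) (hW1 : W ⊆ Ico 0 1) :
    ∫ x in {x : ℝ | Int.fract x ∈ W}, F x = ∫ w in W, ∑' n : ℤ, F (w + n) := by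
  have hm : ∀ n : ℤ, MeasurableSet {x : ℝ | x - n ∈ W} := fun n =>
    (measurable_id.sub_const (n : ℝ)) hW
  have h1 := hasSum_integral_iUnion hm (fract_disj hW1) (f := F) (μ := volume) hi.integrableOn
  have h2 := hasSum_integral_iUnion hm (fract_disj hW1) (f := fun x => ‖F x‖) (μ := volume)
    hi.norm.integrableOn
  rw [← fract_union hW1] at h1
  simp only [int_shift F hW] at h1
  simp only [int_shift_norm F hW] at h2
  have h3 : ∀ n : ℤ, Integrable (fun w => F (w + n)) (volume.restrict W) := fun n =>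
    (hi.comp_add_right (n : ℝ)).integrableOn
  have h4 := hasSum_integral_of_summable_integral_norm h3 h2.summable
  exact h1.unique h4

theorem eqd_gen (f : ℝ → ℂ) (hc : Continuous f) (hi : Integrable f) (δ E : ℝ) (hδ : 0 < δ)
    (h : ∀ τ : ℝ, Summable (fun n : ℤ => f (n * δ + τ)) ∧
      ‖(δ : ℂ) * (∑' n : ℤ, f (n * δ + τ)) - ∫ t : ℝ, f t‖ ≤ E)
    (τ : ℝ) (W : Set ℝ) (hW : MeasurableSet W) (hW1 : W ⊆ Ico 0 1) :
    ‖(∫ t in {t : ℝ | Int.fract ((t - τ) / δ) ∈ W}, f t) -
      ((volume.real W : ℝ) : ℂ) * ∫ t : ℝ, f t‖ ≤ volume.real W * E := by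
  obtain ⟨F, hF⟩ : ∃ F : ℝ → ℂ, F = fun x => (δ : ℂ) * f (δ * x + τ) := ⟨_, rfl⟩
  have hFc : Continuous F := by
    rw [hF]
    exact continuous_const.mul (hc.comp (by fun_prop))
  have hFi : Integrable F := by
    rw [hF]
    exact ((hi.comp_add_right τ).comp_mul_left' hδ.ne').const_mul _
  have hWf : volume W < ⊤ :=
    lt_of_le_of_lt (measure_mono hW1) (by rw [Real.volume_Ico]; exact ENNReal.ofReal_lt_top)
  have hfr : Measurable fun t : ℝ => Int.fract ((t - τ) / δ) :=
    measurable_fract.comp ((measurable_id.sub_const τ).div_const δ)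
  have hmS : MeasurableSet {t : ℝ | Int.fract ((t - τ) / δ) ∈ W} := hfr hW
  have hmA : MeasurableSet {x : ℝ | Int.fract x ∈ W} := measurable_fract hW
  have hstep : ∫ t in {t : ℝ | Int.fract ((t - τ) / δ) ∈ W}, f t =
      ∫ x in {x : ℝ | Int.fract x ∈ W}, F x := by
    rw [← integral_indicator hmS, ← integral_indicator hmA,
      ← integral_add_right_eq_self _ τ]
    have h1 := Measure.integral_comp_mul_left (fun t : ℝ =>
      ({t : ℝ | Int.fract ((t - τ) / δ) ∈ W}.indicator f) (t + τ)) δ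
    have h2 : (∫ t : ℝ, ({t : ℝ | Int.fract ((t - τ) / δ) ∈ W}.indicator f) (t + τ)) =
        (δ : ℂ) * ∫ x : ℝ, ({t : ℝ | Int.fract ((t - τ) / δ) ∈ W}.indicator f) (δ * x + τ) := by
      rw [h1, abs_of_pos (inv_pos.2 hδ), Complex.real_smul, ← mul_assoc, ← Complex.ofReal_mul,
        mul_inv_cancel₀ hδ.ne', Complex.ofReal_one, one_mul]
    rw [h2, ← integral_const_mul]
    refine integral_congr_ae (Eventually.of_forall fun x => ?_)
    have h3 : (δ * x + τ - τ) / δ = x := by
      rw [add_sub_cancel_right, mul_div_cancel_left₀ _ hδ.ne']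
    by_cases hx : Int.fract x ∈ W
    · simp only [indicator, mem_ofPred_eq, h3, hx, if_true, hF]
    · simp only [indicator, mem_ofPred_eq, h3, hx, if_false, mul_zero]
  rw [hstep, unfold_int hFi hW hW1]
  -- the sums
  have hsum : ∀ w : ℝ, HasSum (fun n : ℤ => F (w + n))
      ((δ : ℂ) * ∑' n : ℤ, f (n * δ + (δ * w + τ))) := by
    intro w
    have h1 := ((h (δ * w + τ)).1.hasSum).mul_left (δ : ℂ)
    have h2 : (fun n : ℤ => F (w + n)) = fun n : ℤ => (δ : ℂ) * f (n * δ + (δ * w + τ)) := by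
      funext n
      rw [hF]
      simp only
      congr 2
      ring
    rw [h2]
    exact h1
  have hmeas : AEStronglyMeasurable (fun w => ∑' n : ℤ, F (w + n)) volume := by
    refine aestronglyMeasurable_of_tendsto_ae (u := (atTop : Filter (Finset ℤ)))
      (f := fun s w => ∑ n ∈ s, F (w + n)) (fun s => ?_) (Eventually.of_forall fun w => ?_)
    · exact Continuous.aestronglyMeasurable (continuous_finsetSum _ fun n _ =>
        hFc.comp (continuous_id.add continuous_const))
    · exact (hsum w).summable.hasSum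
  have hbd : ∀ w : ℝ, ‖(∑' n : ℤ, F (w + n)) - ∫ t : ℝ, f t‖ ≤ E := by
    intro w
    rw [(hsum w).tsum_eq]
    exact (h (δ * w + τ)).2
  have hint : Integrable (fun w => ∑' n : ℤ, F (w + n)) (volume.restrict W) := by
    refine Measure.integrableOn_of_bounded (M := E + ‖∫ t : ℝ, f t‖) hWf.ne hmeas
      (Eventually.of_forall fun w => ?_)
    have h1 := norm_sub_norm_le (∑' n : ℤ, F (w + n)) (∫ t : ℝ, f t)
    have h2 := hbd w
    linarith
  have hconst : ∫ _w in W, (∫ t : ℝ, f t) = ((volume.real W : ℝ) : ℂ) * ∫ t : ℝ, f t := by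
    rw [setIntegral_const, Complex.real_smul]
  rw [← hconst, ← integral_sub hint (integrableOn_const hWf.ne)]
  rw [mul_comm (volume.real W) E]
  exact norm_setIntegral_le_of_norm_le_const hWf (fun w _ => hbd w)

end Pool.Agent.N30.AP.EQD

namespace Pool.Agent.N30.AP

theorem t_EQD (hS : S_STRIP) : S_EQD := by
  intro a b T Δ δ E hΔ hΔT hδ h τ W hW hW1
  obtain ⟨C, -, hC⟩ := hS a b
  obtain ⟨hc, hi, -⟩ := hC T Δ hΔ hΔT
  exact EQD.eqd_gen (zg a b T Δ) hc hi δ E hδ h τ W hW hW1

end Pool.Agent.N30.AP
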