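import Pool.Agent.N30.AP.Stm

set_option autoImplicit false

/-!
# Project AP, FAM: Tauberian theorem for families of progressions (helper744)

No growth condition is needed: the intervals `(y_j - ρ, y_j + ρ]` around the points `y_j = s (2/3)^j W`, `s` in a
finite subset of `[1 - η, 1]`, are disjoint, so the sum of the overlaps is small on the average over `s`.
-/

open Complex MeasureTheory Set Filter Topology

namespace Pool.Agent.N30.AP

namespace LFAM

/-- the chain of the intervals `(2y/3, y]`, `(4y/9, 2y/3]`, … -/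
lemma inv (F G : ℝ → ℝ) {X0 X1 e : ℝ}
    (hB : ∀ x, X0 ≤ x → x ≤ X1 →
      F (3 / 2 * x) - F x ≤ G ((1 + e) * (3 / 2 * x)) - G ((1 - e) * x) + e * x)
    {y : ℝ} (hy : 0 ≤ y) (hy1 : 2 / 3 * y ≤ X1) (J : ℕ) (hJ : X0 ≤ y * (2 / 3) ^ J) :
    F y ≤ F (y * (2 / 3) ^ J) + (G ((1 + e) * y) - G ((1 + e) * (y * (2 / 3) ^ J))) +
      ∑ j ∈ Finset.range J, (G ((1 + e) * (y * (2 / 3) ^ (j + 1))) -
        G ((1 - e) * (y * (2 / 3) ^ (j + 1)))) + 2 * e * (y - y * (2 / 3) ^ J) := by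
  induction J with
  | zero => simp
  | succ n ih =>
    have h0 : (0 : ℝ) ≤ y * (2 / 3) ^ n := by positivity
    have h1 : y * (2 / 3) ^ (n + 1) = 2 / 3 * (y * (2 / 3) ^ n) := by ring
    have h2 : X0 ≤ y * (2 / 3) ^ n := by
      rw [h1] at hJ
      linarith
    have h3 := ih h2
    have h4 : y * (2 / 3) ^ n ≤ y := by
      have : ((2 : ℝ) / 3) ^ n ≤ 1 := pow_le_one₀ (by norm_num) (by norm_num)
      nlinarith
    have h5 : y * (2 / 3) ^ (n + 1) ≤ X1 := by
      rw [h1]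
      linarith
    have h6 := hB _ hJ h5
    have h7 : 3 / 2 * (y * (2 / 3) ^ (n + 1)) = y * (2 / 3) ^ n := by
      rw [h1]
      ring
    rw [h7] at h6
    rw [Finset.sum_range_succ]
    have h8 : e * (y * (2 / 3) ^ (n + 1)) =
        2 * e * (y * (2 / 3) ^ n - y * (2 / 3) ^ (n + 1)) := by
      rw [h1]
      ring
    linarith

/-- the overlaps for one scale -/
lemma over1 (G : ℝ → ℝ) (hGm : ∀ x y, 0 ≤ x → x ≤ y → G x ≤ G y) {e η : ℝ} (K : ℕ)
    (hK : 0 < K) (he : 0 ≤ e) (hη : 0 ≤ η) (hη1 : η ≤ 1 / 4) (heK : 2 * e * K ≤ η)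
    {x : ℝ} (hx : 0 ≤ x) :
    ∑ i ∈ Finset.range K, (G ((1 + e) * ((1 - η * i / K) * x)) -
      G ((1 - e) * ((1 - η * i / K) * x))) ≤
      G ((1 + e) * x) - G ((1 + e) * (2 / 3 * x)) := by
  have hKr : (0 : ℝ) < K := by exact_mod_cast hK
  have hs : ∀ i : ℕ, i ≤ K → 3 / 4 ≤ 1 - η * i / K ∧ 1 - η * i / K ≤ 1 := by
    intro i hi
    have hi' : (i : ℝ) ≤ K := by exact_mod_cast hi
    have h1 : η * i / K ≤ η := by
      rw [div_le_iff₀ hKr]
      exact mul_le_mul_of_nonneg_left hi' hη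
    have h2 : 0 ≤ η * i / K := by positivity
    constructor <;> linarith
  have hstep : ∀ i ∈ Finset.range K, G ((1 + e) * ((1 - η * i / K) * x)) -
      G ((1 - e) * ((1 - η * i / K) * x)) ≤
      G ((1 + e) * ((1 - η * i / K) * x)) -
        G ((1 + e) * ((1 - η * ((i + 1 : ℕ) : ℝ) / K) * x)) := by
    intro i hi
    have hi' := Finset.mem_range.1 hi
    obtain ⟨h1, h2⟩ := hs i hi'.le
    obtain ⟨h3, h4⟩ := hs (i + 1) hi'
    refine sub_le_sub_left (hGm _ _ (by positivity) ?_) _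
    have h5 : 1 - η * ((i + 1 : ℕ) : ℝ) / K = (1 - η * i / K) - η / K := by
      push_cast
      ring
    have h6 : 2 * e ≤ η / K := by
      rw [le_div_iff₀ hKr]
      exact heK
    have h7 : (1 + e) * (1 - η * ((i + 1 : ℕ) : ℝ) / K) ≤ (1 - e) * (1 - η * i / K) := by
      rw [h5] at h3 h4 ⊢
      nlinarith
    calc (1 + e) * ((1 - η * ((i + 1 : ℕ) : ℝ) / K) * x)
        = ((1 + e) * (1 - η * ((i + 1 : ℕ) : ℝ) / K)) * x := by ring
      _ ≤ ((1 - e) * (1 - η * i / K)) * x := mul_le_mul_of_nonneg_right h7 hx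
      _ = (1 - e) * ((1 - η * i / K) * x) := by ring
  refine (Finset.sum_le_sum hstep).trans ?_
  rw [Finset.sum_range_sub' (fun i : ℕ => G ((1 + e) * ((1 - η * (i : ℝ) / K) * x)))]
  simp only [Nat.cast_zero, mul_zero, zero_div, sub_zero, one_mul]
  refine sub_le_sub_left (hGm _ _ (by positivity) ?_) _
  have h8 : η * (K : ℝ) / K = η := by field_simp
  rw [h8]
  have h9 : 2 / 3 * x ≤ (1 - η) * x := mul_le_mul_of_nonneg_right (by linarith) hx
  exact mul_le_mul_of_nonneg_left h9 (by linarith)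

/-- the comparison -/
lemma comp (F G : ℝ → ℝ) (hFm : ∀ x y, 0 ≤ x → x ≤ y → F x ≤ F y)
    (hGm : ∀ x y, 0 ≤ x → x ≤ y → G x ≤ G y) (hG0 : ∀ x, 0 ≤ G x) {X0 X1 e η : ℝ}
    (hX0 : 0 < X0) (he : 0 ≤ e) (he1 : e ≤ 1 / 2) (hη : 0 ≤ η) (hη1 : η ≤ 1 / 4) (K : ℕ)
    (hK : 0 < K) (heK : 2 * e * K ≤ η)
    (hB : ∀ x, X0 ≤ x → x ≤ X1 →
      F (3 / 2 * x) - F x ≤ G ((1 + e) * (3 / 2 * x)) - G ((1 - e) * x) + e * x)
    {W : ℝ} (hW : 0 ≤ W) (hW1 : 2 / 3 * W ≤ X1) :
    F ((1 - η) * W) ≤ F (2 * X0) + G ((1 + e) * W) + G W / K + 2 * e * W := by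
  have hKr : (0 : ℝ) < K := by exact_mod_cast hK
  rcases lt_or_ge ((1 - η) * W) X0 with hlt | hge
  · have h1 : F ((1 - η) * W) ≤ F (2 * X0) :=
      hFm _ _ (mul_nonneg (by linarith) hW) (by linarith)
    have h2 := hG0 ((1 + e) * W)
    have h3 : 0 ≤ G W / K := div_nonneg (hG0 W) hKr.le
    have h4 : 0 ≤ 2 * e * W := by positivity
    linarith
  · -- the number of steps
    have hex : ∃ J : ℕ, (1 - η) * W * (2 / 3) ^ (J + 1) < X0 := by
      have ht : Tendsto (fun n : ℕ => (1 - η) * W * (2 / 3 : ℝ) ^ (n + 1)) atTop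
          (𝓝 ((1 - η) * W * 0)) := by
        refine Tendsto.const_mul _ ?_
        exact (tendsto_pow_atTop_nhds_zero_of_lt_one (by norm_num) (by norm_num)).comp
          (tendsto_add_atTop_nat 1)
      rw [mul_zero] at ht
      exact (ht.eventually_lt_const hX0).exists
    classical
    obtain ⟨J, hJ1, hJ2⟩ : ∃ J : ℕ, X0 ≤ (1 - η) * W * (2 / 3) ^ J ∧
        (1 - η) * W * (2 / 3) ^ (J + 1) < X0 := by
      refine ⟨Nat.find hex, ?_, Nat.find_spec hex⟩
      rcases Nat.eq_zero_or_pos (Nat.find hex) with h0 | h0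
      · rw [h0, pow_zero, mul_one]
        exact hge
      · have h1 := Nat.find_min hex (m := Nat.find hex - 1) (by omega)
        rw [not_lt, Nat.sub_add_cancel h0] at h1
        exact h1
    have hJ3 : W * (2 / 3) ^ J ≤ 2 * X0 := by
      have h1 : (0 : ℝ) ≤ W * (2 / 3) ^ J := by positivity
      rw [pow_succ] at hJ2
      nlinarith
    have hs : ∀ i : ℕ, i ∈ Finset.range K → 1 - η ≤ 1 - η * i / K ∧ 1 - η * i / K ≤ 1 := by
      intro i hi
      have hi' : (i : ℝ) ≤ K := by exact_mod_cast (Finset.mem_range.1 hi).le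
      have h1 : η * i / K ≤ η := by
        rw [div_le_iff₀ hKr]
        exact mul_le_mul_of_nonneg_left hi' hη
      have h2 : 0 ≤ η * i / K := by positivity
      constructor <;> linarith
    -- each chain
    have hch : ∀ i ∈ Finset.range K, F ((1 - η) * W) ≤ F (2 * X0) + G ((1 + e) * W) + 2 * e * W +
        ∑ j ∈ Finset.range J, (G ((1 + e) * ((1 - η * i / K) * (W * (2 / 3) ^ (j + 1)))) -
          G ((1 - e) * ((1 - η * i / K) * (W * (2 / 3) ^ (j + 1))))) := by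
      intro i hi
      obtain ⟨h1, h2⟩ := hs i hi
      set s : ℝ := 1 - η * i / K with hsdef
      have hs0 : 0 ≤ s := by linarith
      have h3 : (1 - η) * W ≤ s * W := mul_le_mul_of_nonneg_right h1 hW
      have h4 : s * W ≤ W := by nlinarith
      have h5 : F ((1 - η) * W) ≤ F (s * W) := hFm _ _ (mul_nonneg (by linarith) hW) h3
      have hp : (0 : ℝ) ≤ (2 / 3) ^ J := by positivity
      have h6 : X0 ≤ (s * W) * (2 / 3) ^ J :=
        hJ1.trans (mul_le_mul_of_nonneg_right h3 hp)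
      have h7 := inv F G hB (y := s * W) (by positivity) (by linarith) J h6
      have h8 : F (s * W * (2 / 3) ^ J) ≤ F (2 * X0) :=
        hFm _ _ (by positivity) ((mul_le_mul_of_nonneg_right h4 hp).trans hJ3)
      have h9 : G ((1 + e) * (s * W)) ≤ G ((1 + e) * W) :=
        hGm _ _ (by positivity) (mul_le_mul_of_nonneg_left h4 (by linarith))
      have h10 := hG0 ((1 + e) * (s * W * (2 / 3) ^ J))
      have h11 : 2 * e * (s * W - s * W * (2 / 3) ^ J) ≤ 2 * e * W := by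
        refine mul_le_mul_of_nonneg_left ?_ (by linarith)
        have : (0 : ℝ) ≤ s * W * (2 / 3) ^ J := by positivity
        linarith
      have h12 : ∀ j : ℕ, s * W * (2 / 3) ^ (j + 1) = s * (W * (2 / 3) ^ (j + 1)) := by
        intro j
        ring
      simp only [h12] at h7
      linarith
    have hsum := Finset.sum_le_sum hch
    rw [Finset.sum_const, Finset.card_range, nsmul_eq_mul, Finset.sum_add_distrib,
      Finset.sum_const, Finset.card_range, nsmul_eq_mul, Finset.sum_comm] at hsum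
    have hov : ∑ j ∈ Finset.range J, ∑ i ∈ Finset.range K,
        (G ((1 + e) * ((1 - η * i / K) * (W * (2 / 3) ^ (j + 1)))) -
          G ((1 - e) * ((1 - η * i / K) * (W * (2 / 3) ^ (j + 1))))) ≤ G W := by
      calc _ ≤ ∑ j ∈ Finset.range J, (G ((1 + e) * (W * (2 / 3) ^ (j + 1))) -
            G ((1 + e) * (W * (2 / 3) ^ (j + 1 + 1)))) := by
            refine Finset.sum_le_sum fun j _ => ?_
            have h1 := over1 G hGm K hK he hη hη1 heK
              (x := W * (2 / 3) ^ (j + 1)) (by positivity)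
            have h2 : 2 / 3 * (W * (2 / 3) ^ (j + 1)) = W * (2 / 3) ^ (j + 1 + 1) := by ring
            rwa [h2] at h1
        _ = G ((1 + e) * (W * (2 / 3) ^ (0 + 1))) - G ((1 + e) * (W * (2 / 3) ^ (J + 1))) :=
            Finset.sum_range_sub' (fun j : ℕ => G ((1 + e) * (W * (2 / 3) ^ (j + 1)))) J
        _ ≤ G ((1 + e) * (W * (2 / 3) ^ (0 + 1))) := by
            have := hG0 ((1 + e) * (W * (2 / 3) ^ (J + 1)))
            linarith
        _ ≤ G W := by
            refine hGm _ _ (by positivity) ?_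
            rw [zero_add, pow_one]
            nlinarith
    have hfin : (K : ℝ) * F ((1 - η) * W) ≤
        K * (F (2 * X0) + G ((1 + e) * W) + G W / K + 2 * e * W) := by
      have h1 : (K : ℝ) * (G W / K) = G W := by field_simp
      have h2 : (K : ℝ) * (F (2 * X0) + G ((1 + e) * W) + G W / K + 2 * e * W) =
          K * (F (2 * X0) + G ((1 + e) * W) + 2 * e * W) + K * (G W / K) := by ring
      rw [h2, h1]
      linarith
    exact le_of_mul_le_mul_left hfin hKr

/-- the relation between the two counting functions -/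
lemma rel {δ κ θ : ℝ} (hδ : 0 < δ) (hδ1 : δ ≤ 1) (hκ : 0 < κ) (hθ : 0 < θ) :
    ∀ᶠ T' : ℝ in atTop, ∀ T : ℝ, T ≤ T' → T' ≤ 2 * T → ∀ F G : ℝ → ℝ,
      (∀ x y, 0 ≤ x → x ≤ y → F x ≤ F y) → (∀ x y, 0 ≤ x → x ≤ y → G x ≤ G y) →
      (∀ x, 0 ≤ G x) →
      (∀ x, T' ^ κ ≤ x → x ≤ 2 * T' → 0 ≤ x - x ^ (1 - θ) → ∀ u v, x ≤ u → u ≤ v → v ≤ 2 * x →
        F v - F u ≤ G (v + x ^ (1 - θ)) - G (u - x ^ (1 - θ)) + x ^ (1 - θ)) →
      F (2 * T' ^ κ) ≤ T' ^ (1 / 2 : ℝ) → F T ≤ (1 + δ) * G ((1 + δ) * T) + δ * T := by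
  obtain ⟨K, hK⟩ := exists_nat_ge (1 / δ)
  have hKr : (0 : ℝ) < K := lt_of_lt_of_le (by positivity) hK
  have hK0 : 0 < K := by exact_mod_cast hKr
  have hK1 : (1 : ℝ) ≤ K := by exact_mod_cast hK0
  have hK2 : 1 / (K : ℝ) ≤ δ := by
    rw [div_le_iff₀ hKr]
    rw [div_le_iff₀ hδ] at hK
    linarith
  set e : ℝ := δ / (24 * K) with he
  have he0 : 0 < e := by positivity
  have heδ : e ≤ δ / 24 := by
    rw [he]
    gcongr
    linarith
  have heK : 2 * e * K ≤ δ / 4 := by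
    have : 2 * e * K = δ / 12 := by
      rw [he]
      field_simp
      norm_num
    rw [this]
    linarith
  have hκθ : 0 < κ * θ := by positivity
  filter_upwards [(tendsto_rpow_atTop hκθ).eventually_ge_atTop (1 / e),
    (tendsto_rpow_atTop (show (0 : ℝ) < 1 / 2 by norm_num)).eventually_ge_atTop (9 / (4 * δ)),
    eventually_ge_atTop (1 : ℝ)] with T' h1 h2 h3 T hT hT2 F G hFm hGm hG0 hcmp hsm
  have hT'0 : 0 < T' := by linarith
  have hT0 : 0 < T := by linarith
  have hX0 : 0 < T' ^ κ := Real.rpow_pos_of_pos hT'0 κ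
  have hρ : ∀ x, T' ^ κ ≤ x → x ^ (1 - θ) ≤ e * x := by
    intro x hx
    have hx0 : 0 < x := hX0.trans_le hx
    have h4 : 1 / e ≤ x ^ θ := by
      refine h1.trans ?_
      rw [Real.rpow_mul hT'0.le]
      exact Real.rpow_le_rpow hX0.le hx hθ.le
    rw [Real.rpow_sub hx0, Real.rpow_one, div_le_iff₀ (Real.rpow_pos_of_pos hx0 θ)]
    rw [div_le_iff₀ he0] at h4
    nlinarith
  have hB : ∀ x, T' ^ κ ≤ x → x ≤ 2 * T' →
      F (3 / 2 * x) - F x ≤ G ((1 + e) * (3 / 2 * x)) - G ((1 - e) * x) + e * x := by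
    intro x hx hx2
    have hx0 : 0 < x := hX0.trans_le hx
    have h4 := hρ x hx
    have h5 : 0 ≤ x ^ (1 - θ) := Real.rpow_nonneg hx0.le _
    have he1 : e ≤ 1 := by linarith
    have h6 : 0 ≤ x - x ^ (1 - θ) := by nlinarith
    have h7 := hcmp x hx hx2 h6 x (3 / 2 * x) le_rfl (by linarith) (by linarith)
    have h8 : G (3 / 2 * x + x ^ (1 - θ)) ≤ G ((1 + e) * (3 / 2 * x)) :=
      hGm _ _ (by positivity) (by nlinarith)
    have h9 : G ((1 - e) * x) ≤ G (x - x ^ (1 - θ)) :=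
      hGm _ _ (mul_nonneg (by linarith) hx0.le) (by nlinarith)
    linarith
  set W : ℝ := T / (1 - δ / 4) with hW
  have hden : 0 < 1 - δ / 4 := by linarith
  have hW0 : 0 ≤ W := by positivity
  have hWT : (1 - δ / 4) * W = T := by
    rw [hW, mul_comm]
    exact div_mul_cancel₀ T hden.ne'
  have hW43 : W ≤ 4 / 3 * T := by
    nlinarith
  have hWδ : (1 + e) * W ≤ (1 + δ) * T := by
    have h4 : (1 + e) ≤ (1 + δ) * (1 - δ / 4) := by nlinarith
    calc (1 + e) * W ≤ ((1 + δ) * (1 - δ / 4)) * W := mul_le_mul_of_nonneg_right h4 hW0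
      _ = (1 + δ) * ((1 - δ / 4) * W) := by ring
      _ = (1 + δ) * T := by rw [hWT]
  have hmain := comp F G hFm hGm hG0 hX0 he0.le (by linarith) (show 0 ≤ δ / 4 by positivity)
    (by linarith) K hK0 heK hB hW0 (by linarith)
  rw [hWT] at hmain
  have h4 : G ((1 + e) * W) ≤ G ((1 + δ) * T) := hGm _ _ (by positivity) hWδ
  have h5 : G W ≤ G ((1 + δ) * T) := by
    refine hGm _ _ hW0 (le_trans ?_ hWδ)
    nlinarith
  have h6 : G W / K ≤ δ * G ((1 + δ) * T) := by
    calc G W / K = 1 / K * G W := by ring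
      _ ≤ δ * G W := mul_le_mul_of_nonneg_right hK2 (hG0 _)
      _ ≤ δ * G ((1 + δ) * T) := mul_le_mul_of_nonneg_left h5 hδ.le
  have h7 : T' ^ (1 / 2 : ℝ) ≤ 8 / 9 * δ * T := by
    have h8 : T' ^ (1 / 2 : ℝ) * T' ^ (1 / 2 : ℝ) = T' := by
      rw [← Real.rpow_add hT'0]
      norm_num
    have h9 : 0 < T' ^ (1 / 2 : ℝ) := Real.rpow_pos_of_pos hT'0 _
    rw [div_le_iff₀ (by positivity)] at h2
    nlinarith
  have h8 : 2 * e * W ≤ δ * T / 9 := by
    have : e * W ≤ δ / 24 * (4 / 3 * T) := mul_le_mul heδ hW43 hW0 (by positivity)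
    linarith
  linarith

/-- `T (log T) ^ m` -/
noncomputable def hh (m T : ℝ) : ℝ := T * Real.log T ^ m

lemma hh_scale (m : ℝ) {c : ℝ} (hc : 0 < c) :
    Tendsto (fun T => hh m (c * T) / hh m T) atTop (𝓝 c) := by
  have h1 : Tendsto (fun T : ℝ => Real.log (c * T) / Real.log T) atTop (𝓝 1) := by
    have h2 : Tendsto (fun T : ℝ => Real.log c / Real.log T + 1) atTop (𝓝 (0 + 1)) :=
      (Real.tendsto_log_atTop.const_div_atTop _).add tendsto_const_nhds
    rw [zero_add] at h2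
    refine h2.congr' ?_
    filter_upwards [eventually_gt_atTop (1 : ℝ)] with T hT
    have h3 : 0 < Real.log T := Real.log_pos hT
    rw [Real.log_mul hc.ne' (by linarith)]
    field_simp
  have h4 : Tendsto (fun T : ℝ => c * (Real.log (c * T) / Real.log T) ^ m) atTop
      (𝓝 (c * 1 ^ m)) :=
    (h1.rpow_const (Or.inl one_ne_zero)).const_mul c
  rw [Real.one_rpow, mul_one] at h4
  refine h4.congr' ?_
  filter_upwards [eventually_gt_atTop (1 : ℝ), eventually_gt_atTop (1 / c)] with T hT hT2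
  have h5 : 0 < Real.log T := Real.log_pos hT
  have h6 : 1 < c * T := by
    rw [div_lt_iff₀ hc] at hT2
    linarith
  have h7 : 0 < Real.log (c * T) := Real.log_pos h6
  rw [Real.div_rpow h7.le h5.le]
  unfold hh
  have h8 : (0 : ℝ) < Real.log T ^ m := Real.rpow_pos_of_pos h5 m
  field_simp

lemma scale_lim {A : ℝ → ℝ} {a m c : ℝ} (hc : 0 < c)
    (h : Tendsto (fun T => A T / hh m T) atTop (𝓝 a)) :
    Tendsto (fun T => A (c * T) / hh m T) atTop (𝓝 (a * c)) := by
  have h1 : Tendsto (fun T : ℝ => c * T) atTop atTop := tendsto_id.const_mul_atTop hc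
  have h2 := (h.comp h1).mul (hh_scale m hc)
  refine h2.congr' ?_
  filter_upwards [eventually_gt_atTop (1 / c)] with T hT
  have h6 : 1 < c * T := by
    rw [div_lt_iff₀ hc] at hT
    linarith
  have h7 : 0 < Real.log (c * T) := Real.log_pos h6
  have h8 : hh m (c * T) ≠ 0 := by
    unfold hh
    have : (0 : ℝ) < Real.log (c * T) ^ m := Real.rpow_pos_of_pos h7 m
    positivity
  simp only [Function.comp_apply]
  field_simp

/-- the Tauberian step -/
lemma taub (F G : ℝ → ℝ) {a m : ℝ} (hm : 0 ≤ m)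
    (h1 : ∀ δ : ℝ, 0 < δ → δ ≤ 1 → ∀ᶠ T : ℝ in atTop, F T ≤ (1 + δ) * G ((1 + δ) * T) + δ * T)
    (h2 : ∀ δ : ℝ, 0 < δ → δ ≤ 1 → ∀ᶠ T : ℝ in atTop, G T ≤ (1 + δ) * F ((1 + δ) * T) + δ * T)
    (h : Tendsto (fun T => G T / hh m T) atTop (𝓝 a)) :
    Tendsto (fun T => F T / hh m T) atTop (𝓝 a) := by
  have hpos : ∀ᶠ T : ℝ in atTop, 0 < hh m T ∧ T ≤ hh m T := by
    filter_upwards [eventually_ge_atTop (Real.exp 1)] with T hT
    have h3 : 1 ≤ Real.log T := by
      rw [Real.le_log_iff_exp_le (lt_of_lt_of_le (Real.exp_pos 1) hT)]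
      exact hT
    have hT0 : 0 < T := lt_of_lt_of_le (Real.exp_pos 1) hT
    have h4 : 1 ≤ Real.log T ^ m := Real.one_le_rpow h3 hm
    unfold hh
    constructor
    · positivity
    · nlinarith
  rw [tendsto_order]
  constructor
  · intro a' ha'
    have hc : Tendsto (fun δ : ℝ => (a * (1 / (1 + δ)) - δ) / (1 + δ)) (𝓝 0) (𝓝 a) := by
      have : ContinuousAt (fun δ : ℝ => (a * (1 / (1 + δ)) - δ) / (1 + δ)) 0 := by
        refine ContinuousAt.div ?_ (by fun_prop) (by norm_num)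
        refine ContinuousAt.sub ?_ (by fun_prop)
        refine ContinuousAt.mul (by fun_prop) ?_
        exact ContinuousAt.div (by fun_prop) (by fun_prop) (by norm_num)
      have h3 := this.tendsto
      norm_num at h3
      simpa using h3
    obtain ⟨δ, hδ1, hδ2⟩ := (((hc.eventually_const_lt ha').filter_mono
      (nhdsWithin_le_nhds (s := Ioi 0))).and (Ioo_mem_nhdsGT (show (0 : ℝ) < 1 by norm_num))).exists
    have hδ0 : 0 < δ := hδ2.1
    have h3 := scale_lim (c := 1 / (1 + δ)) (by positivity) h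
    have h4 : Tendsto (fun T => (G (1 / (1 + δ) * T) / hh m T - δ) / (1 + δ)) atTop
        (𝓝 ((a * (1 / (1 + δ)) - δ) / (1 + δ))) := (h3.sub_const δ).div_const _
    have h5 : Tendsto (fun T : ℝ => 1 / (1 + δ) * T) atTop atTop :=
      tendsto_id.const_mul_atTop (by positivity)
    filter_upwards [h4.eventually_const_lt hδ1, hpos, h5.eventually (h2 δ hδ0 hδ2.2.le),
      eventually_gt_atTop (0 : ℝ)] with T h6 h7 h8 h9
    refine h6.trans_le ?_
    have h10 : (1 + δ) * (1 / (1 + δ) * T) = T := by field_simp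
    rw [h10] at h8
    rw [div_le_iff₀ (by positivity), sub_le_iff_le_add, div_le_iff₀ h7.1]
    have h11 : F T / hh m T * hh m T = F T := div_mul_cancel₀ _ h7.1.ne'
    have h12 : 1 / (1 + δ) * T ≤ T := by
      have : 1 / (1 + δ) ≤ 1 := by
        rw [div_le_one (by positivity)]
        linarith
      nlinarith
    have h13 : δ * (1 / (1 + δ) * T) ≤ δ * hh m T :=
      mul_le_mul_of_nonneg_left (h12.trans h7.2) hδ0.le
    calc G (1 / (1 + δ) * T) ≤ (1 + δ) * F T + δ * (1 / (1 + δ) * T) := h8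
      _ ≤ (1 + δ) * F T + δ * hh m T := by linarith
      _ = (1 + δ) * (F T / hh m T * hh m T) + δ * hh m T := by rw [h11]
      _ = (F T / hh m T * (1 + δ) + δ) * hh m T := by ring
  · intro a' ha'
    have hc : Tendsto (fun δ : ℝ => (1 + δ) * (a * (1 + δ)) + δ) (𝓝 0) (𝓝 a) := by
      have : ContinuousAt (fun δ : ℝ => (1 + δ) * (a * (1 + δ)) + δ) 0 := by fun_prop
      have h3 := this.tendsto
      simpa using h3
    obtain ⟨δ, hδ1, hδ2⟩ := (((hc.eventually_lt_const ha').filter_mono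
      (nhdsWithin_le_nhds (s := Ioi 0))).and (Ioo_mem_nhdsGT (show (0 : ℝ) < 1 by norm_num))).exists
    have hδ0 : 0 < δ := hδ2.1
    have h3 := scale_lim (c := 1 + δ) (by positivity) h
    have h4 : Tendsto (fun T => (1 + δ) * (G ((1 + δ) * T) / hh m T) + δ) atTop
        (𝓝 ((1 + δ) * (a * (1 + δ)) + δ)) := (h3.const_mul _).add_const _
    filter_upwards [h4.eventually_lt_const hδ1, hpos, h1 δ hδ0 hδ2.2.le] with T h6 h7 h8
    refine lt_of_le_of_lt ?_ h6
    rw [div_le_iff₀ h7.1]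
    have h11 : G ((1 + δ) * T) / hh m T * hh m T = G ((1 + δ) * T) :=
      div_mul_cancel₀ _ h7.1.ne'
    calc F T ≤ (1 + δ) * G ((1 + δ) * T) + δ * T := h8
      _ ≤ (1 + δ) * G ((1 + δ) * T) + δ * hh m T := by
        have := mul_le_mul_of_nonneg_left h7.2 hδ0.le
        linarith
      _ = (1 + δ) * (G ((1 + δ) * T) / hh m T * hh m T) + δ * hh m T := by rw [h11]
      _ = ((1 + δ) * (G ((1 + δ) * T) / hh m T) + δ) * hh m T := by ring

lemma fin_Ioc {μ : Measure ℝ} (hμ : ∀ y : ℝ, μ (Iic y) < ⊤) (u v : ℝ) : μ (Ioc u v) ≠ ⊤ :=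
  (lt_of_le_of_lt (measure_mono Ioc_subset_Iic_self) (hμ v)).ne

lemma real_diff {μ : Measure ℝ} (hμ : ∀ y : ℝ, μ (Iic y) < ⊤) {u v : ℝ} (hu : 0 ≤ u)
    (huv : u ≤ v) : μ.real (Ioc u v) = μ.real (Ioc 0 v) - μ.real (Ioc 0 u) := by
  have h1 : Ioc 0 v = Ioc 0 u ∪ Ioc u v := (Ioc_union_Ioc_eq_Ioc hu huv).symm
  have h2 : Disjoint (Ioc 0 u) (Ioc u v) := by
    rw [Set.disjoint_left]
    intro x hx hx'
    exact absurd hx.2 (not_le.2 hx'.1)
  rw [h1, measureReal_union h2 measurableSet_Ioc (fin_Ioc hμ _ _) (fin_Ioc hμ _ _)]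
  ring

lemma real_mono {μ : Measure ℝ} (hμ : ∀ y : ℝ, μ (Iic y) < ⊤) (x y : ℝ) (_ : 0 ≤ x)
    (h : x ≤ y) : μ.real (Ioc 0 x) ≤ μ.real (Ioc 0 y) :=
  measureReal_mono (Ioc_subset_Ioc_right h) (fin_Ioc hμ _ _)

end LFAM

open LFAM in
theorem t_FAM : S_FAM := by
  intro κ θ μ ν hκ hκ1 hθ hθ1 hμ hν hcmp hsm a m hm
  set M : ℝ → ℝ := fun x => μ.real (Ioc 0 x) with hM
  set N : ℝ → ℝ := fun T => (ν T).real (Ioc 0 T) with hN
  -- sampled moments are bounded by the moments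
  have hNM : ∀ δ : ℝ, 0 < δ → δ ≤ 1 → ∀ᶠ T : ℝ in atTop,
      N T ≤ (1 + δ) * M ((1 + δ) * T) + δ * T := by
    intro δ hδ hδ1
    filter_upwards [rel hδ hδ1 hκ hθ, hcmp, hsm, eventually_ge_atTop (1 : ℝ)] with T h1 h2 h3 h4
    refine h1 T le_rfl (by linarith) (fun x => (ν T).real (Ioc 0 x)) M (real_mono (hν T))
      (real_mono hμ) (fun _ => measureReal_nonneg) ?_ h3.2
    intro x hx hx2 hx3 u v hu huv hv
    have h5 := (h2 x hx hx2 u v hu huv hv).2
    have hx0 : 0 < x := lt_of_lt_of_le (Real.rpow_pos_of_pos (by linarith) κ) hx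
    have h6 : 0 ≤ x ^ (1 - θ) := Real.rpow_nonneg hx0.le _
    rw [real_diff (hν T) (by linarith) huv, real_diff hμ (by linarith) (by linarith)] at h5
    exact h5
  have hMN : ∀ δ : ℝ, 0 < δ → δ ≤ 1 → ∀ᶠ T : ℝ in atTop,
      M T ≤ (1 + δ) * N ((1 + δ) * T) + δ * T := by
    intro δ hδ hδ1
    have h0 : Tendsto (fun T : ℝ => (1 + δ) * T) atTop atTop :=
      tendsto_id.const_mul_atTop (by positivity)
    filter_upwards [h0.eventually (rel hδ hδ1 hκ hθ), h0.eventually hcmp, h0.eventually hsm,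
      eventually_ge_atTop (1 : ℝ)] with T h1 h2 h3 h4
    have h7 : T ≤ (1 + δ) * T := by nlinarith
    refine h1 T h7 (by nlinarith) M (fun x => (ν ((1 + δ) * T)).real (Ioc 0 x)) (real_mono hμ)
      (real_mono (hν _)) (fun _ => measureReal_nonneg) ?_ h3.1
    intro x hx hx2 hx3 u v hu huv hv
    have h5 := (h2 x hx hx2 u v hu huv hv).1
    have hx0 : 0 < x := lt_of_lt_of_le (Real.rpow_pos_of_pos (by linarith) κ) hx
    have h6 : 0 ≤ x ^ (1 - θ) := Real.rpow_nonneg hx0.le _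
    rw [real_diff hμ (by linarith) huv, real_diff (hν _) (by linarith) (by linarith)] at h5
    exact h5
  exact ⟨fun h => taub N M hm hNM hMN h, fun h => taub M N hm hMN hNM h⟩

end Pool.Agent.N30.AP
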