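import Pool.Agent.N30.AP.Stm
import Pool.Agent.W22.QS.Dyad
import Pool.Agent.TH806.N4.Abs

set_option autoImplicit false

/-!
# Project AP, part ING: Ingham's asymptotic formula for the fourth moment (helper433)
-/

open MeasureTheory Set Filter Topology

namespace Pool.Agent.N30.AP

namespace ING

/-- `log (T/2) / log T → 1` -/
theorem log_half : Tendsto (fun T : ℝ => Real.log (T / 2) / Real.log T) atTop (𝓝 1) := by
  have h2 : Tendsto (fun T : ℝ => 1 - Real.log 2 / Real.log T) atTop (𝓝 (1 - 0)) :=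
    tendsto_const_nhds.sub (Real.tendsto_log_atTop.const_div_atTop _)
  rw [sub_zero] at h2
  refine h2.congr' ?_
  filter_upwards [eventually_gt_atTop (2 : ℝ)] with T hT
  have h3 : 0 < Real.log T := Real.log_pos (by linarith)
  rw [Real.log_div (by linarith) (by norm_num)]
  field_simp

/-- from the dyadic bounds to the asymptotic formula -/
theorem core (c : ℝ) (z : ℝ → ℝ) (hz : Continuous z) (hz0 : ∀ t, 0 ≤ z t)
    (h : ∀ ε : ℝ, 0 < ε → ∀ᶠ T : ℝ in atTop,
      ∫ t in T..(T + T), z t ≤ (c + ε) * (T * Real.log T ^ (4 : ℝ)) ∧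
      (c - ε) * (T * Real.log T ^ (4 : ℝ)) ≤ ∫ t in T..(T + T), z t) :
    Tendsto (fun T => (∫ t in (0 : ℝ)..T, z t) / (T * Real.log T ^ (4 : ℝ))) atTop (𝓝 c) := by
  have hint : ∀ a b : ℝ, IntervalIntegrable z volume a b := fun a b => hz.intervalIntegrable a b
  -- the dyadic blocks
  have hF : Tendsto (fun T => (∫ t in T..(T + T), z t) / (T * Real.log T ^ (4 : ℝ))) atTop (𝓝 c) := by
    rw [tendsto_order]
    constructor
    · intro a ha
      filter_upwards [h ((c - a) / 2) (by linarith), eventually_gt_atTop (1 : ℝ)] with T hT hT1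
      have hp : 0 < T * Real.log T ^ (4 : ℝ) := mul_pos (by linarith) (Real.rpow_pos_of_pos (Real.log_pos hT1) _)
      rw [lt_div_iff₀ hp]
      refine lt_of_lt_of_le ?_ hT.2
      exact mul_lt_mul_of_pos_right (by linarith) hp
    · intro a ha
      filter_upwards [h ((a - c) / 2) (by linarith), eventually_gt_atTop (1 : ℝ)] with T hT hT1
      have hp : 0 < T * Real.log T ^ (4 : ℝ) := mul_pos (by linarith) (Real.rpow_pos_of_pos (Real.log_pos hT1) _)
      rw [div_lt_iff₀ hp]
      refine lt_of_le_of_lt hT.1 ?_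
      exact mul_lt_mul_of_pos_right (by linarith) hp
  set V : ℝ → ℝ := fun T => ∫ t in (0 : ℝ)..(max T 0), z t with hV
  have hVmono : Monotone V := by
    intro x y hxy
    have h1 : V y - V x = ∫ t in (max x 0)..(max y 0), z t :=
      intervalIntegral.integral_interval_sub_left (hint _ _) (hint _ _)
    have h2 : 0 ≤ ∫ t in (max x 0)..(max y 0), z t :=
      intervalIntegral.integral_nonneg (max_le_max_right 0 hxy) fun t _ => hz0 t
    linarith
  have hV0 : ∀ x, 0 ≤ V x := fun x =>
    intervalIntegral.integral_nonneg (le_max_right _ _) fun t _ => hz0 t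
  have hhalf : Tendsto (fun T : ℝ => T / 2) atTop atTop := tendsto_id.atTop_div_const (by norm_num)
  have hlim : Tendsto (fun T => (V T - V (T / 2)) / (T * Real.log T ^ (4 : ℝ))) atTop (𝓝 (c / 2)) := by
    have h1 := hF.comp hhalf
    have h2 : Tendsto (fun T : ℝ => 1 / 2 * (Real.log (T / 2) / Real.log T) ^ (4 : ℝ)) atTop (𝓝 (1 / 2 * 1)) := by
      have h3 := (Real.continuousAt_rpow_const 1 (4 : ℝ) (Or.inl one_ne_zero)).tendsto.comp log_half
      rw [Real.one_rpow] at h3
      exact h3.const_mul _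
    have h4 := h1.mul h2
    rw [show c * (1 / 2 * 1) = c / 2 by ring] at h4
    refine h4.congr' ?_
    filter_upwards [eventually_gt_atTop (4 : ℝ)] with T hT
    have hl1 : 0 < Real.log (T / 2) := Real.log_pos (by linarith)
    have hl2 : 0 < Real.log T := Real.log_pos (by linarith)
    have hp1 : 0 < Real.log (T / 2) ^ (4 : ℝ) := Real.rpow_pos_of_pos hl1 _
    have hp2 : 0 < Real.log T ^ (4 : ℝ) := Real.rpow_pos_of_pos hl2 _
    have hVV : V T - V (T / 2) = ∫ t in (T / 2)..(T / 2 + T / 2), z t := by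
      simp only [hV]
      rw [max_eq_left (by linarith : (0 : ℝ) ≤ T), max_eq_left (by linarith : (0 : ℝ) ≤ T / 2), add_halves]
      exact intervalIntegral.integral_interval_sub_left (hint _ _) (hint _ _)
    simp only [Function.comp]
    rw [hVV, Real.div_rpow hl1.le hl2.le]
    have hT0 : T ≠ 0 := by linarith
    field_simp
  have hfin := Pool.Agent.W22.QS.qs_dyad c 4 (by norm_num) V hVmono hV0 hlim
  refine hfin.congr' ?_
  filter_upwards [eventually_ge_atTop (0 : ℝ)] with T hT
  simp only [hV]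
  rw [max_eq_left hT]

theorem Zk_eq (t : ℝ) : Pool.Agent.TH806.Xz t ^ (4 : ℝ) = Pool.Agent.W188.QS.Zk 2 t := by
  unfold Pool.Agent.TH806.Xz Pool.Agent.W188.QS.Zk
  rw [show (4 : ℝ) = ((4 : ℕ) : ℝ) by norm_num, Real.rpow_natCast]
  rfl

theorem Zk_cont : Continuous fun t => Pool.Agent.W188.QS.Zk 2 t := by
  have h : (fun t => Pool.Agent.W188.QS.Zk 2 t) = fun t => Pool.Agent.TH806.Xz t ^ (4 : ℝ) := by
    funext t
    rw [Zk_eq]
  rw [h]
  exact Pool.Agent.TH806.Xz_pow_cont (by norm_num)

end ING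

/-- Ingham's asymptotic formula for the fourth moment -/
theorem t_ING : S_ING := by
  refine ING.core (1 / (2 * Real.pi ^ 2)) (fun t => Pool.Agent.W188.QS.Zk 2 t) ING.Zk_cont ?_ ?_
  · intro t
    exact pow_nonneg (norm_nonneg _) _
  · intro ε hε
    obtain ⟨δ, hδ, h⟩ := Pool.Agent.TH806.N4.a_SHT.1 ε hε
    filter_upwards [h 0 le_rfl (by norm_num)] with T hT
    have h1 := hT T (by rw [Real.rpow_zero, div_one]) le_rfl
    have h2 := h1.1 4 (by linarith) le_rfl
    have h3 := h1.2 4 le_rfl (by linarith)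
    have e4 : (4 : ℝ) ^ 2 / 4 = 4 := by norm_num
    rw [e4] at h2 h3
    simp only [ING.Zk_eq] at h2 h3
    exact ⟨h2, h3⟩

end Pool.Agent.N30.AP
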