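import Pool.Agent.N30.AP.Stm
import Pool.Agent.W571.QS.Meas

set_option autoImplicit false

/-! # Project AP (helper30), part MEA: elementary facts on the two measures, by helper602 -/

open Complex MeasureTheory Set Filter Topology
open Pool.Agent.W188.QS (XX cp fp GG gg Zk PC)
open Pool.Agent.W571.QS (Zk_nonneg Zk_cont)

namespace Pool.Agent.N30.AP

theorem mea_fin (δ τ x : ℝ) (hδ : 0 < δ) : {n : ℤ | 0 < (n : ℝ) * δ + τ ∧ (n : ℝ) * δ + τ ≤ x}.Finite := by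
  refine (Set.finite_Icc ⌊-τ / δ⌋ ⌈(x - τ) / δ⌉).subset ?_
  rintro n ⟨h1, h2⟩
  constructor
  · have h3 : -τ / δ < n := by
      rw [div_lt_iff₀ hδ]
      linarith
    have h4 : (⌊-τ / δ⌋ : ℝ) < n := (Int.floor_le _).trans_lt h3
    exact_mod_cast h4.le
  · have h3 : (n : ℝ) ≤ (x - τ) / δ := by
      rw [le_div_iff₀ hδ]
      linarith
    have h4 : (n : ℝ) ≤ (⌈(x - τ) / δ⌉ : ℝ) := h3.trans (Int.le_ceil _)
    exact_mod_cast h4

theorem mea_Sa (k : ℕ) (δ τ x : ℝ) (hδ : 0 < δ) :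
    Sa k δ τ x = ∑ n ∈ (mea_fin δ τ x hδ).toFinset, δ * Zk k (n * δ + τ) := by
  unfold Sa
  rw [finsum_mem_eq_finite_toFinset_sum _ (mea_fin δ τ x hδ), Finset.mul_sum]

theorem mea_nu (k : ℕ) (δ τ x : ℝ) (hδ : 0 < δ) {S : Set ℝ} (hS : MeasurableSet S) (h : S ∩ Ioi 0 = Ioc 0 x) :
    nu k δ τ S = ENNReal.ofReal (Sa k δ τ x) := by
  classical
  unfold nu
  rw [Measure.restrict_apply hS, h, Measure.sum_apply _ measurableSet_Ioc]
  have h1 : ∀ n : ℤ, (ENNReal.ofReal (δ * Zk k (n * δ + τ)) • Measure.dirac ((n : ℝ) * δ + τ)) (Ioc 0 x) =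
      if n ∈ (mea_fin δ τ x hδ).toFinset then ENNReal.ofReal (δ * Zk k (n * δ + τ)) else 0 := by
    intro n
    rw [Measure.smul_apply, Measure.dirac_apply' _ measurableSet_Ioc, smul_eq_mul]
    by_cases hn : n ∈ (mea_fin δ τ x hδ).toFinset
    · have hn' : (n : ℝ) * δ + τ ∈ Ioc 0 x := (mea_fin δ τ x hδ).mem_toFinset.1 hn
      rw [if_pos hn, Set.indicator_of_mem hn', Pi.one_apply, mul_one]
    · have hn' : (n : ℝ) * δ + τ ∉ Ioc 0 x := fun hc => hn ((mea_fin δ τ x hδ).mem_toFinset.2 hc)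
      rw [if_neg hn, Set.indicator_of_notMem hn', mul_zero]
  rw [tsum_congr h1, tsum_eq_sum (s := (mea_fin δ τ x hδ).toFinset)
    (fun n hn => if_neg hn), Finset.sum_congr rfl (fun n hn => if_pos hn), mea_Sa k δ τ x hδ,
    ENNReal.ofReal_sum_of_nonneg]
  intro n _
  exact mul_nonneg hδ.le (Zk_nonneg k _)

theorem mea_Sa_nonneg (k : ℕ) (δ τ x : ℝ) (hδ : 0 < δ) : 0 ≤ Sa k δ τ x := by
  rw [mea_Sa k δ τ x hδ]
  exact Finset.sum_nonneg fun n _ => mul_nonneg hδ.le (Zk_nonneg k _)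

theorem mea_mu_Iic (k : ℕ) (x : ℝ) : mu k (Iic x) < ⊤ := by
  unfold mu
  rw [withDensity_apply _ measurableSet_Iic, Measure.restrict_restrict measurableSet_Iic]
  have h1 : Iic x ∩ Ioi (0 : ℝ) = Ioc 0 x := by
    ext t
    simp only [Set.mem_inter_iff, Set.mem_Iic, Set.mem_Ioi, Set.mem_Ioc]
    exact and_comm
  rw [h1]
  have h2 : IntegrableOn (Zk k) (Ioc 0 x) volume := (Zk_cont k).integrableOn_Ioc
  exact Integrable.lintegral_lt_top h2

theorem mea_mu_real (k : ℕ) {S : Set ℝ} (hS : MeasurableSet S) (h : S ⊆ Ioi 0) :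
    (mu k).real S = ∫ t in S, Zk k t := by
  unfold mu
  rw [measureReal_def, withDensity_apply _ hS, Measure.restrict_restrict hS, Set.inter_eq_left.2 h,
    integral_eq_lintegral_of_nonneg_ae (Filter.Eventually.of_forall (fun t => Zk_nonneg k t))
      (Zk_cont k).aestronglyMeasurable]

theorem t_MEA : S_MEA := by
  intro k _
  refine ⟨mea_mu_Iic k, ?_, ?_, ?_⟩
  · intro δ τ x hδ
    have h1 : Iic x ∩ Ioi (0 : ℝ) = Ioc 0 x := by
      ext t
      simp only [Set.mem_inter_iff, Set.mem_Iic, Set.mem_Ioi, Set.mem_Ioc]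
      exact and_comm
    rw [mea_nu k δ τ x hδ measurableSet_Iic h1]
    exact ENNReal.ofReal_lt_top
  · intro x hx
    rw [mea_mu_real k measurableSet_Ioc (fun t ht => ht.1), intervalIntegral.integral_of_le hx]
  · intro δ τ x hδ
    have h1 : Ioc 0 x ∩ Ioi (0 : ℝ) = Ioc 0 x := Set.inter_eq_left.2 (fun t ht => ht.1)
    rw [measureReal_def, mea_nu k δ τ x hδ measurableSet_Ioc h1, ENNReal.toReal_ofReal (mea_Sa_nonneg k δ τ x hδ)]

end Pool.Agent.N30.AP
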