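import Pool.Agent.N30.AP.Stm
import Pool.Agent.W184.ZetaB

set_option autoImplicit false

/-!
# Project AP (helper30), part MEB: the Gaussian averages of the two measures (helper250)
-/

open Complex MeasureTheory Set Filter Topology
open Pool.Agent.W188.QS (XX cp fp GG gg Zk PC)

namespace Pool.Agent.N30.AP.MEB

lemma Zk_nonneg (k : ℕ) (t : ℝ) : 0 ≤ Zk k t := by
  unfold Pool.Agent.W188.QS.Zk; positivity

lemma Zk_cont (k : ℕ) : Continuous (Zk k) := by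
  unfold Pool.Agent.W188.QS.Zk
  apply Continuous.pow
  apply Continuous.norm
  rw [continuous_iff_continuousAt]
  intro t
  have h : cp t ≠ 1 := by
    intro h
    have := congrArg Complex.re h
    simp [cp] at this
  have h1 : ContinuousAt riemannZeta (cp t) := (differentiableAt_riemannZeta h).continuousAt
  have h2 : ContinuousAt cp t := by unfold Pool.Agent.W188.QS.cp; fun_prop
  exact ContinuousAt.comp (f := cp) (g := riemannZeta) h1 h2

lemma Zk_le (k : ℕ) (t : ℝ) : Zk k t ≤ 12 ^ (2 * k) * (1 + |t|) ^ (2 * k) := by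
  have h := Pool.Agent.W184.zeta58 (σ := 1 / 2) (t := t) (by norm_num) (by norm_num)
  have h0 : 1 ≤ 1 + |t| := by linarith [abs_nonneg t]
  have h1 : ‖riemannZeta (cp t)‖ ≤ 12 * (1 + |t|) := by
    have e : cp t = ((1 / 2 : ℝ) : ℂ) + t * I := by
      unfold Pool.Agent.W188.QS.cp; push_cast; ring
    rw [e]
    refine h.trans ?_
    have h2 : (1 + |t|) ^ ((5 : ℝ) / 8) ≤ (1 + |t|) ^ (1 : ℝ) :=
      Real.rpow_le_rpow_of_exponent_le h0 (by norm_num)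
    rw [Real.rpow_one] at h2
    linarith
  unfold Pool.Agent.W188.QS.Zk
  rw [← mul_pow]
  exact pow_le_pow_left₀ (norm_nonneg _) h1 _

lemma zg_eq (k : ℕ) (T Δ t : ℝ) : zg k k T Δ t = ((Zk k t * gg T Δ t : ℝ) : ℂ) := by
  unfold zg zab Pool.Agent.W188.QS.Zk
  rw [← mul_pow, Complex.mul_conj, Complex.normSq_eq_norm_sq]
  push_cast
  rw [← pow_mul]

lemma gg_nonneg (T Δ t : ℝ) : 0 ≤ gg T Δ t := by
  unfold Pool.Agent.W188.QS.gg; positivity

lemma gg_cont (T Δ : ℝ) : Continuous (gg T Δ) := by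
  unfold Pool.Agent.W188.QS.gg; fun_prop

lemma poly_exp (j : ℕ) (v : ℝ) (hv : 0 ≤ v) :
    (1 + v) ^ j * Real.exp (-(v ^ 2 / 2)) ≤ (j.factorial : ℝ) * Real.exp (3 / 2) := by
  have h1 := Real.pow_div_factorial_le_exp (1 + v) (by linarith) j
  have hf : (0 : ℝ) < j.factorial := by exact_mod_cast j.factorial_pos
  rw [div_le_iff₀ hf] at h1
  calc (1 + v) ^ j * Real.exp (-(v ^ 2 / 2))
      ≤ (Real.exp (1 + v) * j.factorial) * Real.exp (-(v ^ 2 / 2)) :=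
        mul_le_mul_of_nonneg_right h1 (Real.exp_nonneg _)
    _ = (j.factorial : ℝ) * Real.exp (1 + v - v ^ 2 / 2) := by
        rw [sub_eq_add_neg, Real.exp_add (1 + v)]; ring
    _ ≤ (j.factorial : ℝ) * Real.exp (3 / 2) := by
        refine mul_le_mul_of_nonneg_left (Real.exp_le_exp.2 ?_) hf.le
        nlinarith [sq_nonneg (v - 1)]

/-- the constant -/
noncomputable def Kc (m : ℕ) : ℝ := ((m + 2).factorial : ℝ) * Real.exp (3 / 2)

lemma bound0 (m : ℕ) (T Δ t : ℝ) (hT : 1 ≤ T) (hΔ : 0 < Δ) (hΔT : Δ ≤ T) :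
    (1 + |t|) ^ m * Real.exp (-(((t - T) / Δ) ^ 2 / 2)) ≤
      Kc m * ((2 * T) ^ m * T ^ 2) * (1 + (t - T) ^ 2)⁻¹ := by
  have hT0 : 0 < T := by linarith
  obtain ⟨v, hv⟩ : ∃ v, v = |t - T| / T := ⟨_, rfl⟩
  have hv0 : 0 ≤ v := by rw [hv]; positivity
  have hvT : |t - T| = T * v := by rw [hv]; field_simp
  have h1 : Real.exp (-(((t - T) / Δ) ^ 2 / 2)) ≤ Real.exp (-(v ^ 2 / 2)) := by
    apply Real.exp_le_exp.2
    have h2 : v ^ 2 ≤ ((t - T) / Δ) ^ 2 := by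
      rw [hv, div_pow, div_pow, sq_abs]
      exact div_le_div_of_nonneg_left (sq_nonneg _) (by positivity)
        (pow_le_pow_left₀ hΔ.le hΔT 2)
    linarith
  have h2 : 1 + |t| ≤ 2 * T * (1 + v) := by
    have h3 : |t| ≤ |t - T| + T := by
      have := abs_add_le (t - T) T
      rw [sub_add_cancel, abs_of_pos hT0] at this
      exact this
    rw [hvT] at h3
    nlinarith
  have h3 : 1 + (t - T) ^ 2 ≤ T ^ 2 * (1 + v) ^ 2 := by
    rw [← sq_abs (t - T), hvT]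
    nlinarith [mul_nonneg (sq_nonneg T) hv0]
  have h4 : (0 : ℝ) < 1 + (t - T) ^ 2 := by positivity
  rw [← div_eq_mul_inv, le_div_iff₀ h4]
  calc (1 + |t|) ^ m * Real.exp (-(((t - T) / Δ) ^ 2 / 2)) * (1 + (t - T) ^ 2)
      ≤ ((2 * T * (1 + v)) ^ m * Real.exp (-(v ^ 2 / 2))) * (T ^ 2 * (1 + v) ^ 2) := by
        gcongr
    _ = ((2 * T) ^ m * T ^ 2) * ((1 + v) ^ (m + 2) * Real.exp (-(v ^ 2 / 2))) := by
        rw [mul_pow (2 * T) (1 + v) m, pow_add]; ring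
    _ ≤ ((2 * T) ^ m * T ^ 2) * Kc m := by
        exact mul_le_mul_of_nonneg_left (poly_exp (m + 2) v hv0) (by positivity)
    _ = Kc m * ((2 * T) ^ m * T ^ 2) := by ring

/-- the constant in the bounds for `Zk * gg` -/
noncomputable def A0 (k : ℕ) : ℝ := 12 ^ (2 * k) * Kc (2 * k) * 2 ^ (2 * k)

lemma A0_nonneg (k : ℕ) : 0 ≤ A0 k := by unfold A0 Kc; positivity

lemma bound1 (k : ℕ) (T Δ t : ℝ) (hT : 1 ≤ T) (hΔ : 0 < Δ) (hΔT : Δ ≤ T) :
    Zk k t * gg T Δ t ≤ A0 k * T ^ (2 * k + 2) * Real.exp (-(((t - T) / Δ) ^ 2 / 2)) *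
      (1 + (t - T) ^ 2)⁻¹ := by
  have h1 := bound0 (2 * k) T Δ t hT hΔ hΔT
  have h2 := Zk_le k t
  have e : gg T Δ t = Real.exp (-(((t - T) / Δ) ^ 2 / 2)) * Real.exp (-(((t - T) / Δ) ^ 2 / 2)) := by
    unfold Pool.Agent.W188.QS.gg
    rw [← Real.exp_add]
    congr 1
    ring
  rw [e]
  set w := Real.exp (-(((t - T) / Δ) ^ 2 / 2)) with hw
  have hw0 : 0 ≤ w := Real.exp_nonneg _
  calc Zk k t * (w * w) ≤ (12 ^ (2 * k) * (1 + |t|) ^ (2 * k)) * (w * w) :=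
        mul_le_mul_of_nonneg_right h2 (mul_nonneg hw0 hw0)
    _ = 12 ^ (2 * k) * w * ((1 + |t|) ^ (2 * k) * w) := by ring
    _ ≤ 12 ^ (2 * k) * w * (Kc (2 * k) * ((2 * T) ^ (2 * k) * T ^ 2) * (1 + (t - T) ^ 2)⁻¹) :=
        mul_le_mul_of_nonneg_left h1 (by positivity)
    _ = A0 k * T ^ (2 * k + 2) * w * (1 + (t - T) ^ 2)⁻¹ := by
        unfold A0
        rw [mul_pow 2 T, pow_add T]; ring

lemma bound2 (k : ℕ) (T Δ t : ℝ) (hT : 1 ≤ T) (hΔ : 0 < Δ) (hΔT : Δ ≤ T) :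
    Zk k t * gg T Δ t ≤ A0 k * T ^ (2 * k + 2) * (1 + (t - T) ^ 2)⁻¹ := by
  refine (bound1 k T Δ t hT hΔ hΔT).trans ?_
  have h1 : Real.exp (-(((t - T) / Δ) ^ 2 / 2)) ≤ 1 := by
    rw [Real.exp_le_one_iff]
    have := sq_nonneg ((t - T) / Δ)
    linarith
  have h2 := A0_nonneg k
  have h3 : 0 ≤ A0 k * T ^ (2 * k + 2) := by positivity
  refine mul_le_mul_of_nonneg_right ?_ (by positivity)
  exact mul_le_of_le_one_right h3 h1

lemma bound3 (k : ℕ) (B T Δ t : ℝ) (hT : 1 ≤ T) (hB : 0 ≤ B) (hΔ : 0 < Δ) (hΔT : Δ ≤ T)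
    (hBT : B * Δ * √(Real.log T) ≤ T) (ht : T / 2 ≤ |t - T|) :
    Zk k t * gg T Δ t ≤ A0 k * T ^ (2 * k + 2) * T ^ (-(B ^ 2 / 8)) * (1 + (t - T) ^ 2)⁻¹ := by
  refine (bound1 k T Δ t hT hΔ hΔT).trans ?_
  have hT0 : 0 < T := by linarith
  have hlog : 0 ≤ Real.log T := Real.log_nonneg hT
  have h1 : Real.exp (-(((t - T) / Δ) ^ 2 / 2)) ≤ T ^ (-(B ^ 2 / 8)) := by
    rw [Real.rpow_def_of_pos hT0]
    apply Real.exp_le_exp.2
    have h2 : B * √(Real.log T) / 2 ≤ |(t - T) / Δ| := by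
      rw [abs_div, abs_of_pos hΔ, le_div_iff₀ hΔ]
      nlinarith
    have h3 : (B * √(Real.log T) / 2) ^ 2 ≤ ((t - T) / Δ) ^ 2 := by
      rw [← sq_abs ((t - T) / Δ)]
      exact pow_le_pow_left₀ (by positivity) h2 2
    have h4 : (B * √(Real.log T) / 2) ^ 2 = B ^ 2 * Real.log T / 4 := by
      rw [div_pow, mul_pow, Real.sq_sqrt hlog]; norm_num
    rw [h4] at h3
    nlinarith
  have h2 := A0_nonneg k
  have h3 : 0 ≤ A0 k * T ^ (2 * k + 2) := by positivity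
  refine mul_le_mul_of_nonneg_right ?_ (by positivity)
  exact mul_le_mul_of_nonneg_left h1 h3

/-! ### Sums over progressions -/

lemma tele (a : ℤ → ℝ) (c : ℝ) (h1 : ∀ n, a n ≤ a (n + 1)) (h2 : ∀ n, |a n| ≤ c) (F : Finset ℤ) :
    ∑ n ∈ F, (a (n + 1) - a n) ≤ 2 * c := by
  classical
  obtain ⟨M, hM⟩ : ∃ M : ℕ, ∀ n ∈ F, n.natAbs ≤ M := ⟨F.sup Int.natAbs, fun n hn =>
    Finset.le_sup (f := Int.natAbs) hn⟩
  have hsub : F ⊆ (Finset.range (2 * M + 1)).image fun i : ℕ => -(M : ℤ) + (i : ℤ) := by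
    intro n hn
    have := hM n hn
    rw [Finset.mem_image]
    refine ⟨(n + M).toNat, ?_, ?_⟩
    · rw [Finset.mem_range]; omega
    · omega
  refine (Finset.sum_le_sum_of_subset_of_nonneg hsub fun n _ _ => sub_nonneg.2 (h1 n)).trans ?_
  rw [Finset.sum_image (by
    intro i _ j _ hij
    simp only at hij
    omega)]
  have e : ∀ i : ℕ, a (-(M : ℤ) + (i : ℤ) + 1) - a (-(M : ℤ) + (i : ℤ)) =
      (fun i : ℕ => a (-(M : ℤ) + (i : ℤ))) (i + 1) - (fun i : ℕ => a (-(M : ℤ) + (i : ℤ))) i := by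
    intro i
    simp only
    push_cast
    rw [add_assoc]
  have e2 : ∑ i ∈ Finset.range (2 * M + 1), (a (-(M : ℤ) + (i : ℤ) + 1) - a (-(M : ℤ) + (i : ℤ))) =
      a (-(M : ℤ) + ((2 * M + 1 : ℕ) : ℤ)) - a (-(M : ℤ) + ((0 : ℕ) : ℤ)) := by
    refine (Finset.sum_congr rfl fun i _ => e i).trans ?_
    exact Finset.sum_range_sub (fun i : ℕ => a (-(M : ℤ) + (i : ℤ))) (2 * M + 1)
  rw [e2]
  have h3 := abs_le.1 (h2 (-(M : ℤ) + ((2 * M + 1 : ℕ) : ℤ)))
  have h4 := abs_le.1 (h2 (-(M : ℤ) + ((0 : ℕ) : ℤ)))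
  linarith [h3.2, h4.1]

lemma arct (y δ : ℝ) (hδ : 0 < δ) :
    δ * (1 + y ^ 2)⁻¹ ≤ 2 * (1 + δ ^ 2) * (Real.arctan (y + δ) - Real.arctan y) := by
  obtain ⟨c, hc, h⟩ := exists_hasDerivAt_eq_slope Real.arctan (fun x => 1 / (1 + x ^ 2))
    (show y < y + δ by linarith) Real.continuous_arctan.continuousOn
    (fun x _ => Real.hasDerivAt_arctan x)
  have h1 : Real.arctan (y + δ) - Real.arctan y = δ * (1 / (1 + c ^ 2)) := by
    rw [h, show y + δ - y = δ by ring, mul_div_cancel₀ _ hδ.ne']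
  rw [h1]
  have h2 : 1 + c ^ 2 ≤ 2 * (1 + δ ^ 2) * (1 + y ^ 2) := by
    have h3 : (c - y) ^ 2 ≤ δ ^ 2 :=
      pow_le_pow_left₀ (by linarith [hc.1]) (by linarith [hc.2]) 2
    nlinarith [sq_nonneg (c - 2 * y), mul_nonneg (sq_nonneg δ) (sq_nonneg y)]
  have h3 : (1 + y ^ 2)⁻¹ ≤ 2 * (1 + δ ^ 2) * (1 / (1 + c ^ 2)) := by
    rw [inv_le_iff_one_le_mul₀ (by positivity), mul_one_div, div_mul_eq_mul_div,
      le_div_iff₀ (by positivity), one_mul]
    exact h2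
  calc δ * (1 + y ^ 2)⁻¹ ≤ δ * (2 * (1 + δ ^ 2) * (1 / (1 + c ^ 2))) :=
        mul_le_mul_of_nonneg_left h3 hδ.le
    _ = _ := by ring

lemma sums (δ s : ℝ) (hδ : 0 < δ) (hδ' : δ ≤ 10) (F : Finset ℤ) :
    ∑ n ∈ F, δ * (1 + ((n : ℝ) * δ + s) ^ 2)⁻¹ ≤ 700 := by
  have h1 : ∀ n ∈ F, δ * (1 + ((n : ℝ) * δ + s) ^ 2)⁻¹ ≤
      202 * (Real.arctan (((n + 1 : ℤ) : ℝ) * δ + s) - Real.arctan ((n : ℝ) * δ + s)) := by
    intro n _
    have h2 := arct ((n : ℝ) * δ + s) δ hδ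
    have e : ((n + 1 : ℤ) : ℝ) * δ + s = (n : ℝ) * δ + s + δ := by push_cast; ring
    rw [e]
    refine h2.trans (mul_le_mul_of_nonneg_right ?_ ?_)
    · nlinarith
    · exact sub_nonneg.2 (Real.arctan_strictMono.monotone (by linarith))
  refine (Finset.sum_le_sum h1).trans ?_
  rw [← Finset.mul_sum]
  have h3 := tele (fun n : ℤ => Real.arctan ((n : ℝ) * δ + s)) (Real.pi / 2)
    (fun n => Real.arctan_strictMono.monotone (by push_cast; nlinarith))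
    (fun n => abs_le.2 ⟨(Real.neg_pi_div_two_lt_arctan _).le, (Real.arctan_lt_pi_div_two _).le⟩) F
  have h4 := Real.pi_lt_d2
  linarith

/-- `t ↦ Zk k t * gg T Δ t` -/
noncomputable def hh (k : ℕ) (T Δ t : ℝ) : ℝ := Zk k t * gg T Δ t

lemma hh_nonneg (k : ℕ) (T Δ t : ℝ) : 0 ≤ hh k T Δ t := mul_nonneg (Zk_nonneg k t) (gg_nonneg T Δ t)

lemma hh_cont (k : ℕ) (T Δ : ℝ) : Continuous (hh k T Δ) := (Zk_cont k).mul (gg_cont T Δ)

/-- `t ↦ 1 / (1 + (t - T)²)` -/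
noncomputable def ph (T t : ℝ) : ℝ := (1 + (t - T) ^ 2)⁻¹

lemma ph_nonneg (T t : ℝ) : 0 ≤ ph T t := by unfold ph; positivity

lemma ph_int (T : ℝ) : Integrable (ph T) := by
  have := integrable_inv_one_add_sq.comp_sub_right T
  exact this

lemma ph_integral (T : ℝ) : ∫ t, ph T t = Real.pi := by
  have h := integral_sub_right_eq_self (μ := volume) (fun x : ℝ => (1 + x ^ 2)⁻¹) T
  rw [integral_univ_inv_one_add_sq] at h
  exact h

/-- the window -/
def Wi (T : ℝ) : Set ℝ := Ioo (T / 2) (3 * T / 2)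

lemma Wi_meas (T : ℝ) : MeasurableSet (Wi T) := measurableSet_Ioo

lemma Wi_compl {T t : ℝ} (h : t ∉ Wi T) : T / 2 ≤ |t - T| := by
  by_contra hc
  rw [not_le, abs_lt] at hc
  exact h ⟨by linarith, by linarith⟩

lemma part1 (k : ℕ) (T Δ D D' : ℝ) (hT : 0 < T) (hD : ∀ t, hh k T Δ t ≤ D * ph T t)
    (hD' : ∀ t, t ∉ Wi T → hh k T Δ t ≤ D' * ph T t) (hD0 : 0 ≤ D') :
    |(∫ t in Wi T, gg T Δ t ∂(mu k)) - (∫ t : ℝ, zg k k T Δ t).re| ≤ D' * Real.pi := by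
  have hint : Integrable (hh k T Δ) := by
    refine ((ph_int T).const_mul D).mono' (hh_cont k T Δ).aestronglyMeasurable ?_
    refine Eventually.of_forall fun t => ?_
    rw [Real.norm_of_nonneg (hh_nonneg k T Δ t)]
    exact hD t
  have e1 : (∫ t : ℝ, zg k k T Δ t).re = ∫ t, hh k T Δ t := by
    have : (∫ t : ℝ, zg k k T Δ t) = ((∫ t, hh k T Δ t : ℝ) : ℂ) := by
      have h0 : ∫ t, ((hh k T Δ t : ℝ) : ℂ) = ((∫ t, hh k T Δ t : ℝ) : ℂ) := integral_ofReal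
      rw [← h0]
      exact integral_congr_ae (Eventually.of_forall fun t => zg_eq k T Δ t)
    rw [this, Complex.ofReal_re]
  have e2 : (∫ t in Wi T, gg T Δ t ∂(mu k)) = ∫ t in Wi T, hh k T Δ t := by
    unfold mu
    rw [restrict_withDensity (Wi_meas T), Measure.restrict_restrict (Wi_meas T)]
    have e3 : Wi T ∩ Ioi 0 = Wi T := by
      refine inter_eq_left.2 fun t ht => ?_
      have := ht.1
      show 0 < t
      linarith
    rw [e3, integral_withDensity_eq_integral_toReal_smul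
      ((Zk_cont k).measurable.ennreal_ofReal) (Eventually.of_forall fun _ => ENNReal.ofReal_lt_top)]
    refine integral_congr_ae (Eventually.of_forall fun t => ?_)
    show (ENNReal.ofReal (Zk k t)).toReal • gg T Δ t = hh k T Δ t
    rw [ENNReal.toReal_ofReal (Zk_nonneg k t)]
    rfl
  rw [e1, e2]
  have e4 := integral_add_compl (Wi_meas T) hint
  have e5 : (∫ t in Wi T, hh k T Δ t) - ∫ t, hh k T Δ t = -∫ t in (Wi T)ᶜ, hh k T Δ t := by
    rw [← e4]; ring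
  rw [e5, abs_neg, abs_of_nonneg (integral_nonneg fun t => hh_nonneg k T Δ t)]
  calc ∫ t in (Wi T)ᶜ, hh k T Δ t ≤ ∫ t in (Wi T)ᶜ, D' * ph T t :=
        setIntegral_mono_on hint.integrableOn ((ph_int T).const_mul D').integrableOn
          (Wi_meas T).compl fun t ht => hD' t ht
    _ ≤ ∫ t, D' * ph T t :=
        setIntegral_le_integral ((ph_int T).const_mul D')
          (Eventually.of_forall fun t => mul_nonneg hD0 (ph_nonneg T t))
    _ = D' * Real.pi := by rw [integral_const_mul, ph_integral]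

lemma part2 (k : ℕ) (T Δ D D' δ τ : ℝ) (hT : 0 < T) (hδ : 0 < δ) (hδ' : δ ≤ 10)
    (hD : ∀ t, hh k T Δ t ≤ D * ph T t)
    (hD' : ∀ t, t ∉ Wi T → hh k T Δ t ≤ D' * ph T t) (hD0 : 0 ≤ D') :
    |(∫ t in Wi T, gg T Δ t ∂(nu k δ τ)) -
      ((δ : ℂ) * (∑' n : ℤ, zg k k T Δ (n * δ + τ))).re| ≤ D' * 700 := by
  have hph : ∀ F : Finset ℤ, ∑ n ∈ F, δ * ph T ((n : ℝ) * δ + τ) ≤ 700 := by
    intro F
    refine le_trans (le_of_eq ?_) (sums δ (τ - T) hδ hδ' F)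
    refine Finset.sum_congr rfl fun n _ => ?_
    unfold ph
    rw [show (n : ℝ) * δ + τ - T = (n : ℝ) * δ + (τ - T) by ring]
  have sph : Summable fun n : ℤ => δ * ph T ((n : ℝ) * δ + τ) :=
    summable_of_sum_le (fun n => mul_nonneg hδ.le (ph_nonneg _ _)) hph
  have tph : ∑' n : ℤ, δ * ph T ((n : ℝ) * δ + τ) ≤ 700 := sph.tsum_le_of_sum_le hph
  have sh : Summable fun n : ℤ => δ * hh k T Δ ((n : ℝ) * δ + τ) := by
    refine Summable.of_nonneg_of_le (fun n => mul_nonneg hδ.le (hh_nonneg _ _ _ _)) (fun n => ?_)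
      (sph.mul_left D)
    calc δ * hh k T Δ ((n : ℝ) * δ + τ) ≤ δ * (D * ph T ((n : ℝ) * δ + τ)) :=
          mul_le_mul_of_nonneg_left (hD _) hδ.le
      _ = _ := by ring
  have e1 : ((δ : ℂ) * (∑' n : ℤ, zg k k T Δ (n * δ + τ))).re =
      ∑' n : ℤ, δ * hh k T Δ ((n : ℝ) * δ + τ) := by
    have e2 : (∑' n : ℤ, zg k k T Δ (n * δ + τ)) =
        ((∑' n : ℤ, hh k T Δ ((n : ℝ) * δ + τ) : ℝ) : ℂ) := by
      rw [Complex.ofReal_tsum]
      exact tsum_congr fun n => zg_eq k T Δ _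
    rw [e2, ← Complex.ofReal_mul, Complex.ofReal_re, tsum_mul_left]
  -- the integral
  have e3 : (∫ t in Wi T, gg T Δ t ∂(nu k δ τ)) =
      ∑' n : ℤ, (Wi T).indicator (fun t => δ * hh k T Δ t) ((n : ℝ) * δ + τ) := by
    unfold nu
    rw [Measure.restrict_restrict (Wi_meas T)]
    have e4 : Wi T ∩ Ioi 0 = Wi T := by
      refine inter_eq_left.2 fun t ht => ?_
      have := ht.1
      show 0 < t
      linarith
    rw [e4, integral_eq_lintegral_of_nonneg_ae (Eventually.of_forall fun t => gg_nonneg T Δ t)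
      (gg_cont T Δ).aestronglyMeasurable, ← lintegral_indicator (Wi_meas T),
      lintegral_sum_measure]
    have e5 : ∀ n : ℤ, (∫⁻ t, (Wi T).indicator (fun t => ENNReal.ofReal (gg T Δ t)) t
        ∂(ENNReal.ofReal (δ * Zk k (n * δ + τ)) • Measure.dirac (n * δ + τ))) =
        ENNReal.ofReal ((Wi T).indicator (fun t => δ * hh k T Δ t) ((n : ℝ) * δ + τ)) := by
      intro n
      rw [lintegral_smul_measure, lintegral_dirac]
      by_cases hn : ((n : ℝ) * δ + τ) ∈ Wi T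
      · rw [indicator_of_mem hn, indicator_of_mem hn, smul_eq_mul, ← ENNReal.ofReal_mul
          (mul_nonneg hδ.le (Zk_nonneg _ _))]
        congr 1
        unfold hh
        ring
      · rw [indicator_of_notMem hn, indicator_of_notMem hn, smul_zero, ENNReal.ofReal_zero]
    rw [tsum_congr e5, ← ENNReal.ofReal_tsum_of_nonneg, ENNReal.toReal_ofReal]
    · exact tsum_nonneg fun n => indicator_nonneg
        (fun t _ => mul_nonneg hδ.le (hh_nonneg _ _ _ _)) _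
    · exact fun n => indicator_nonneg (fun t _ => mul_nonneg hδ.le (hh_nonneg _ _ _ _)) _
    · refine Summable.of_nonneg_of_le (fun n => indicator_nonneg
        (fun t _ => mul_nonneg hδ.le (hh_nonneg _ _ _ _)) _) (fun n => ?_) sh
      exact indicator_le_self' (fun t _ => mul_nonneg hδ.le (hh_nonneg _ _ _ _)) _
  rw [e1, e3]
  have si : Summable fun n : ℤ => (Wi T).indicator (fun t => δ * hh k T Δ t) ((n : ℝ) * δ + τ) :=
    Summable.of_nonneg_of_le (fun n => indicator_nonneg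
        (fun t _ => mul_nonneg hδ.le (hh_nonneg _ _ _ _)) _) (fun n =>
      indicator_le_self' (fun t _ => mul_nonneg hδ.le (hh_nonneg _ _ _ _)) _) sh
  rw [abs_sub_comm, ← Summable.tsum_sub sh si]
  have hb : ∀ n : ℤ, 0 ≤ δ * hh k T Δ ((n : ℝ) * δ + τ) -
      (Wi T).indicator (fun t => δ * hh k T Δ t) ((n : ℝ) * δ + τ) ∧
      δ * hh k T Δ ((n : ℝ) * δ + τ) -
      (Wi T).indicator (fun t => δ * hh k T Δ t) ((n : ℝ) * δ + τ) ≤
      D' * (δ * ph T ((n : ℝ) * δ + τ)) := by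
    intro n
    by_cases hn : ((n : ℝ) * δ + τ) ∈ Wi T
    · rw [indicator_of_mem hn, sub_self]
      exact ⟨le_rfl, mul_nonneg hD0 (mul_nonneg hδ.le (ph_nonneg _ _))⟩
    · rw [indicator_of_notMem hn, sub_zero]
      refine ⟨mul_nonneg hδ.le (hh_nonneg _ _ _ _), ?_⟩
      calc δ * hh k T Δ ((n : ℝ) * δ + τ) ≤ δ * (D' * ph T ((n : ℝ) * δ + τ)) :=
            mul_le_mul_of_nonneg_left (hD' _ hn) hδ.le
        _ = _ := by ring
  rw [abs_of_nonneg (tsum_nonneg fun n => (hb n).1)]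
  calc _ ≤ ∑' n : ℤ, D' * (δ * ph T ((n : ℝ) * δ + τ)) :=
        (sh.sub si).tsum_le_tsum (fun n => (hb n).2) (sph.mul_left D')
    _ = D' * ∑' n : ℤ, δ * ph T ((n : ℝ) * δ + τ) := tsum_mul_left
    _ ≤ D' * 700 := mul_le_mul_of_nonneg_left tph hD0

end Pool.Agent.N30.AP.MEB

namespace Pool.Agent.N30.AP

open MEB

theorem t_MEB : S_MEB := by
  intro k hk M
  obtain ⟨m, hm⟩ : ∃ m : ℝ, m = 2 * (k : ℝ) + 3 + |M| := ⟨_, rfl⟩
  have hm3 : 3 ≤ m := by
    rw [hm]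
    have : (0 : ℝ) ≤ k := Nat.cast_nonneg k
    linarith [abs_nonneg M]
  refine ⟨8 * m, max 100 (A0 k * 700), by linarith, le_max_left _ _, ?_⟩
  intro T Δ hT hΔ hBT
  have hT100 : 100 ≤ T := (le_max_left _ _).trans hT
  have hTA : A0 k * 700 ≤ T := (le_max_right _ _).trans hT
  have hT1 : 1 ≤ T := by linarith
  have hT0 : 0 < T := by linarith
  have hlog : 1 ≤ Real.log T := by
    rw [Real.le_log_iff_exp_le hT0]
    have := Real.exp_one_lt_d9
    linarith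
  have hsq : 1 ≤ √(Real.log T) := by
    rw [Real.one_le_sqrt]; exact hlog
  have hΔ0 : 0 < Δ := by linarith
  have hΔT : Δ ≤ T := by
    refine le_trans ?_ hBT
    have h1 : Δ ≤ 8 * m * Δ := by nlinarith
    have h2 : 8 * m * Δ ≤ 8 * m * Δ * √(Real.log T) := by
      have : 0 ≤ 8 * m * Δ := by positivity
      nlinarith
    linarith
  obtain ⟨D', hD'⟩ : ∃ D', D' = A0 k * T ^ (2 * k + 2) * T ^ (-((8 * m) ^ 2 / 8)) := ⟨_, rfl⟩
  have hD0 : 0 ≤ D' := by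
    rw [hD']
    have := A0_nonneg k
    positivity
  have hfin : D' * 700 ≤ T ^ (-M) := by
    have h1 : T ^ (2 * k + 2) = T ^ (2 * (k : ℝ) + 2) := by
      rw [← Real.rpow_natCast]; push_cast; rfl
    have h2 : T ^ (2 * (k : ℝ) + 2) * T ^ (-((8 * m) ^ 2 / 8)) ≤ T ^ (-1 - M) := by
      rw [← Real.rpow_add hT0]
      refine Real.rpow_le_rpow_of_exponent_le hT1 ?_
      have h3 : (8 * m) ^ 2 / 8 = 8 * m ^ 2 := by ring
      rw [h3]
      have h4 : m ≤ 8 * m ^ 2 := by nlinarith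
      have h5 := le_abs_self M
      have h6 : m = 2 * (k : ℝ) + 3 + |M| := hm
      linarith
    have h3 : T ^ (-1 - M) = T⁻¹ * T ^ (-M) := by
      rw [sub_eq_add_neg, Real.rpow_add hT0, Real.rpow_neg_one]
    have h4 : 0 ≤ T ^ (-M) := Real.rpow_nonneg hT0.le _
    calc D' * 700 = (A0 k * 700) * (T ^ (2 * (k : ℝ) + 2) * T ^ (-((8 * m) ^ 2 / 8))) := by
          rw [hD', h1]; ring
      _ ≤ T * (T⁻¹ * T ^ (-M)) := by
          rw [← h3]
          exact mul_le_mul hTA h2 (by positivity) hT0.le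
      _ = T ^ (-M) := by
          rw [← mul_assoc, mul_inv_cancel₀ hT0.ne', one_mul]
  have hb2 : ∀ t, hh k T Δ t ≤ (A0 k * T ^ (2 * k + 2)) * ph T t := fun t =>
    bound2 k T Δ t hT1 hΔ0 hΔT
  have hb3 : ∀ t, t ∉ Wi T → hh k T Δ t ≤ D' * ph T t := fun t ht => by
    rw [hD']
    exact bound3 k (8 * m) T Δ t hT1 (by linarith) hΔ0 hΔT hBT (Wi_compl ht)
  refine ⟨?_, fun δ τ hδ hδ' => ?_⟩
  · refine (part1 k T Δ _ D' hT0 hb2 hb3 hD0).trans (le_trans ?_ hfin)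
    have := Real.pi_lt_d2
    exact mul_le_mul_of_nonneg_left (by linarith) hD0
  · exact (part2 k T Δ _ D' δ τ hT0 hδ hδ' hb2 hb3 hD0).trans hfin

end Pool.Agent.N30.AP
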