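import Pool.Agent.N30.AP.Stm
import Pool.Agent.H388LH.ZG

set_option autoImplicit false

/-!
# Project AP, leaf MEC: trivial bounds for the two measures
-/

open Complex MeasureTheory Set Filter Topology
open Pool.Agent.W188.QS (XX cp fp GG gg Zk PC)

namespace Pool.Agent.N30.AP

namespace MEC

lemma Zk_nonneg (k : ℕ) (t : ℝ) : 0 ≤ Zk k t := by
  unfold Zk
  positivity

lemma Zk_cont (k : ℕ) : Continuous (Zk k) := by
  unfold Zk
  apply Continuous.pow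
  apply Continuous.norm
  rw [continuous_iff_continuousAt]
  intro t
  have h : cp t ≠ 1 := by
    intro h
    have := congrArg Complex.re h
    simp [cp] at this
  have h1 : ContinuousAt riemannZeta (cp t) := (differentiableAt_riemannZeta h).continuousAt
  have h2 : ContinuousAt cp t := by unfold cp; fun_prop
  exact ContinuousAt.comp (f := cp) (g := riemannZeta) h1 h2

lemma Zk_le (k : ℕ) {x t : ℝ} (ht : 0 ≤ t) (hx : t ≤ x) :
    Zk k t ≤ 9 ^ (2 * k) * (1 + x) ^ (2 * k) := by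
  have h := Pool.Agent.H388LH.zeta_growth' (s := cp t) (by simp [cp]; norm_num)
    (by simp [cp]; norm_num)
  have e : (cp t).im = t := by simp [cp]
  rw [e, abs_of_nonneg ht] at h
  unfold Zk
  rw [← mul_pow]
  apply pow_le_pow_left₀ (norm_nonneg _)
  linarith

lemma mu_le (k : ℕ) {x : ℝ} (hx : 0 ≤ x) :
    ∫ t in (0 : ℝ)..x, Zk k t ≤ (x + 10) * (9 ^ (2 * k) * (1 + x) ^ (2 * k)) := by
  have h2 := intervalIntegral.integral_mono_on (μ := volume) hx ((Zk_cont k).intervalIntegrable _ _)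
    (intervalIntegrable_const (c := (9 : ℝ) ^ (2 * k) * (1 + x) ^ (2 * k)))
    (fun t ht => Zk_le k ht.1 ht.2)
  rw [intervalIntegral.integral_const, smul_eq_mul, sub_zero] at h2
  refine h2.trans ?_
  have h3 : (0 : ℝ) ≤ 9 ^ (2 * k) * (1 + x) ^ (2 * k) := by positivity
  nlinarith

lemma nu_le (k : ℕ) {x δ τ : ℝ} (hx : 0 ≤ x) (hδ : 0 < δ) (hδ1 : δ ≤ 10) :
    Sa k δ τ x ≤ (x + 10) * (9 ^ (2 * k) * (1 + x) ^ (2 * k)) := by
  unfold Sa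
  have hS : {n : ℤ | 0 < (n : ℝ) * δ + τ ∧ (n : ℝ) * δ + τ ≤ x} =
      ((Finset.Ioc ⌊-τ / δ⌋ ⌊(x - τ) / δ⌋ : Finset ℤ) : Set ℤ) := by
    ext n
    rw [Finset.coe_Ioc, Set.mem_Ioc, Int.floor_lt, Int.le_floor, div_lt_iff₀ hδ, le_div_iff₀ hδ]
    constructor
    · rintro ⟨h1, h2⟩
      constructor <;> linarith
    · rintro ⟨h1, h2⟩
      constructor <;> linarith
  have hmem : ∀ n ∈ Finset.Ioc ⌊-τ / δ⌋ ⌊(x - τ) / δ⌋,
      0 < (n : ℝ) * δ + τ ∧ (n : ℝ) * δ + τ ≤ x := by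
    intro n hn
    have h1 : n ∈ ((Finset.Ioc ⌊-τ / δ⌋ ⌊(x - τ) / δ⌋ : Finset ℤ) : Set ℤ) := hn
    rw [← hS] at h1
    exact h1
  rw [hS, finsum_mem_coe_finset]
  have h1 : ∑ n ∈ Finset.Ioc ⌊-τ / δ⌋ ⌊(x - τ) / δ⌋, Zk k ((n : ℝ) * δ + τ) ≤
      (Finset.Ioc ⌊-τ / δ⌋ ⌊(x - τ) / δ⌋).card • ((9 : ℝ) ^ (2 * k) * (1 + x) ^ (2 * k)) := by
    apply Finset.sum_le_card_nsmul
    intro n hn
    obtain ⟨h1, h2⟩ := hmem n hn
    exact Zk_le k h1.le h2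
  have h2 : ((Finset.Ioc ⌊-τ / δ⌋ ⌊(x - τ) / δ⌋).card : ℝ) ≤ x / δ + 1 := by
    rw [Int.card_Ioc]
    have h3 : (((⌊(x - τ) / δ⌋ - ⌊-τ / δ⌋).toNat : ℤ) : ℝ) ≤ x / δ + 1 := by
      rw [Int.toNat_eq_max]
      push_cast
      have h4 : (⌊(x - τ) / δ⌋ : ℝ) ≤ (x - τ) / δ := Int.floor_le _
      have h5 : -τ / δ - 1 < (⌊-τ / δ⌋ : ℝ) := Int.sub_one_lt_floor _
      have h6 : (x - τ) / δ = x / δ + -τ / δ := by ring
      have h7 : 0 ≤ x / δ := by positivity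
      apply max_le
      · linarith
      · linarith
    exact_mod_cast h3
  have h3 : (0 : ℝ) ≤ 9 ^ (2 * k) * (1 + x) ^ (2 * k) := by positivity
  rw [nsmul_eq_mul] at h1
  calc δ * ∑ n ∈ Finset.Ioc ⌊-τ / δ⌋ ⌊(x - τ) / δ⌋, Zk k ((n : ℝ) * δ + τ)
      ≤ δ * ((x / δ + 1) * (9 ^ (2 * k) * (1 + x) ^ (2 * k))) := by
        apply mul_le_mul_of_nonneg_left _ hδ.le
        exact h1.trans (mul_le_mul_of_nonneg_right h2 h3)
    _ = (x + δ) * (9 ^ (2 * k) * (1 + x) ^ (2 * k)) := by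
        field_simp
    _ ≤ (x + 10) * (9 ^ (2 * k) * (1 + x) ^ (2 * k)) := by
        apply mul_le_mul_of_nonneg_right _ h3
        linarith

lemma poly_le (k : ℕ) {x : ℝ} (hx : 1 ≤ x) :
    (x + 10) * (9 ^ (2 * k) * (1 + x) ^ (2 * k)) ≤ 11 * 9 ^ (2 * k) * 2 ^ (2 * k) * x ^ (2 * k + 1) := by
  have h1 : x + 10 ≤ 11 * x := by linarith
  have h2 : (1 + x) ^ (2 * k) ≤ (2 * x) ^ (2 * k) :=
    pow_le_pow_left₀ (by linarith) (by linarith) _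
  calc (x + 10) * (9 ^ (2 * k) * (1 + x) ^ (2 * k))
      ≤ (11 * x) * (9 ^ (2 * k) * (2 * x) ^ (2 * k)) := by gcongr
    _ = 11 * 9 ^ (2 * k) * 2 ^ (2 * k) * x ^ (2 * k + 1) := by
        rw [mul_pow, pow_succ]
        ring

end MEC

open MEC in
theorem t_MEC (h : S_MEA) : S_MEC := by
  intro k hk
  obtain ⟨-, -, hmu, hnu⟩ := h k hk
  set D : ℝ := 11 * 9 ^ (2 * k) * 2 ^ (2 * k) with hD
  have hD1 : 1 ≤ D := by
    have h9 : (1 : ℝ) ≤ 9 ^ (2 * k) := one_le_pow₀ (by norm_num)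
    have h2 : (1 : ℝ) ≤ 2 ^ (2 * k) := one_le_pow₀ (by norm_num)
    rw [hD]
    nlinarith
  have hmu' : ∀ x : ℝ, 1 ≤ x → (mu k).real (Ioc 0 x) ≤ D * x ^ (2 * k + 1) := by
    intro x hx
    rw [hmu x (by linarith)]
    exact (mu_le k (by linarith)).trans (poly_le k hx)
  have hnu' : ∀ x δ τ : ℝ, 1 ≤ x → 0 < δ → δ ≤ 10 →
      (nu k δ τ).real (Ioc 0 x) ≤ D * x ^ (2 * k + 1) := by
    intro x δ τ hx hδ hδ1
    rw [hnu δ τ x hδ]
    exact (nu_le k (by linarith) hδ hδ1).trans (poly_le k hx)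
  have hm0 : (0 : ℝ) < ((2 * k + 1 : ℕ) : ℝ) := by positivity
  have hm1 : (1 : ℝ) ≤ ((2 * k + 1 : ℕ) : ℝ) := by exact_mod_cast Nat.le_add_left 1 (2 * k)
  refine ⟨⟨1 / (4 * ((2 * k + 1 : ℕ) : ℝ)), by positivity, ?_, (D * 2 ^ (2 * k + 1)) ^ 4, ?_⟩,
    ⟨D + ((2 * k + 1 : ℕ) : ℝ), by positivity, ?_⟩⟩
  · rw [div_lt_one (by positivity)]
    linarith
  · set K : ℝ := D * 2 ^ (2 * k + 1) with hK
    have hK1 : 1 ≤ K := by
      have h2 : (1 : ℝ) ≤ 2 ^ (2 * k + 1) := one_le_pow₀ (by norm_num)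
      rw [hK]
      nlinarith
    intro T hT
    have hT1 : 1 ≤ T := le_trans (one_le_pow₀ hK1) hT
    have hT0 : 0 < T := by linarith
    have hx : (1 : ℝ) ≤ 2 * T ^ (1 / (4 * ((2 * k + 1 : ℕ) : ℝ))) := by
      have := Real.one_le_rpow hT1 (z := 1 / (4 * ((2 * k + 1 : ℕ) : ℝ))) (by positivity)
      linarith
    have hKT : K ≤ T ^ (1 / 4 : ℝ) := by
      have h1 : (K ^ 4) ^ (1 / 4 : ℝ) ≤ T ^ (1 / 4 : ℝ) :=
        Real.rpow_le_rpow (by positivity) hT (by norm_num)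
      have h2 : (K ^ 4) ^ (1 / 4 : ℝ) = K := by
        rw [← Real.rpow_natCast, ← Real.rpow_mul (by linarith)]
        norm_num
      rw [h2] at h1
      exact h1
    have hmain : D * (2 * T ^ (1 / (4 * ((2 * k + 1 : ℕ) : ℝ)))) ^ (2 * k + 1) ≤ T ^ (1 / 2 : ℝ) := by
      have e1 : (T ^ (1 / (4 * ((2 * k + 1 : ℕ) : ℝ)))) ^ (2 * k + 1) = T ^ (1 / 4 : ℝ) := by
        rw [← Real.rpow_natCast, ← Real.rpow_mul hT0.le]
        congr 1
        field_simp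
      rw [mul_pow, e1, ← mul_assoc, ← hK]
      calc K * T ^ (1 / 4 : ℝ) ≤ T ^ (1 / 4 : ℝ) * T ^ (1 / 4 : ℝ) := by
            apply mul_le_mul_of_nonneg_right hKT (by positivity)
        _ = T ^ (1 / 2 : ℝ) := by
            rw [← Real.rpow_add hT0]
            norm_num
    exact ⟨(hmu' _ hx).trans hmain, fun δ τ hδ hδ1 => (hnu' _ δ τ hx hδ hδ1).trans hmain⟩
  · intro x hx
    have hx0 : 0 < x := by linarith
    have hb : D * x ^ (2 * k + 1) ≤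
        (D + ((2 * k + 1 : ℕ) : ℝ)) * x ^ (D + ((2 * k + 1 : ℕ) : ℝ)) := by
      have e1 : x ^ (2 * k + 1) = x ^ ((2 * k + 1 : ℕ) : ℝ) := (Real.rpow_natCast _ _).symm
      have e2 : x ^ ((2 * k + 1 : ℕ) : ℝ) ≤ x ^ (D + ((2 * k + 1 : ℕ) : ℝ)) :=
        Real.rpow_le_rpow_of_exponent_le hx (by linarith)
      rw [e1]
      apply mul_le_mul (by linarith) e2 (by positivity) (by linarith)
    exact ⟨(hmu' x hx).trans hb, fun δ τ hδ hδ1 => (hnu' x δ τ hx hδ hδ1).trans hb⟩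

end Pool.Agent.N30.AP
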