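import Pool.Agent.N30.AP.Stm

set_option autoImplicit false

/-!
# Project AP, POIS (helper413): Poisson's summation formula, as an inequality
-/

open Complex MeasureTheory Set Filter Topology FourierTransform

namespace Pool.Agent.N30.AP

namespace POIS_

theorem decay {f : ℝ → ℂ} {C : ℝ} (hf : ∀ t : ℝ, ‖f t‖ ≤ C / (1 + t ^ 2)) {δ τ : ℝ} (hδ : 0 < δ) :
    (fun x : ℝ => f (δ * x + τ)) =O[cocompact ℝ] fun x : ℝ => |x| ^ (-(2 : ℝ)) := by
  have hC : 0 ≤ C := by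
    have h := hf 0
    simp only [ne_eq, OfNat.ofNat_ne_zero, not_false_eq_true, zero_pow, add_zero, div_one] at h
    exact (norm_nonneg _).trans h
  refine Asymptotics.IsBigO.of_bound (4 * C / δ ^ 2) ?_
  filter_upwards [(tendsto_norm_cocompact_atTop (E := ℝ)).eventually_ge_atTop (2 * |τ| / δ + 1)]
    with x hx
  rw [Real.norm_eq_abs] at hx
  have hτ : 0 ≤ |τ| := abs_nonneg τ
  have h0 : 0 ≤ 2 * |τ| / δ := by positivity
  have hx0 : 0 < |x| := by linarith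
  have h1 : 2 * |τ| ≤ δ * |x| := by
    have h2 : 2 * |τ| / δ ≤ |x| := by linarith
    rw [div_le_iff₀ hδ] at h2
    linarith
  have h3 : δ * |x| / 2 ≤ |δ * x + τ| := by
    have h4 : |δ * x| ≤ |δ * x + τ| + |τ| := by
      have h5 := abs_sub (δ * x + τ) τ
      rwa [add_sub_cancel_right] at h5
    rw [abs_mul, abs_of_pos hδ] at h4
    linarith
  have h6 : δ ^ 2 * x ^ 2 / 4 ≤ 1 + (δ * x + τ) ^ 2 := by
    have h7 : (δ * |x| / 2) ^ 2 ≤ |δ * x + τ| ^ 2 := pow_le_pow_left₀ (by positivity) h3 2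
    rw [sq_abs, div_pow, mul_pow, sq_abs] at h7
    norm_num at h7
    linarith
  have hx2 : 0 < x ^ 2 := by
    rw [← sq_abs]
    positivity
  have h8 : 0 < δ ^ 2 * x ^ 2 / 4 := by positivity
  rw [Real.norm_eq_abs, abs_of_nonneg (by positivity : (0 : ℝ) ≤ |x| ^ (-(2 : ℝ))),
    Real.rpow_neg (abs_nonneg x), Real.rpow_two, sq_abs]
  calc ‖f (δ * x + τ)‖ ≤ C / (1 + (δ * x + τ) ^ 2) := hf _
    _ ≤ C / (δ ^ 2 * x ^ 2 / 4) := div_le_div_of_nonneg_left hC h8 h6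
    _ = 4 * C / δ ^ 2 * (x ^ 2)⁻¹ := by
        field_simp

theorem four (f : ℝ → ℂ) {δ : ℝ} (hδ : 0 < δ) (τ : ℝ) (n : ℤ) :
    𝓕 (fun x : ℝ => f (δ * x + τ)) (n : ℝ) =
      cexp (((2 * Real.pi * n / δ * τ : ℝ) : ℂ) * I) * ((δ : ℂ)⁻¹ *
        ∫ t : ℝ, f t * cexp (-(((2 * Real.pi * n / δ * t : ℝ) : ℂ) * I))) := by
  rw [Real.fourier_real_eq_integral_exp_smul]
  set h : ℝ → ℂ := fun t => f t * cexp (-(((2 * Real.pi * n / δ * t : ℝ) : ℂ) * I)) with hh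
  have e1 : ∀ v : ℝ, cexp (((-2 * Real.pi * v * n : ℝ) : ℂ) * I) • f (δ * v + τ) =
      cexp (((2 * Real.pi * n / δ * τ : ℝ) : ℂ) * I) * h (δ * v + τ) := by
    intro v
    rw [hh]
    simp only
    rw [smul_eq_mul, mul_comm (f (δ * v + τ)), ← mul_assoc, ← Complex.exp_add]
    congr 2
    have hδ' : (δ : ℂ) ≠ 0 := by exact_mod_cast hδ.ne'
    push_cast
    field_simp
    ring
  rw [integral_congr_ae (Eventually.of_forall e1), integral_const_mul]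
  congr 1
  have e2 : (∫ v : ℝ, h (δ * v + τ)) = ∫ v : ℝ, (fun y => h (y + τ)) (δ * v) := rfl
  rw [e2, Measure.integral_comp_mul_left (fun y => h (y + τ)) δ,
    integral_add_right_eq_self (fun y => h y) τ, abs_of_pos (inv_pos.2 hδ), Complex.real_smul]
  push_cast
  rfl

end POIS_

open POIS_

theorem t_POIS : S_POIS := by
  rintro f hf ⟨C, hC⟩ δ τ φ hδ hφ h1 h2 -
  have hδ' : (δ : ℂ) ≠ 0 := by exact_mod_cast hδ.ne'
  set g : ℝ → ℂ := fun x => f (δ * x + τ) with hg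
  have hgc : Continuous g := by
    rw [hg]
    exact hf.comp (by fun_prop)
  have hgO := decay (τ := τ) hC hδ
  -- the terms
  have hn : ∀ n : ℤ, ‖(δ : ℂ) * 𝓕 g (n : ℝ)‖ =
      ‖∫ t : ℝ, f t * cexp (-(((2 * Real.pi * n / δ * t : ℝ) : ℂ) * I))‖ := by
    intro n
    rw [hg, four f hδ τ n, norm_mul, norm_mul, norm_mul, Complex.norm_exp_ofReal_mul_I, one_mul,
      ← mul_assoc, ← norm_mul, mul_inv_cancel₀ hδ', norm_one, one_mul]
  have hpos : ∀ m : ℕ, ‖(δ : ℂ) * 𝓕 g (((m + 1 : ℕ) : ℤ) : ℝ)‖ ≤ φ m := by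
    intro m
    rw [hn]
    have h3 := h1 m
    push_cast at h3 ⊢
    exact h3
  have hneg : ∀ m : ℕ, ‖(δ : ℂ) * 𝓕 g ((-((m : ℤ) + 1) : ℤ) : ℝ)‖ ≤ φ m := by
    intro m
    rw [hn]
    have h3 := h2 m
    refine le_trans (le_of_eq ?_) h3
    congr 1
    refine integral_congr_ae (Eventually.of_forall fun t => ?_)
    simp only
    congr 2
    push_cast
    ring
  have hs1 : Summable fun m : ℕ => (δ : ℂ) * 𝓕 g (((m + 1 : ℕ) : ℤ) : ℝ) :=
    Summable.of_norm_bounded hφ hpos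
  have hs1' : Summable fun m : ℕ => (δ : ℂ) * 𝓕 g (((m : ℕ) : ℤ) : ℝ) :=
    (summable_nat_add_iff (f := fun m : ℕ => (δ : ℂ) * 𝓕 g (((m : ℕ) : ℤ) : ℝ)) 1).1 hs1
  have hs2 : Summable fun m : ℕ => (δ : ℂ) * 𝓕 g ((-((m : ℤ) + 1) : ℤ) : ℝ) :=
    Summable.of_norm_bounded hφ hneg
  have hs : Summable fun n : ℤ => (δ : ℂ) * 𝓕 g (n : ℝ) :=
    Summable.of_nat_of_neg_add_one hs1' hs2
  have hs' : Summable fun n : ℤ => 𝓕 g (n : ℝ) := (summable_mul_left_iff hδ').1 hs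
  have hP := Real.tsum_eq_tsum_fourier_of_rpow_decay_of_summable hgc (b := 2) (by norm_num) hgO hs' 0
  have e1 : (fun n : ℤ => f (n * δ + τ)) = fun n : ℤ => g ((0 : ℝ) + n) := by
    funext n
    rw [hg]
    simp only
    congr 1
    ring
  refine ⟨?_, ?_⟩
  · have h3 := summable_of_isBigO (Real.summable_abs_int_rpow (by norm_num : (1 : ℝ) < 2))
      (hgO.comp_tendsto Int.tendsto_coe_cofinite)
    rw [e1]
    refine h3.congr fun n => ?_
    rw [hg]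
    simp
  · have e2 : ∑' n : ℤ, f (n * δ + τ) = ∑' n : ℤ, 𝓕 g (n : ℝ) := by
      rw [e1, hP]
      refine tsum_congr fun n => ?_
      rw [show ((0 : ℝ) : UnitAddCircle) = 0 from rfl, fourier_eval_zero, mul_one]
    have e3 : (δ : ℂ) * 𝓕 g (((0 : ℕ) : ℤ) : ℝ) = ∫ t : ℝ, f t := by
      rw [hg, four f hδ τ]
      simp only [Nat.cast_zero, Int.cast_zero, mul_zero, zero_div, zero_mul, Complex.ofReal_zero,
        Complex.exp_zero, neg_zero, mul_one, one_mul]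
      rw [← mul_assoc, mul_inv_cancel₀ hδ', one_mul]
    rw [e2, ← tsum_mul_left, tsum_of_nat_of_neg_add_one hs1' hs2, hs1'.tsum_eq_zero_add, e3]
    have e4 : ∀ A B D : ℂ, A + B + D - A = B + D := fun A B D => by ring
    rw [e4]
    have h4 : ‖∑' m : ℕ, (δ : ℂ) * 𝓕 g (((m + 1 : ℕ) : ℤ) : ℝ)‖ ≤ ∑' m : ℕ, φ m :=
      tsum_of_norm_bounded hφ.hasSum hpos
    have h5 : ‖∑' m : ℕ, (δ : ℂ) * 𝓕 g ((-((m : ℤ) + 1) : ℤ) : ℝ)‖ ≤ ∑' m : ℕ, φ m :=
      tsum_of_norm_bounded hφ.hasSum hneg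
    refine (norm_add_le _ _).trans ?_
    linarith

end Pool.Agent.N30.AP
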