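import Pool.Agent.N30.AP.Stm
import Pool.Agent.N30.SR.L_SUM

/-!
# AP/SER: the integral on the line `Re s = 1 + η` (helper695)
-/

set_option autoImplicit false

open Complex MeasureTheory Set Filter Topology
open Pool.Agent.W188.QS (XX cp fp GG gg Zk PC)
open Pool.Agent.N30.SR (dK)
open Pool.Agent.N30.SR.LSUM (dK_nonneg dK_zero XX_cont norm_cpow_line summ)

namespace Pool.Agent.N30.AP.LSER

lemma hasSum_zeta (K : ℕ) (hK : 1 ≤ K) (η : ℝ) (hη : 0 < η) (t : ℝ) :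
    HasSum (fun n : ℕ => ((dK K n : ℝ) : ℂ) * (n : ℂ) ^ (-(((1 + η : ℝ) : ℂ) + (t : ℂ) * I)))
      (riemannZeta (((1 + η : ℝ) : ℂ) + (t : ℂ) * I) ^ K) := by
  obtain ⟨C₁, hC₁, -, -, hser⟩ := Pool.Agent.W32.QS.qs_div K hK
  set s : ℂ := ((1 + η : ℝ) : ℂ) + (t : ℂ) * I with hs
  have hre : s.re = 1 + η := by simp [hs]
  have h1 := (hser s (by rw [hre]; linarith)).2
  have hS : Summable (fun n : ℕ => ((dK K n : ℝ) : ℂ) * (n : ℂ) ^ (-s)) := by
    refine Summable.of_norm ((summ K hK η hη).congr (fun n => ?_))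
    rcases Nat.eq_zero_or_pos n with h | h
    · subst h
      rw [dK_zero K hK]
      simp
    · rw [norm_mul, Complex.norm_of_nonneg (dK_nonneg K n), hs, norm_cpow_line _ _ n h]
  have h2 : riemannZeta s ^ K = ∑' n : ℕ, ((dK K n : ℝ) : ℂ) * (n : ℂ) ^ (-s) := by
    rw [h1]
    refine tsum_congr fun n => ?_
    unfold dK
    rw [Complex.ofReal_natCast]
  rw [h2]
  exact hS.hasSum

/-- the weight on the line -/
noncomputable def Wt (b : ℕ) (c T Δ ν t : ℝ) : ℂ :=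
  XX ((c : ℂ) + (t : ℂ) * I) ^ b * GG T Δ ((c : ℂ) + (t : ℂ) * I) *
    cexp (-((((c : ℂ) + (t : ℂ) * I) - 1 / 2) * (ν : ℂ)))

lemma Wt_cont (b : ℕ) (c T Δ ν : ℝ) (hc : 0 < c) : Continuous (Wt b c T Δ ν) := by
  unfold Wt GG
  refine (((XX_cont c hc).pow b).mul ?_).mul ?_ <;> fun_prop

lemma hasSum_int (a b : ℕ) (hb : 1 ≤ b) (η : ℝ) (hη : 0 < η) (T Δ ν : ℝ) :
    HasSum (fun n : ℕ => ((dK (a + b) n : ℝ) : ℂ) * ∫ t in (T / 2)..(3 * T / 2),
        (n : ℂ) ^ (-(((1 + η : ℝ) : ℂ) + (t : ℂ) * I)) * Wt b (1 + η) T Δ ν t)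
      (∫ t in (T / 2)..(3 * T / 2), hs a b T Δ ν (((1 + η : ℝ) : ℂ) + (t : ℂ) * I)) := by
  have hK : 1 ≤ a + b := by omega
  have hc : (0 : ℝ) < 1 + η := by linarith
  obtain ⟨M, hM⟩ := (isCompact_uIcc (a := T / 2) (b := 3 * T / 2)).exists_bound_of_continuousOn
    (Wt_cont b (1 + η) T Δ ν hc).continuousOn
  have key := intervalIntegral.hasSum_integral_of_dominated_convergence (μ := volume) (a := T / 2) (b := 3 * T / 2)
    (F := fun (n : ℕ) (t : ℝ) => ((dK (a + b) n : ℝ) : ℂ) *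
      ((n : ℂ) ^ (-(((1 + η : ℝ) : ℂ) + (t : ℂ) * I)) * Wt b (1 + η) T Δ ν t))
    (f := fun t => hs a b T Δ ν (((1 + η : ℝ) : ℂ) + (t : ℂ) * I))
    (fun n _ => dK (a + b) n * (n : ℝ) ^ (-(1 + η)) * M) ?_ ?_ ?_ ?_ ?_
  · simpa only [intervalIntegral.integral_const_mul] using key
  · intro n
    rcases Nat.eq_zero_or_pos n with h | h
    · subst h
      rw [dK_zero _ hK]
      simp only [Complex.ofReal_zero, zero_mul]
      exact aestronglyMeasurable_const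
    · have hn0 : (n : ℂ) ≠ 0 := by exact_mod_cast (by omega : n ≠ 0)
      refine (Continuous.mul ?_ (Wt_cont b (1 + η) T Δ ν hc)).const_mul _ |>.aestronglyMeasurable
      exact Continuous.const_cpow (by fun_prop) (Or.inl hn0)
  · intro n
    refine Filter.Eventually.of_forall fun t ht => ?_
    have hMt := hM t (uIoc_subset_uIcc ht)
    rcases Nat.eq_zero_or_pos n with h | h
    · subst h
      rw [dK_zero _ hK]
      simp
    · rw [norm_mul, Complex.norm_of_nonneg (dK_nonneg _ n), norm_mul, norm_cpow_line _ _ n h]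
      have h1 : (n : ℝ) ^ (-(1 + η)) * ‖Wt b (1 + η) T Δ ν t‖ ≤
          (n : ℝ) ^ (-(1 + η)) * M := mul_le_mul_of_nonneg_left hMt (by positivity)
      calc dK (a + b) n * ((n : ℝ) ^ (-(1 + η)) * ‖Wt b (1 + η) T Δ ν t‖)
          ≤ dK (a + b) n * ((n : ℝ) ^ (-(1 + η)) * M) := mul_le_mul_of_nonneg_left h1 (dK_nonneg _ n)
        _ = dK (a + b) n * (n : ℝ) ^ (-(1 + η)) * M := by ring
  · exact Filter.Eventually.of_forall fun t _ => (summ _ hK η hη).mul_right M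
  · exact intervalIntegrable_const
  · refine Filter.Eventually.of_forall fun t _ => ?_
    have h1 := (hasSum_zeta (a + b) hK η hη t).mul_right (Wt b (1 + η) T Δ ν t)
    have h2 : hs a b T Δ ν (((1 + η : ℝ) : ℂ) + (t : ℂ) * I) =
        riemannZeta (((1 + η : ℝ) : ℂ) + (t : ℂ) * I) ^ (a + b) * Wt b (1 + η) T Δ ν t := by
      unfold hs Wt
      ring
    rw [h2]
    refine h1.congr_fun ?_
    intro n
    ring

lemma term_eq (b : ℕ) (c T Δ ν : ℝ) (n : ℕ) (hn : 1 ≤ n) :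
    (∫ t in (T / 2)..(3 * T / 2), (n : ℂ) ^ (-((c : ℂ) + (t : ℂ) * I)) * Wt b c T Δ ν t) =
      cexp ((ν / 2 : ℝ) : ℂ) * Vi b c T Δ (Real.log n + ν) := by
  unfold Vi
  rw [← intervalIntegral.integral_const_mul]
  refine intervalIntegral.integral_congr fun t _ => ?_
  have hn0 : (n : ℂ) ≠ 0 := by exact_mod_cast (by omega : n ≠ 0)
  have h1 : (n : ℂ) ^ (-((c : ℂ) + (t : ℂ) * I)) =
      cexp (((Real.log n : ℝ) : ℂ) * (-((c : ℂ) + (t : ℂ) * I))) := by
    rw [Complex.cpow_def_of_ne_zero hn0, Complex.natCast_log]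
  have h2 : cexp (((Real.log n : ℝ) : ℂ) * (-((c : ℂ) + (t : ℂ) * I))) *
      cexp (-((((c : ℂ) + (t : ℂ) * I) - 1 / 2) * (ν : ℂ))) =
      cexp ((ν / 2 : ℝ) : ℂ) * cexp (-(((c : ℂ) + (t : ℂ) * I) * ((Real.log n + ν : ℝ) : ℂ))) := by
    rw [← Complex.exp_add, ← Complex.exp_add]
    congr 1
    push_cast
    ring
  unfold Wt
  rw [h1]
  calc cexp (((Real.log n : ℝ) : ℂ) * (-((c : ℂ) + (t : ℂ) * I))) *
        (XX ((c : ℂ) + (t : ℂ) * I) ^ b * GG T Δ ((c : ℂ) + (t : ℂ) * I) *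
          cexp (-((((c : ℂ) + (t : ℂ) * I) - 1 / 2) * (ν : ℂ))))
      = XX ((c : ℂ) + (t : ℂ) * I) ^ b * GG T Δ ((c : ℂ) + (t : ℂ) * I) *
          (cexp (((Real.log n : ℝ) : ℂ) * (-((c : ℂ) + (t : ℂ) * I))) *
            cexp (-((((c : ℂ) + (t : ℂ) * I) - 1 / 2) * (ν : ℂ)))) := by ring
    _ = _ := by rw [h2]; ring

end Pool.Agent.N30.AP.LSER

namespace Pool.Agent.N30.AP

open LSER

theorem t_SER (hV : S_VDC) : S_SER := by
  intro a b hb η hη hη1
  obtain ⟨C, hC, hVb⟩ := hV b hb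
  have hK : 1 ≤ a + b := by omega
  set S : ℝ := ∑' n : ℕ, dK (a + b) n * (n : ℝ) ^ (-(1 + η)) with hS
  have hS0 : 0 ≤ S := tsum_nonneg fun n => mul_nonneg (dK_nonneg _ n) (by positivity)
  refine ⟨C * S, by positivity, fun T Δ ν hT hΔ hΔT => ?_⟩
  have hT0 : (0 : ℝ) < T := by linarith
  set Q : ℝ := √T * T ^ ((b : ℝ) * (1 / 2 + η)) * Real.exp (-((1 / 2 + η) * ν)) with hQ
  have h2 := (summ (a + b) hK η hη).hasSum.mul_right (C * Q)
  have h3 := (hasSum_int a b hb η hη T Δ ν).norm_le_of_bounded h2 ?_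
  · refine h3.trans (le_of_eq ?_)
    rw [← hS]
    ring
  · intro n
    rcases Nat.eq_zero_or_pos n with h | h
    · subst h
      rw [dK_zero _ hK]
      simp
    · have hn0 : (0 : ℝ) < n := by exact_mod_cast h
      rw [norm_mul, Complex.norm_of_nonneg (dK_nonneg _ n), mul_assoc]
      refine mul_le_mul_of_nonneg_left ?_ (dK_nonneg _ n)
      rw [term_eq b (1 + η) T Δ ν n h, norm_mul, ← Complex.ofReal_exp,
        Complex.norm_of_nonneg (Real.exp_nonneg _)]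
      have h4 := hVb (1 + η) T Δ (Real.log n + ν) (by linarith) (by linarith) hT hΔ hΔT
      refine (mul_le_mul_of_nonneg_left h4 (Real.exp_nonneg _)).trans (le_of_eq ?_)
      have h5 : Real.exp (ν / 2) * Real.exp (-((1 + η) * (Real.log n + ν))) =
          (n : ℝ) ^ (-(1 + η)) * Real.exp (-((1 / 2 + η) * ν)) := by
        rw [Real.rpow_def_of_pos hn0, ← Real.exp_add, ← Real.exp_add]
        congr 1
        ring
      have h6 : (b : ℝ) * (1 + η - 1 / 2) = (b : ℝ) * (1 / 2 + η) := by ring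
      rw [h6, hQ]
      calc Real.exp (ν / 2) * (C * (√T * T ^ ((b : ℝ) * (1 / 2 + η)) *
            Real.exp (-((1 + η) * (Real.log n + ν)))))
          = C * (√T * T ^ ((b : ℝ) * (1 / 2 + η))) *
            (Real.exp (ν / 2) * Real.exp (-((1 + η) * (Real.log n + ν)))) := by ring
        _ = _ := by rw [h5]; ring

end Pool.Agent.N30.AP
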