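import Pool.Agent.N30.AP.Stm
import Pool.Agent.H388LH.ZG

/-!
Project AP (helper30), STRIP: the shift to `Re s = 3/4` (helper712)
-/

set_option autoImplicit false

open Complex MeasureTheory Set Filter Topology
open Pool.Agent.W188.QS (XX cp fp GG gg Zk PC)

namespace Pool.Agent.N30.AP

namespace STRIP

/-- the integrand -/
noncomputable def hh (a b : ℕ) (T Δ ν : ℝ) (s : ℂ) : ℂ :=
  riemannZeta s ^ a * riemannZeta (1 - s) ^ b * GG T Δ s * cexp (-((s - 1 / 2) * (ν : ℂ)))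

/-- a polynomial times a Gaussian is bounded -/
lemma poly_gauss (N : ℕ) (u : ℝ) :
    (1 + |u|) ^ N * Real.exp (-u ^ 2) ≤ N.factorial * Real.exp 2 := by
  have h0 : 0 ≤ 1 + |u| := by positivity
  have h1 := Real.pow_div_factorial_le_exp (1 + |u|) h0 N
  rw [div_le_iff₀ (by positivity)] at h1
  calc (1 + |u|) ^ N * Real.exp (-u ^ 2) ≤ (Real.exp (1 + |u|) * N.factorial) * Real.exp (-u ^ 2) :=
        mul_le_mul_of_nonneg_right h1 (Real.exp_pos _).le
    _ = N.factorial * Real.exp (1 + |u| + -u ^ 2) := by rw [Real.exp_add _ (-u ^ 2)]; ring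
    _ ≤ N.factorial * Real.exp 2 := by
        refine mul_le_mul_of_nonneg_left (Real.exp_le_exp.2 ?_) (by positivity)
        have : u ^ 2 = |u| ^ 2 := (sq_abs u).symm
        nlinarith [sq_nonneg (|u| - 1 / 2)]

lemma beta (M : ℕ) {T Δ : ℝ} (hΔ : 1 ≤ Δ) (hT : Δ ≤ T) (t : ℝ) :
    (1 + |t|) ^ M * Real.exp (-((t - T) / Δ) ^ 2) ≤
      (3 * T) ^ M * ((M + 2).factorial * Real.exp 2) * (1 + ((t - T) / Δ) ^ 2)⁻¹ := by
  obtain ⟨u, hu⟩ : ∃ u, u = (t - T) / Δ := ⟨_, rfl⟩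
  have hΔ0 : 0 < Δ := by linarith
  have hT0 : 0 < T := by linarith
  have ht : t = T + Δ * u := by
    rw [hu]
    field_simp
    ring
  rw [← hu]
  have h1 : 1 + |t| ≤ 3 * T * (1 + |u|) := by
    have h2 : |t| ≤ T + Δ * |u| := by
      rw [ht]
      calc |T + Δ * u| ≤ |T| + |Δ * u| := abs_add_le _ _
        _ = T + Δ * |u| := by rw [abs_of_pos hT0, abs_mul, abs_of_pos hΔ0]
    have h3 : Δ * |u| ≤ T * |u| := mul_le_mul_of_nonneg_right hT (abs_nonneg u)
    have h4 : 0 ≤ T * |u| := by positivity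
    linarith
  have h2 : (1 + |t|) ^ M ≤ (3 * T) ^ M * (1 + |u|) ^ M := by
    rw [← mul_pow]
    exact pow_le_pow_left₀ (by positivity) h1 _
  have h3 : 1 + u ^ 2 ≤ (1 + |u|) ^ 2 := by
    have : u ^ 2 = |u| ^ 2 := (sq_abs u).symm
    nlinarith [abs_nonneg u]
  have h4 : 0 < 1 + u ^ 2 := by positivity
  rw [← div_eq_mul_inv, le_div_iff₀ h4]
  have h5 := poly_gauss (M + 2) u
  calc (1 + |t|) ^ M * Real.exp (-u ^ 2) * (1 + u ^ 2)
      ≤ ((3 * T) ^ M * (1 + |u|) ^ M) * Real.exp (-u ^ 2) * (1 + |u|) ^ 2 := by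
        refine mul_le_mul ?_ h3 h4.le (by positivity)
        exact mul_le_mul_of_nonneg_right h2 (Real.exp_pos _).le
    _ = (3 * T) ^ M * ((1 + |u|) ^ (M + 2) * Real.exp (-u ^ 2)) := by ring
    _ ≤ (3 * T) ^ M * ((M + 2).factorial * Real.exp 2) :=
        mul_le_mul_of_nonneg_left h5 (by positivity)

lemma GG_norm {T Δ x t : ℝ} (hΔ : 1 ≤ Δ) (hx : 1 / 2 ≤ x) (hx' : x ≤ 3 / 4) :
    ‖GG T Δ ((x : ℂ) + (t : ℂ) * I)‖ ≤ Real.exp 1 * Real.exp (-((t - T) / Δ) ^ 2) := by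
  unfold GG
  rw [Complex.norm_exp, ← Real.exp_add]
  refine Real.exp_le_exp.2 ?_
  have hΔ0 : 0 < Δ := by linarith
  have e : ((x : ℂ) + (t : ℂ) * I - cp T) / (Δ : ℂ) =
      (((x - 1 / 2) / Δ : ℝ) : ℂ) + (((t - T) / Δ : ℝ) : ℂ) * I := by
    have : (Δ : ℂ) ≠ 0 := by exact_mod_cast hΔ0.ne'
    unfold cp
    push_cast
    field_simp
    ring
  have e2 : ((((x - 1 / 2) / Δ : ℝ) : ℂ) + (((t - T) / Δ : ℝ) : ℂ) * I) ^ 2 =
      ((((x - 1 / 2) / Δ) ^ 2 - ((t - T) / Δ) ^ 2 : ℝ) : ℂ) +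
        ((2 * ((x - 1 / 2) / Δ) * ((t - T) / Δ) : ℝ) : ℂ) * I := by
    push_cast
    ring_nf
    rw [I_sq]
    ring
  rw [e, e2]
  have e3 : ((((((x - 1 / 2) / Δ) ^ 2 - ((t - T) / Δ) ^ 2 : ℝ) : ℂ) +
      ((2 * ((x - 1 / 2) / Δ) * ((t - T) / Δ) : ℝ) : ℂ) * I)).re =
      ((x - 1 / 2) / Δ) ^ 2 - ((t - T) / Δ) ^ 2 := by
    rw [Complex.add_re, Complex.ofReal_re, Complex.re_ofReal_mul, Complex.I_re]
    ring
  rw [e3]
  have h1 : (x - 1 / 2) / Δ ≤ 1 := by
    rw [div_le_one hΔ0]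
    linarith
  have h2 : 0 ≤ (x - 1 / 2) / Δ := div_nonneg (by linarith) hΔ0.le
  have h3 : ((x - 1 / 2) / Δ) ^ 2 ≤ 1 := pow_le_one₀ h2 h1
  linarith

/-- the bound for the integrand -/
lemma hh_bound (a b : ℕ) {T Δ ν x t : ℝ} (hΔ : 1 ≤ Δ) (hT : Δ ≤ T) (hx : 1 / 2 ≤ x) (hx' : x ≤ 3 / 4) :
    ‖hh a b T Δ ν ((x : ℂ) + (t : ℂ) * I)‖ ≤
      (9 ^ (a + b) * Real.exp 1 * ((3 * T) ^ (a + b) * ((a + b + 2).factorial * Real.exp 2)) *
        (1 + ((t - T) / Δ) ^ 2)⁻¹) * Real.exp (-((x - 1 / 2) * ν)) := by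
  obtain ⟨s, hs⟩ : ∃ s, s = (x : ℂ) + (t : ℂ) * I := ⟨_, rfl⟩
  have hre : s.re = x := by rw [hs]; simp
  have him : s.im = t := by rw [hs]; simp
  have h1 : ‖riemannZeta s‖ ≤ 9 * (1 + |t|) := by
    have := Pool.Agent.H388LH.zeta_growth' (s := s) (by rw [hre]; linarith) (by rw [hre]; linarith)
    rwa [him] at this
  have h2 : ‖riemannZeta (1 - s)‖ ≤ 9 * (1 + |t|) := by
    have := Pool.Agent.H388LH.zeta_growth' (s := 1 - s) (by rw [Complex.sub_re, hre]; norm_num; linarith)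
      (by rw [Complex.sub_re, hre]; norm_num; linarith)
    rw [Complex.sub_im, him, Complex.one_im, zero_sub, abs_neg] at this
    exact this
  have h3 : ‖GG T Δ s‖ ≤ Real.exp 1 * Real.exp (-((t - T) / Δ) ^ 2) := by
    rw [hs]
    exact GG_norm hΔ hx hx'
  have h4 : ‖cexp (-((s - 1 / 2) * (ν : ℂ)))‖ = Real.exp (-((x - 1 / 2) * ν)) := by
    rw [Complex.norm_exp]
    congr 1
    rw [Complex.neg_re, mul_comm, Complex.re_ofReal_mul, Complex.sub_re, hre]
    norm_num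
    ring
  rw [← hs]
  unfold hh
  rw [norm_mul, norm_mul, norm_mul, norm_pow, norm_pow, h4]
  refine mul_le_mul_of_nonneg_right ?_ (Real.exp_pos _).le
  have h5 : ‖riemannZeta s‖ ^ a * ‖riemannZeta (1 - s)‖ ^ b ≤ 9 ^ (a + b) * (1 + |t|) ^ (a + b) := by
    rw [← mul_pow, pow_add]
    exact mul_le_mul (pow_le_pow_left₀ (norm_nonneg _) h1 _) (pow_le_pow_left₀ (norm_nonneg _) h2 _)
      (by positivity) (by positivity)
  have h6 := beta (a + b) hΔ hT t
  calc ‖riemannZeta s‖ ^ a * ‖riemannZeta (1 - s)‖ ^ b * ‖GG T Δ s‖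
      ≤ (9 ^ (a + b) * (1 + |t|) ^ (a + b)) * (Real.exp 1 * Real.exp (-((t - T) / Δ) ^ 2)) :=
        mul_le_mul h5 h3 (norm_nonneg _) (by positivity)
    _ = 9 ^ (a + b) * Real.exp 1 * ((1 + |t|) ^ (a + b) * Real.exp (-((t - T) / Δ) ^ 2)) := by ring
    _ ≤ 9 ^ (a + b) * Real.exp 1 * ((3 * T) ^ (a + b) * ((a + b + 2).factorial * Real.exp 2) *
          (1 + ((t - T) / Δ) ^ 2)⁻¹) := mul_le_mul_of_nonneg_left h6 (by positivity)
    _ = _ := by ring

lemma cp_eq (t : ℝ) : cp t = (((1 / 2 : ℝ) : ℝ) : ℂ) + (t : ℂ) * I := by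
  unfold cp
  push_cast
  ring

lemma GG_cp (T Δ t : ℝ) : GG T Δ (cp t) = ((gg T Δ t : ℝ) : ℂ) := by
  unfold GG gg cp
  push_cast
  congr 1
  have e : ((1 / 2 + (t : ℂ) * I - (1 / 2 + (T : ℂ) * I)) / (Δ : ℂ)) = ((t : ℂ) - T) / Δ * I := by
    ring
  rw [e, mul_pow, I_sq]
  ring

lemma hh_cp (a b : ℕ) (T Δ ν t : ℝ) :
    hh a b T Δ ν (cp t) = zg a b T Δ t * cexp (-(((ν * t : ℝ) : ℂ) * I)) := by
  unfold hh zg zab
  have e1 : riemannZeta (1 - cp t) = (starRingEnd ℂ) (riemannZeta (cp t)) := by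
    rw [← riemannZeta_conj]
    congr 1
    unfold cp
    simp only [map_add, map_mul, conj_ofReal, conj_I, map_div₀, map_one, map_ofNat]
    ring
  have e2 : (cp t - 1 / 2) * (ν : ℂ) = ((ν * t : ℝ) : ℂ) * I := by
    unfold cp
    push_cast
    ring
  rw [e1, e2, GG_cp]

lemma cp_cont : Continuous cp := by
  unfold cp
  fun_prop

lemma zeta_cp_cont : Continuous fun t : ℝ => riemannZeta (cp t) := by
  rw [continuous_iff_continuousAt]
  intro t
  have h1 : cp t ≠ 1 := by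
    intro h
    have := congrArg Complex.re h
    rw [cp_eq] at this
    simp at this
  exact (differentiableAt_riemannZeta h1).continuousAt.comp cp_cont.continuousAt

lemma zg_cont (a b : ℕ) (T Δ : ℝ) : Continuous (zg a b T Δ) := by
  unfold zg zab
  refine Continuous.mul (Continuous.mul (zeta_cp_cont.pow a)
    ((Complex.continuous_conj.comp zeta_cp_cont).pow b)) ?_
  refine Complex.continuous_ofReal.comp ?_
  unfold gg
  fun_prop

lemma hh_diff (a b : ℕ) (T Δ ν : ℝ) {s : ℂ} (h0 : s ≠ 0) (h1 : s ≠ 1) :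
    DifferentiableAt ℂ (hh a b T Δ ν) s := by
  unfold hh
  have d1 : DifferentiableAt ℂ riemannZeta s := differentiableAt_riemannZeta h1
  have d2 : DifferentiableAt ℂ (fun s => riemannZeta (1 - s)) s := by
    have h2 : (1 : ℂ) - s ≠ 1 := by
      intro h
      apply h0
      linear_combination -h
    exact (differentiableAt_riemannZeta h2).comp s ((differentiableAt_const _).sub differentiableAt_id)
  have d3 : DifferentiableAt ℂ (GG T Δ) s := by
    unfold GG
    fun_prop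
  have d4 : DifferentiableAt ℂ (fun s : ℂ => cexp (-((s - 1 / 2) * (ν : ℂ)))) s := by
    fun_prop
  exact (((d1.pow a).mul (d2.pow b)).mul d3).mul d4

end STRIP

open STRIP

/-- leaf STRIP -/
theorem t_STRIP : S_STRIP := by
  intro a b
  obtain ⟨K, hK⟩ : ∃ K : ℝ, K = 9 ^ (a + b) * Real.exp 1 * (3 ^ (a + b) *
      ((a + b + 2).factorial * Real.exp 2)) * Real.pi := ⟨_, rfl⟩
  have hK0 : 0 < K := by
    rw [hK]
    have := Real.pi_pos
    positivity
  refine ⟨K + (a + b + 1), by positivity, fun T Δ hΔ hT => ?_⟩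
  have hΔ0 : 0 < Δ := by linarith
  have hT1 : 1 ≤ T := by linarith
  have hcont := zg_cont a b T Δ
  -- the bound on the critical line
  obtain ⟨D, hD⟩ : ∃ D : ℝ, ∀ t : ℝ, ‖zg a b T Δ t‖ ≤ D / (1 + t ^ 2) := by
    refine ⟨9 ^ (a + b) * ((3 * T) ^ (a + b + 2) * ((a + b + 4).factorial * Real.exp 2)), fun t => ?_⟩
    have h1 : ‖riemannZeta (cp t)‖ ≤ 9 * (1 + |t|) := by
      have hre : (cp t).re = 1 / 2 := by rw [cp_eq]; simp
      have him : (cp t).im = t := by rw [cp_eq]; simp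
      have := Pool.Agent.H388LH.zeta_growth' (s := cp t) (by rw [hre]; norm_num)
        (by rw [hre]; norm_num)
      rwa [him] at this
    have h2 : ‖zg a b T Δ t‖ ≤ 9 ^ (a + b) * (1 + |t|) ^ (a + b) * Real.exp (-((t - T) / Δ) ^ 2) := by
      unfold zg zab
      rw [norm_mul, norm_mul, norm_pow, norm_pow, RCLike.norm_conj, Complex.norm_real,
        Real.norm_eq_abs]
      have e : |gg T Δ t| = Real.exp (-((t - T) / Δ) ^ 2) := by
        unfold gg
        exact abs_of_pos (Real.exp_pos _)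
      rw [e]
      refine mul_le_mul_of_nonneg_right ?_ (Real.exp_pos _).le
      rw [← mul_pow, pow_add]
      exact mul_le_mul (pow_le_pow_left₀ (norm_nonneg _) h1 _) (pow_le_pow_left₀ (norm_nonneg _) h1 _)
        (by positivity) (by positivity)
    have h3 := beta (a + b + 2) hΔ hT t
    have h4 : (1 : ℝ) + t ^ 2 ≤ (1 + |t|) ^ 2 := by
      have : t ^ 2 = |t| ^ 2 := (sq_abs t).symm
      nlinarith [abs_nonneg t]
    have h5 : 0 < 1 + t ^ 2 := by positivity
    rw [le_div_iff₀ h5]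
    have h6 : (1 + ((t - T) / Δ) ^ 2)⁻¹ ≤ 1 := inv_le_one_of_one_le₀ (by
      have : 0 ≤ ((t - T) / Δ) ^ 2 := sq_nonneg _
      linarith)
    calc ‖zg a b T Δ t‖ * (1 + t ^ 2)
        ≤ (9 ^ (a + b) * (1 + |t|) ^ (a + b) * Real.exp (-((t - T) / Δ) ^ 2)) * (1 + |t|) ^ 2 :=
          mul_le_mul h2 h4 h5.le (by positivity)
      _ = 9 ^ (a + b) * ((1 + |t|) ^ (a + b + 2) * Real.exp (-((t - T) / Δ) ^ 2)) := by ring
      _ ≤ 9 ^ (a + b) * ((3 * T) ^ (a + b + 2) * ((a + b + 2 + 2).factorial * Real.exp 2) *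
          (1 + ((t - T) / Δ) ^ 2)⁻¹) := mul_le_mul_of_nonneg_left h3 (by positivity)
      _ ≤ 9 ^ (a + b) * ((3 * T) ^ (a + b + 2) * ((a + b + 2 + 2).factorial * Real.exp 2) * 1) := by
          refine mul_le_mul_of_nonneg_left ?_ (by positivity)
          exact mul_le_mul_of_nonneg_left h6 (by positivity)
      _ = _ := by rw [mul_one]
  have hint : Integrable (zg a b T Δ) := by
    refine Integrable.mono' (g := fun t : ℝ => D * (1 + t ^ 2)⁻¹)
      (integrable_inv_one_add_sq.const_mul D) hcont.aestronglyMeasurable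
      (Eventually.of_forall fun t => ?_)
    rw [← div_eq_mul_inv]
    exact hD t
  refine ⟨hcont, hint, ⟨D, hD⟩, fun ν hν => ?_⟩
  -- the majorant
  obtain ⟨E, hE⟩ : ∃ E : ℝ, E = 9 ^ (a + b) * Real.exp 1 *
      ((3 * T) ^ (a + b) * ((a + b + 2).factorial * Real.exp 2)) := ⟨_, rfl⟩
  have hE0 : 0 < E := by rw [hE]; positivity
  obtain ⟨β, hβ⟩ : ∃ β : ℝ → ℝ, β = fun t => E * (1 + ((t - T) / Δ) ^ 2)⁻¹ := ⟨_, rfl⟩
  have hβ0 : ∀ t, 0 ≤ β t := by
    intro t
    rw [hβ]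
    positivity
  have hβi : Integrable β := by
    rw [hβ]
    exact (((integrable_inv_one_add_sq.comp_div hΔ0.ne').comp_sub_right T)).const_mul E
  have hβI : ∫ t, β t = E * (Δ * Real.pi) := by
    rw [hβ, integral_const_mul]
    congr 1
    have e1 := integral_sub_right_eq_self (μ := (volume : Measure ℝ))
      (fun t : ℝ => (1 + (t / Δ) ^ 2)⁻¹) T
    rw [e1]
    have e2 := Measure.integral_comp_div (fun t : ℝ => (1 + t ^ 2)⁻¹) Δ
    rw [e2, integral_univ_inv_one_add_sq, abs_of_pos hΔ0, smul_eq_mul]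
  have hβtop : Tendsto β atTop (𝓝 0) := by
    rw [hβ]
    have h1 : Tendsto (fun t : ℝ => (t - T) / Δ) atTop atTop :=
      (tendsto_atTop_add_const_right _ (-T) tendsto_id).atTop_div_const hΔ0
    have h2 : Tendsto (fun t : ℝ => 1 + ((t - T) / Δ) ^ 2) atTop atTop :=
      tendsto_atTop_add_const_left _ _ ((tendsto_pow_atTop two_ne_zero).comp h1)
    simpa using h2.inv_tendsto_atTop.const_mul E
  have hβbot : Tendsto (fun U : ℝ => β (-U)) atTop (𝓝 0) := by
    rw [hβ]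
    have h1 : Tendsto (fun t : ℝ => (t + T) / Δ) atTop atTop :=
      (tendsto_atTop_add_const_right _ T tendsto_id).atTop_div_const hΔ0
    have h2 : Tendsto (fun t : ℝ => 1 + ((t + T) / Δ) ^ 2) atTop atTop :=
      tendsto_atTop_add_const_left _ _ ((tendsto_pow_atTop two_ne_zero).comp h1)
    have h3 := h2.inv_tendsto_atTop.const_mul E
    rw [mul_zero] at h3
    refine h3.congr fun t => ?_
    have e : ((-t - T) / Δ) ^ 2 = ((t + T) / Δ) ^ 2 := by ring
    simp only [Pi.inv_apply]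
    rw [e]
  have hbd : ∀ x t : ℝ, 1 / 2 ≤ x → x ≤ 3 / 4 → ‖hh a b T Δ ν ((x : ℂ) + (t : ℂ) * I)‖ ≤
      β t * Real.exp (-((x - 1 / 2) * ν)) := by
    intro x t hx hx'
    rw [hβ]
    simp only
    rw [hE]
    exact hh_bound a b hΔ hT hx hx'
  -- the Fourier transform is the integral of `hh`
  have hFT : FT a b T Δ ν = ∫ t : ℝ, hh a b T Δ ν (cp t) := by
    unfold FT
    refine integral_congr_ae (Eventually.of_forall fun t => ?_)
    exact (hh_cp a b T Δ ν t).symm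
  have hinth : Integrable fun t : ℝ => hh a b T Δ ν (cp t) := by
    refine Integrable.mono' hint.norm ?_ (Eventually.of_forall fun t => ?_)
    · have e : (fun t : ℝ => hh a b T Δ ν (cp t)) =
          fun t => zg a b T Δ t * cexp (-(((ν * t : ℝ) : ℂ) * I)) :=
        funext fun t => hh_cp a b T Δ ν t
      rw [e]
      refine Continuous.aestronglyMeasurable (hcont.mul ?_)
      fun_prop
    · rw [hh_cp, norm_mul]
      have e : -(((ν * t : ℝ) : ℂ) * I) = ((-(ν * t) : ℝ) : ℂ) * I := by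
        push_cast
        ring
      rw [e, Complex.norm_exp_ofReal_mul_I, mul_one]
  have hlim := intervalIntegral_tendsto_integral hinth tendsto_neg_atTop_atBot tendsto_id
  -- Cauchy's theorem
  have hC : ∀ U : ℝ, 0 ≤ U → ‖∫ t in (-U)..U, hh a b T Δ ν (cp t)‖ ≤
      Real.exp (-ν / 4) * (E * (Δ * Real.pi)) + β (-U) + β U := by
    intro U hU
    have hc := Complex.integral_boundary_rect_eq_zero_of_differentiableOn (hh a b T Δ ν)
      (⟨1 / 2, -U⟩ : ℂ) (⟨3 / 4, U⟩ : ℂ) (by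
        intro s hs
        have hs1 := hs.1
        rw [mem_preimage, uIcc_of_le (by norm_num)] at hs1
        refine (hh_diff a b T Δ ν ?_ ?_).differentiableWithinAt
        · intro h
          rw [h, Complex.zero_re] at hs1
          have := hs1.1
          norm_num at this
        · intro h
          rw [h, Complex.one_re] at hs1
          have := hs1.2
          norm_num at this)
    simp only at hc
    have e1 : (∫ y in (-U)..U, hh a b T Δ ν (((1 / 2 : ℝ) : ℂ) + (y : ℂ) * I)) =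
        ∫ t in (-U)..U, hh a b T Δ ν (cp t) := by
      refine intervalIntegral.integral_congr fun t _ => ?_
      rw [cp_eq]
    rw [e1] at hc
    have e2 : ‖∫ y in (-U)..U, hh a b T Δ ν (((3 / 4 : ℝ) : ℂ) + (y : ℂ) * I)‖ ≤
        Real.exp (-ν / 4) * (E * (Δ * Real.pi)) := by
      have h1 : ‖∫ y in (-U)..U, hh a b T Δ ν (((3 / 4 : ℝ) : ℂ) + (y : ℂ) * I)‖ ≤
          ∫ y in (-U)..U, β y * Real.exp (-ν / 4) := by
        refine intervalIntegral.norm_integral_le_of_norm_le (by linarith)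
          (Eventually.of_forall fun t _ => ?_) (hβi.mul_const _).intervalIntegrable
        have h2 := hbd (3 / 4) t (by norm_num) le_rfl
        have e : -(((3 : ℝ) / 4 - 1 / 2) * ν) = -ν / 4 := by ring
        rw [e] at h2
        exact h2
      refine h1.trans ?_
      rw [intervalIntegral.integral_mul_const, mul_comm]
      refine mul_le_mul_of_nonneg_left ?_ (Real.exp_pos _).le
      rw [← hβI, intervalIntegral.integral_of_le (by linarith)]
      exact setIntegral_le_integral hβi (Eventually.of_forall hβ0)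
    have hor : ∀ y : ℝ, ‖∫ x in (1 / 2 : ℝ)..(3 / 4), hh a b T Δ ν ((x : ℂ) + (y : ℂ) * I)‖ ≤
        β y := by
      intro y
      have h1 := intervalIntegral.norm_integral_le_of_norm_le_const (a := (1 / 2 : ℝ)) (b := 3 / 4)
        (C := β y) (f := fun x : ℝ => hh a b T Δ ν ((x : ℂ) + (y : ℂ) * I)) (by
          intro x hx
          rw [uIoc_of_le (by norm_num)] at hx
          refine (hbd x y hx.1.le hx.2).trans ?_
          have h2 : Real.exp (-((x - 1 / 2) * ν)) ≤ 1 := by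
            rw [Real.exp_le_one_iff]
            have : 0 ≤ (x - 1 / 2) * ν := mul_nonneg (by linarith [hx.1]) hν
            linarith
          calc β y * Real.exp (-((x - 1 / 2) * ν)) ≤ β y * 1 := mul_le_mul_of_nonneg_left h2 (hβ0 y)
            _ = β y := mul_one _)
      refine h1.trans ?_
      have h2 : |(3 : ℝ) / 4 - 1 / 2| ≤ 1 := by norm_num [abs_le]
      calc β y * |(3 : ℝ) / 4 - 1 / 2| ≤ β y * 1 := mul_le_mul_of_nonneg_left h2 (hβ0 y)
        _ = β y := mul_one _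
    have h1 := hor (-U)
    have h2 := hor U
    have e3 : I • (∫ t in (-U)..U, hh a b T Δ ν (cp t)) =
        (∫ x in (1 / 2 : ℝ)..(3 / 4), hh a b T Δ ν ((x : ℂ) + ((-U : ℝ) : ℂ) * I)) -
        (∫ x in (1 / 2 : ℝ)..(3 / 4), hh a b T Δ ν ((x : ℂ) + ((U : ℝ) : ℂ) * I)) +
        I • ∫ y in (-U)..U, hh a b T Δ ν (((3 / 4 : ℝ) : ℂ) + (y : ℂ) * I) := by
      linear_combination -hc
    have e4 : ‖∫ t in (-U)..U, hh a b T Δ ν (cp t)‖ = ‖I • (∫ t in (-U)..U, hh a b T Δ ν (cp t))‖ := by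
      rw [norm_smul, Complex.norm_I, one_mul]
    rw [e4, e3]
    refine (norm_add_le _ _).trans ?_
    refine (add_le_add (norm_sub_le _ _) le_rfl).trans ?_
    rw [norm_smul, Complex.norm_I, one_mul]
    linarith
  have hfin : ‖FT a b T Δ ν‖ ≤ Real.exp (-ν / 4) * (E * (Δ * Real.pi)) := by
    rw [hFT]
    have h1 : Tendsto (fun U : ℝ => Real.exp (-ν / 4) * (E * (Δ * Real.pi)) + β (-U) + β U) atTop
        (𝓝 (Real.exp (-ν / 4) * (E * (Δ * Real.pi)) + 0 + 0)) :=
      (tendsto_const_nhds.add hβbot).add hβtop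
    rw [add_zero, add_zero] at h1
    refine le_of_tendsto_of_tendsto hlim.norm h1 ?_
    filter_upwards [eventually_ge_atTop 0] with U hU
    exact hC U hU
  refine hfin.trans ?_
  rw [mul_comm]
  refine mul_le_mul_of_nonneg_right ?_ (Real.exp_pos _).le
  have h1 : E * (Δ * Real.pi) ≤ K * T ^ (((a + b + 1 : ℕ)) : ℝ) := by
    have e : E * (Δ * Real.pi) = K * T ^ (a + b) * Δ := by
      rw [hE, hK, mul_pow]
      ring
    rw [e, Real.rpow_natCast, pow_succ, ← mul_assoc]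
    exact mul_le_mul_of_nonneg_left hT (by positivity)
  refine h1.trans ?_
  refine mul_le_mul ?_ ?_ (by positivity) (by positivity)
  · have : (0 : ℝ) ≤ (a : ℝ) + b + 1 := by positivity
    linarith
  · refine Real.rpow_le_rpow_of_exponent_le hT1 ?_
    push_cast
    linarith

end Pool.Agent.N30.AP
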