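import Pool.Agent.N30.AP.Stm
import Pool.Agent.W723.QS.Edge
import Pool.Agent.W338.QS.Line
import Pool.Agent.W22.QS.Basic

set_option autoImplicit false

/-!
# Project AP (helper30), leaf TRUNC (helper736): the tails, and the shift to the line `Re s = c`
-/

open Complex MeasureTheory Set Filter Topology
open Pool.Agent.W188.QS

namespace Pool.Agent.N30.AP

namespace TRUNCaux

/-- the integrand on the critical line -/
lemma zg_eq (a b : ℕ) (T Δ ν t : ℝ) (ht : 1 ≤ t) :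
    zg a b T Δ t * cexp (-(((ν * t : ℝ) : ℂ) * I)) = hs a b T Δ ν (cp t) := by
  obtain ⟨-, -, h3, -, h5, -⟩ := Pool.Agent.W338.QS.qs_line
  unfold zg zab hs
  rw [h3 t ht, h5 T Δ t]
  have e : (cp t - 1 / 2) * (ν : ℂ) = ((ν * t : ℝ) : ℂ) * I := by
    unfold cp; push_cast; ring
  rw [e, mul_pow, pow_add]
  ring

lemma hs_diff (a b : ℕ) (T Δ ν : ℝ) {s : ℂ} (hs1 : 1 ≤ s.im) :
    DifferentiableAt ℂ (hs a b T Δ ν) s := by
  obtain ⟨h1, -, h3, -⟩ := Pool.Agent.W22.QS.qs_basic s hs1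
  unfold hs GG
  refine (((h3.pow _).mul (h1.pow _)).mul ?_).mul ?_
  · fun_prop
  · fun_prop

/-- Cauchy's theorem in the rectangle -/
lemma rect (a b : ℕ) (T Δ ν c : ℝ) {y0 y1 : ℝ} (hy : 1 ≤ y0) (hyy : y0 ≤ y1) :
    ‖(∫ t in y0..y1, hs a b T Δ ν (cp t)) -
      ∫ t in y0..y1, hs a b T Δ ν ((c : ℂ) + (t : ℂ) * I)‖ ≤
      ‖∫ x in (1 / 2 : ℝ)..c, hs a b T Δ ν (⟨x, y0⟩ : ℂ)‖ +
        ‖∫ x in (1 / 2 : ℝ)..c, hs a b T Δ ν (⟨x, y1⟩ : ℂ)‖ := by
  have hrect := Complex.integral_boundary_rect_eq_zero_of_differentiableOn (hs a b T Δ ν)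
    (⟨1 / 2, y0⟩ : ℂ) (⟨c, y1⟩ : ℂ) (by
      intro s hs'
      rw [mem_reProdIm] at hs'
      simp only at hs'
      have him : s.im ∈ Icc y0 y1 := by rw [← uIcc_of_le hyy]; exact hs'.2
      exact (hs_diff a b T Δ ν (by linarith [him.1])).differentiableWithinAt)
  simp only [smul_eq_mul] at hrect
  have e1 : ∀ y : ℝ, (((1 / 2 : ℝ) : ℂ) + y * I) = cp y := by intro y; unfold cp; push_cast; ring
  have e3 : ∀ x y : ℝ, (⟨x, y⟩ : ℂ) = ((x : ℂ) + (y : ℂ) * I) := by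
    intro x y; apply Complex.ext <;> simp
  simp only [e1] at hrect
  simp only [e3]
  have hI : I * I = -1 := Complex.I_mul_I
  have e4 : (∫ t in y0..y1, hs a b T Δ ν (cp t)) -
      (∫ t in y0..y1, hs a b T Δ ν ((c : ℂ) + (t : ℂ) * I)) =
      -(I * (∫ x in (1 / 2 : ℝ)..c, hs a b T Δ ν ((x : ℂ) + (y0 : ℂ) * I))) +
        I * (∫ x in (1 / 2 : ℝ)..c, hs a b T Δ ν ((x : ℂ) + (y1 : ℂ) * I)) := by
    linear_combination I * hrect - ((∫ t in y0..y1, hs a b T Δ ν ((c : ℂ) + (t : ℂ) * I)) -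
      ∫ t in y0..y1, hs a b T Δ ν (cp t)) * hI
  rw [e4]
  refine (norm_add_le _ _).trans ?_
  rw [norm_neg, norm_mul, norm_mul, Complex.norm_I, one_mul, one_mul]

lemma zg_bound (a b : ℕ) (T Δ t : ℝ) :
    ‖zg a b T Δ t‖ ≤ (9 * (1 + |t|)) ^ (a + b) * Real.exp (-((t - T) / Δ) ^ 2) := by
  have h1 : ‖riemannZeta (cp t)‖ ≤ 9 * (1 + |t|) := by
    have h := Pool.Agent.H388LH.zeta_growth' (s := cp t) (by simp [cp]; norm_num)
      (by simp [cp]; norm_num)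
    have e : (cp t).im = t := by simp [cp]
    rwa [e] at h
  unfold zg zab gg
  rw [norm_mul, norm_mul, norm_pow, norm_pow, RCLike.norm_conj, ← pow_add, Complex.norm_real,
    Real.norm_of_nonneg (Real.exp_pos _).le]
  gcongr

/-- the tails, pointwise -/
lemma tail_pt (K : ℕ) (M : ℝ) {B T Δ t : ℝ} (hB : 2 ≤ B) (hB2 : 8 * (K + 3 + |M|) ≤ B ^ 2)
    (hT : 100 ≤ T) (hT2 : 12 * (72 ^ (K + 2) * ((K + 2).factorial : ℝ)) ≤ T) (hΔ : 1 ≤ Δ)
    (hBT : B * Δ * √(Real.log T) ≤ T) (ht : T / 2 ≤ |t - T|) :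
    (9 * (1 + |t|)) ^ K * Real.exp (-((t - T) / Δ) ^ 2) ≤ T ^ (-M) / 12 * (1 + t ^ 2)⁻¹ := by
  have hT0 : 0 < T := by linarith
  have hΔ0 : 0 < Δ := by linarith
  have hL : 1 ≤ Real.log T := by
    rw [Real.le_log_iff_exp_le hT0]
    have := Real.exp_one_lt_d9
    linarith
  set L := Real.log T with hLdef
  have hs1 : 1 ≤ √L := Real.one_le_sqrt.2 hL
  have hss : √L ^ 2 = L := Real.sq_sqrt (by linarith)
  obtain ⟨w, hw⟩ : ∃ w, w = |t - T| / Δ := ⟨_, rfl⟩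
  have hwΔ : |t - T| = Δ * w := by rw [hw]; field_simp
  have hwB : B * √L / 2 ≤ w := by
    rw [hw, le_div_iff₀ hΔ0]
    calc B * √L / 2 * Δ = (B * Δ * √L) / 2 := by ring
      _ ≤ T / 2 := by linarith
      _ ≤ _ := ht
  have hBs : 2 ≤ B * √L := by nlinarith
  have hw1 : 1 ≤ w := by linarith
  have hwsq : B ^ 2 * L / 4 ≤ w ^ 2 := by
    calc B ^ 2 * L / 4 = (B * √L / 2) ^ 2 := by
          rw [div_pow, mul_pow, hss]; ring
      _ ≤ w ^ 2 := pow_le_pow_left₀ (by positivity) hwB 2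
  have hΔT : Δ ≤ T := by
    calc Δ = Δ * 1 := (mul_one _).symm
      _ ≤ Δ * (B * √L) := by gcongr; linarith
      _ = B * Δ * √L := by ring
      _ ≤ T := hBT
  have habs : |t| ≤ |t - T| + T := by
    calc |t| = |(t - T) + T| := by ring_nf
      _ ≤ |t - T| + |T| := abs_add_le _ _
      _ = _ := by rw [abs_of_pos hT0]
  have h1t : 1 + |t| ≤ 4 * (T * w) := by
    have h1 : 1 + |t| ≤ 4 * |t - T| := by linarith
    have h2 : Δ * w ≤ T * w := by gcongr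
    rw [hwΔ] at h1
    linarith
  have he : -((t - T) / Δ) ^ 2 = -w ^ 2 := by
    rw [hw, div_pow, div_pow, sq_abs]
  rw [he]
  have h1t2 : 0 < 1 + t ^ 2 := by positivity
  rw [← div_eq_mul_inv, le_div_iff₀ h1t2]
  have hfac : (w ^ 2) ^ (K + 2) ≤ 2 ^ (K + 2) * ((K + 2).factorial : ℝ) * Real.exp (w ^ 2 / 2) := by
    have h := Real.pow_div_factorial_le_exp (w ^ 2 / 2) (by positivity) (K + 2)
    rw [div_le_iff₀ (by positivity), div_pow, div_le_iff₀ (by positivity)] at h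
    linarith
  have hpoly : (9 * (1 + |t|)) ^ K * (1 + t ^ 2) ≤ (36 * (T * w)) ^ (K + 2) := by
    have h1 : 1 + t ^ 2 ≤ (9 * (1 + |t|)) ^ 2 := by
      have h3 := abs_nonneg t
      have h4 := sq_abs t
      nlinarith
    calc (9 * (1 + |t|)) ^ K * (1 + t ^ 2) ≤ (9 * (1 + |t|)) ^ K * (9 * (1 + |t|)) ^ 2 := by
          gcongr
      _ = (9 * (1 + |t|)) ^ (K + 2) := by rw [pow_add]
      _ ≤ (36 * (T * w)) ^ (K + 2) := by
          apply pow_le_pow_left₀ (by positivity)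
          linarith
  have hww : w ^ (K + 2) ≤ (w ^ 2) ^ (K + 2) := by
    apply pow_le_pow_left₀ (by linarith)
    nlinarith
  have hexp1 : Real.exp (w ^ 2 / 2) * Real.exp (-w ^ 2) = Real.exp (-(w ^ 2 / 2)) := by
    rw [← Real.exp_add]; congr 1; ring
  have hexp2 : Real.exp (-(w ^ 2 / 2)) ≤ Real.exp (-((K + 3 + |M|) * L)) := by
    apply Real.exp_le_exp.2
    have : (K + 3 + |M|) * L ≤ B ^ 2 / 8 * L := by
      apply mul_le_mul_of_nonneg_right _ (by linarith)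
      linarith
    linarith
  have hTpow : T ^ (K + 2) = Real.exp ((K + 2) * L) := by
    rw [hLdef, show ((K : ℝ) + 2) * Real.log T = ((K + 2 : ℕ) : ℝ) * Real.log T by push_cast; ring,
      Real.exp_nat_mul, Real.exp_log hT0]
  have hTM : T ^ (-M) = Real.exp (-(M * L)) := by
    rw [Real.rpow_def_of_pos hT0, ← hLdef]; congr 1; ring
  have hTe : T = Real.exp L := (Real.exp_log hT0).symm
  calc (9 * (1 + |t|)) ^ K * Real.exp (-w ^ 2) * (1 + t ^ 2)
      = ((9 * (1 + |t|)) ^ K * (1 + t ^ 2)) * Real.exp (-w ^ 2) := by ring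
    _ ≤ (36 * (T * w)) ^ (K + 2) * Real.exp (-w ^ 2) := by gcongr
    _ = 36 ^ (K + 2) * T ^ (K + 2) * w ^ (K + 2) * Real.exp (-w ^ 2) := by
        rw [mul_pow, mul_pow]; ring
    _ ≤ 36 ^ (K + 2) * T ^ (K + 2) *
          (2 ^ (K + 2) * ((K + 2).factorial : ℝ) * Real.exp (w ^ 2 / 2)) * Real.exp (-w ^ 2) := by
        gcongr
        exact hww.trans hfac
    _ = (72 ^ (K + 2) * ((K + 2).factorial : ℝ)) * T ^ (K + 2) *
          (Real.exp (w ^ 2 / 2) * Real.exp (-w ^ 2)) := by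
        rw [show (72 : ℝ) = 36 * 2 by norm_num, mul_pow]; ring
    _ ≤ (T / 12) * T ^ (K + 2) * Real.exp (-((K + 3 + |M|) * L)) := by
        rw [hexp1]
        gcongr
        linarith
    _ = (1 / 12) * Real.exp (L + (K + 2) * L + -((K + 3 + |M|) * L)) := by
        rw [hTpow, Real.exp_add, Real.exp_add, ← hTe]; ring
    _ ≤ (1 / 12) * Real.exp (-(M * L)) := by
        gcongr
        have : M * L ≤ |M| * L := mul_le_mul_of_nonneg_right (le_abs_self M) (by linarith)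
        linarith
    _ = T ^ (-M) / 12 := by rw [hTM]; ring

/-- the horizontal sides -/
lemma edge (a b : ℕ) {K0 m B T Δ ν t σ : ℝ} (_hm0 : 0 ≤ m) (hB2 : 16 * m ≤ B ^ 2) (hB1 : 1 ≤ B)
    (hX : ∀ s : ℂ, 1 / 2 ≤ s.re → s.re ≤ 4 → 1 ≤ s.im →
      Real.exp (-K0) * s.im ^ (s.re - 1 / 2) ≤ ‖XX s‖ ∧ ‖XX s‖ ≤ Real.exp K0 * s.im ^ (s.re - 1 / 2))
    (hK0 : 0 < K0)
    (hT100 : 100 ≤ T) (hTK : 320 * Real.exp K0 ≤ T) (hT13 : Real.exp 13 ≤ T) (hΔ : 1 ≤ Δ)
    (hBT : B * Δ * √(Real.log T) ≤ T) (hν : 0 ≤ ν) (ht : t = T / 2 ∨ t = 3 * T / 2)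
    (hσ1 : 1 / 2 ≤ σ) (hσ2 : σ ≤ 2) :
    ‖hs a b T Δ ν (⟨σ, t⟩ : ℂ)‖ ≤ Real.exp ((6 * (a + b) + 1 - m) * Real.log T) := by
  have hl : 13 ≤ Real.log T := by
    rw [Real.le_log_iff_exp_le (by linarith)]
    exact hT13
  have ht1 : T / 4 ≤ t ∧ t ≤ 2 * T ∧ T / 4 ≤ |t - T| := by
    rcases ht with ht | ht
    · refine ⟨by linarith, by linarith, ?_⟩
      rw [abs_sub_comm]
      exact le_trans (by linarith) (le_abs_self _)
    · refine ⟨by linarith, by linarith, ?_⟩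
      exact le_trans (by linarith) (le_abs_self _)
  obtain ⟨ht1, ht2, ht3⟩ := ht1
  have ht0 : 1 ≤ t := by linarith
  have hΔ0 : 0 < Δ := by linarith
  have hT0 : 0 < T := by linarith
  -- zeta
  have hz : ‖riemannZeta (⟨σ, t⟩ : ℂ)‖ ≤ 20 * T := by
    have h1 := Pool.Agent.H388LH.zeta_growth (s := (⟨σ, t⟩ : ℂ)) (by simp only; linarith)
      (by simpa using ht0)
    have h2 : ‖(⟨σ, t⟩ : ℂ)‖ ≤ |σ| + |t| := Complex.norm_le_abs_re_add_abs_im _
    rw [abs_of_nonneg (by linarith), abs_of_nonneg (by linarith)] at h2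
    linarith
  -- XX
  have hx : ‖XX (⟨σ, t⟩ : ℂ)‖ ≤ Real.exp K0 * (2 * T) ^ 4 := by
    have h1 := (hX (⟨σ, t⟩ : ℂ) hσ1 (by show σ ≤ 4; linarith) ht0).2
    simp only at h1
    refine h1.trans (mul_le_mul_of_nonneg_left ?_ (Real.exp_pos K0).le)
    calc t ^ (σ - 1 / 2) ≤ (2 * T) ^ (σ - 1 / 2) :=
          Real.rpow_le_rpow (by linarith) ht2 (by linarith)
      _ ≤ (2 * T) ^ (4 : ℝ) := Real.rpow_le_rpow_of_exponent_le (by linarith) (by linarith)
      _ = (2 * T) ^ 4 := by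
          rw [show (4 : ℝ) = ((4 : ℕ) : ℝ) by norm_num, Real.rpow_natCast]
  have hone : 1 ≤ Real.exp K0 * (2 * T) ^ 4 := by
    have h1 : 1 ≤ Real.exp K0 := Real.one_le_exp hK0.le
    have h2 : (1 : ℝ) ≤ (2 * T) ^ 4 := one_le_pow₀ (by linarith)
    nlinarith
  have hF : ‖riemannZeta (⟨σ, t⟩ : ℂ) ^ (a + b) * XX (⟨σ, t⟩ : ℂ) ^ b‖ ≤ (T ^ 6) ^ (a + b) := by
    rw [norm_mul, norm_pow, norm_pow]
    calc ‖riemannZeta (⟨σ, t⟩ : ℂ)‖ ^ (a + b) * ‖XX (⟨σ, t⟩ : ℂ)‖ ^ b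
        ≤ (20 * T) ^ (a + b) * (Real.exp K0 * (2 * T) ^ 4) ^ b := by gcongr
      _ ≤ (20 * T) ^ (a + b) * (Real.exp K0 * (2 * T) ^ 4) ^ (a + b) := by
          apply mul_le_mul_of_nonneg_left _ (by positivity)
          exact pow_le_pow_right₀ hone (by omega)
      _ = (320 * Real.exp K0 * T ^ 5) ^ (a + b) := by
          rw [← mul_pow]
          congr 1
          ring
      _ ≤ (T ^ 6) ^ (a + b) := by
          apply pow_le_pow_left₀ (by positivity)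
          have h6 : 0 ≤ T ^ 5 := by positivity
          calc 320 * Real.exp K0 * T ^ 5 ≤ T * T ^ 5 := mul_le_mul_of_nonneg_right hTK h6
            _ = T ^ 6 := by ring
  have hF2 : (T ^ 6) ^ (a + b) = Real.exp (6 * (a + b) * Real.log T) := by
    rw [← pow_mul, show (6 * ((a : ℝ) + b) * Real.log T) = ((6 * (a + b) : ℕ) : ℝ) * Real.log T by
      push_cast; ring, Real.exp_nat_mul, Real.exp_log hT0]
  -- GG
  have hG : ‖GG T Δ (⟨σ, t⟩ : ℂ)‖ ≤ Real.exp (13 - m * Real.log T) := by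
    rw [Pool.Agent.W723.QS.norm_GG T Δ σ t hΔ0]
    apply Real.exp_le_exp.2
    have hD2 : 1 ≤ Δ ^ 2 := by nlinarith
    have hs0 : 0 ≤ √(Real.log T) := Real.sqrt_nonneg _
    have hss : √(Real.log T) ^ 2 = Real.log T := Real.sq_sqrt (by linarith)
    have h1 : B ^ 2 * Δ ^ 2 * Real.log T ≤ T ^ 2 := by
      have h2 : (B * Δ * √(Real.log T)) ^ 2 ≤ T ^ 2 :=
        pow_le_pow_left₀ (by positivity) hBT 2
      calc B ^ 2 * Δ ^ 2 * Real.log T = (B * Δ * √(Real.log T)) ^ 2 := by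
            rw [mul_pow, mul_pow, hss]
        _ ≤ T ^ 2 := h2
    have h3 : (T / 4) ^ 2 ≤ (t - T) ^ 2 := by
      rw [← sq_abs (t - T)]
      exact pow_le_pow_left₀ (by linarith) ht3 2
    have h4 : (σ - 1 / 2) ^ 2 ≤ 13 := by nlinarith
    have h5 : m * Δ ^ 2 * Real.log T ≤ (t - T) ^ 2 := by
      have h6 : 16 * m * (Δ ^ 2 * Real.log T) ≤ B ^ 2 * (Δ ^ 2 * Real.log T) :=
        mul_le_mul_of_nonneg_right hB2 (by positivity)
      nlinarith
    rw [div_le_iff₀ (by positivity)]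
    have h7 : 13 ≤ 13 * Δ ^ 2 := by linarith
    nlinarith
  -- exponential
  have hE : ‖cexp (-(((⟨σ, t⟩ : ℂ) - 1 / 2) * (ν : ℂ)))‖ ≤ 1 := by
    rw [Complex.norm_exp, Real.exp_le_one_iff]
    have e : (-(((⟨σ, t⟩ : ℂ) - 1 / 2) * (ν : ℂ))).re = -((σ - 1 / 2) * ν) := by
      simp [Complex.mul_re]
    rw [e]
    have : 0 ≤ (σ - 1 / 2) * ν := mul_nonneg (by linarith) hν
    linarith
  unfold hs
  rw [norm_mul, norm_mul]
  calc ‖riemannZeta (⟨σ, t⟩ : ℂ) ^ (a + b) * XX (⟨σ, t⟩ : ℂ) ^ b‖ * ‖GG T Δ (⟨σ, t⟩ : ℂ)‖ *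
        ‖cexp (-(((⟨σ, t⟩ : ℂ) - 1 / 2) * (ν : ℂ)))‖
      ≤ Real.exp (6 * (a + b) * Real.log T) * Real.exp (13 - m * Real.log T) * 1 := by
        rw [← hF2]
        gcongr
    _ = Real.exp (6 * (a + b) * Real.log T + (13 - m * Real.log T)) := by
        rw [mul_one, Real.exp_add]
    _ ≤ Real.exp ((6 * (a + b) + 1 - m) * Real.log T) := by
        apply Real.exp_le_exp.2
        nlinarith

end TRUNCaux

open TRUNCaux

theorem t_TRUNC (hS : S_STRIP) : S_TRUNC := by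
  intro a b M
  obtain ⟨C, hC0, hC⟩ := hS a b
  obtain ⟨-, -, -, -, -, -, -, -, ⟨K0, hK0, hX⟩, -⟩ := Pool.Agent.W338.QS.qs_line
  obtain ⟨m, hm⟩ : ∃ m : ℝ, m = 6 * ((a : ℝ) + b) + 2 + |M| := ⟨_, rfl⟩
  have hab0 : 0 ≤ (a : ℝ) + b := by positivity
  have hM0 : 0 ≤ |M| := abs_nonneg M
  have hm2 : 2 ≤ m := by rw [hm]; linarith
  obtain ⟨B, hB⟩ : ∃ B : ℝ, B = 4 * √m + 1 := ⟨_, rfl⟩
  have hsm : 1 ≤ √m := Real.one_le_sqrt.2 (by linarith)
  have hB5 : 2 ≤ B := by rw [hB]; linarith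
  have hB2 : 16 * m ≤ B ^ 2 := by
    have h1 : √m ^ 2 = m := Real.sq_sqrt (by linarith)
    rw [hB]
    nlinarith
  have hB3 : 8 * (((a + b : ℕ) : ℝ) + 3 + |M|) ≤ B ^ 2 := by
    push_cast
    rw [hm] at hB2
    linarith
  refine ⟨B, max (max 100 (320 * Real.exp K0)) (max (Real.exp 13)
    (12 * (72 ^ (a + b + 2) * ((a + b + 2).factorial : ℝ)))), by linarith,
    (le_max_left _ _).trans (le_max_left _ _), ?_⟩
  intro T Δ ν c hT hΔ hBT hν hc1 hc2
  have hT100 : 100 ≤ T := ((le_max_left _ _).trans (le_max_left _ _)).trans hT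
  have hTK : 320 * Real.exp K0 ≤ T := ((le_max_right _ _).trans (le_max_left _ _)).trans hT
  have hT13 : Real.exp 13 ≤ T := ((le_max_left _ _).trans (le_max_right _ _)).trans hT
  have hTf : 12 * (72 ^ (a + b + 2) * ((a + b + 2).factorial : ℝ)) ≤ T :=
    ((le_max_right _ _).trans (le_max_right _ _)).trans hT
  have hT0 : 0 < T := by linarith
  have hΔ0 : 0 < Δ := by linarith
  have hL : 13 ≤ Real.log T := by
    rw [Real.le_log_iff_exp_le hT0]; exact hT13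
  have hs1 : 1 ≤ √(Real.log T) := Real.one_le_sqrt.2 (by linarith)
  have hΔT : Δ ≤ T := by
    calc Δ = Δ * 1 := (mul_one _).symm
      _ ≤ Δ * (B * √(Real.log T)) := by gcongr; nlinarith
      _ = B * Δ * √(Real.log T) := by ring
      _ ≤ T := hBT
  obtain ⟨hcont, hint, -, -⟩ := hC T Δ hΔ hΔT
  obtain ⟨f, hf⟩ : ∃ f : ℝ → ℂ, f = fun t => zg a b T Δ t * cexp (-(((ν * t : ℝ) : ℂ) * I)) :=
    ⟨_, rfl⟩
  have hfn : ∀ t, ‖f t‖ = ‖zg a b T Δ t‖ := by
    intro t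
    rw [hf]
    simp only
    rw [norm_mul, Complex.norm_exp]
    simp
  have hfc : Continuous f := by
    rw [hf]
    refine hcont.mul ?_
    fun_prop
  have hfi : Integrable f := by
    refine hint.norm.mono' hfc.aestronglyMeasurable (Eventually.of_forall fun t => ?_)
    rw [hfn]
  have hFT : FT a b T Δ ν = ∫ t : ℝ, f t := by rw [hf]; rfl
  have hsplit : (∫ t : ℝ, f t) = (∫ t in Ioc (T / 2) (3 * T / 2), f t) +
      ∫ t in (Ioc (T / 2) (3 * T / 2))ᶜ, f t :=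
    (integral_add_compl measurableSet_Ioc hfi).symm
  have hmain : (∫ t in Ioc (T / 2) (3 * T / 2), f t) =
      ∫ t in (T / 2)..(3 * T / 2), hs a b T Δ ν (cp t) := by
    rw [intervalIntegral.integral_of_le (by linarith)]
    apply setIntegral_congr_fun measurableSet_Ioc
    intro t ht
    have := zg_eq a b T Δ ν t (by linarith [ht.1])
    rw [hf]
    exact this
  have hTM0 : 0 < T ^ (-M) := Real.rpow_pos_of_pos hT0 _
  have htail : ‖∫ t in (Ioc (T / 2) (3 * T / 2))ᶜ, f t‖ ≤ T ^ (-M) / 3 := by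
    have hgi : Integrable (fun t : ℝ => T ^ (-M) / 12 * (1 + t ^ 2)⁻¹) :=
      integrable_inv_one_add_sq.const_mul _
    have h1 : ‖∫ t in (Ioc (T / 2) (3 * T / 2))ᶜ, f t‖ ≤
        ∫ t in (Ioc (T / 2) (3 * T / 2))ᶜ, T ^ (-M) / 12 * (1 + t ^ 2)⁻¹ := by
      refine norm_integral_le_of_norm_le hgi.integrableOn ?_
      rw [ae_restrict_iff' measurableSet_Ioc.compl]
      refine Eventually.of_forall fun t ht => ?_
      rw [hfn]
      refine (zg_bound a b T Δ t).trans ?_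
      refine tail_pt (a + b) M hB5 hB3 hT100 hTf hΔ hBT ?_
      rw [mem_compl_iff, mem_Ioc, not_and_or] at ht
      rcases ht with ht | ht
      · push Not at ht
        rw [abs_sub_comm]
        exact le_trans (by linarith) (le_abs_self _)
      · push Not at ht
        exact le_trans (by linarith) (le_abs_self _)
    have h2 : (∫ t in (Ioc (T / 2) (3 * T / 2))ᶜ, T ^ (-M) / 12 * (1 + t ^ 2)⁻¹) ≤
        ∫ t : ℝ, T ^ (-M) / 12 * (1 + t ^ 2)⁻¹ :=
      setIntegral_le_integral hgi (Eventually.of_forall fun t => by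
        show 0 ≤ T ^ (-M) / 12 * (1 + t ^ 2)⁻¹
        positivity)
    have h2' : (∫ t : ℝ, T ^ (-M) / 12 * (1 + t ^ 2)⁻¹) = T ^ (-M) / 12 * Real.pi := by
      rw [integral_const_mul, integral_univ_inv_one_add_sq]
    rw [h2'] at h2
    have h3 : Real.pi < 4 := by have := Real.pi_lt_d2; linarith
    have h4 : T ^ (-M) / 12 * Real.pi ≤ T ^ (-M) / 12 * 4 := by gcongr
    linarith
  have hedge : ∀ y : ℝ, (y = T / 2 ∨ y = 3 * T / 2) →
      ‖∫ x in (1 / 2 : ℝ)..c, hs a b T Δ ν (⟨x, y⟩ : ℂ)‖ ≤ T ^ (-M) / 6 := by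
    intro y hy
    have h1 : ‖∫ x in (1 / 2 : ℝ)..c, hs a b T Δ ν (⟨x, y⟩ : ℂ)‖ ≤
        Real.exp ((6 * (a + b) + 1 - m) * Real.log T) * |c - 1 / 2| := by
      refine intervalIntegral.norm_integral_le_of_norm_le_const ?_
      intro x hx
      rw [uIoc_of_le hc1] at hx
      exact edge a b (by linarith) hB2 (by linarith) hX hK0 hT100 hTK hT13 hΔ hBT hν hy hx.1.le
        (by linarith [hx.2])
    have h2 : Real.exp ((6 * (a + b) + 1 - m) * Real.log T) ≤ T ^ (-M) / 100 := by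
      have e1 : (6 * ((a : ℝ) + b) + 1 - m) * Real.log T = -(|M| * Real.log T) + -Real.log T := by
        rw [hm]; ring
      rw [e1, Real.exp_add, Real.exp_neg (Real.log T), Real.exp_log hT0,
        Real.rpow_def_of_pos hT0]
      have h3 : Real.exp (-(|M| * Real.log T)) ≤ Real.exp (Real.log T * -M) := by
        apply Real.exp_le_exp.2
        have : M * Real.log T ≤ |M| * Real.log T :=
          mul_le_mul_of_nonneg_right (le_abs_self M) (by linarith)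
        linarith
      have h4 : T⁻¹ ≤ 1 / 100 := by
        rw [← one_div]
        exact one_div_le_one_div_of_le (by norm_num) hT100
      calc Real.exp (-(|M| * Real.log T)) * T⁻¹ ≤ Real.exp (Real.log T * -M) * (1 / 100) := by
            gcongr
        _ = _ := by ring
    have h5 : |c - 1 / 2| ≤ 3 / 2 := by
      rw [abs_of_nonneg (by linarith)]; linarith
    calc _ ≤ _ := h1
      _ ≤ T ^ (-M) / 100 * (3 / 2) := by gcongr
      _ ≤ T ^ (-M) / 6 := by linarith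
  have hr := rect a b T Δ ν c (y0 := T / 2) (y1 := 3 * T / 2) (by linarith) (by linarith)
  have h6 := hedge (T / 2) (Or.inl rfl)
  have h7 := hedge (3 * T / 2) (Or.inr rfl)
  rw [hFT, hsplit, hmain]
  calc ‖(∫ t in (T / 2)..(3 * T / 2), hs a b T Δ ν (cp t)) +
        (∫ t in (Ioc (T / 2) (3 * T / 2))ᶜ, f t) -
          ∫ t in (T / 2)..(3 * T / 2), hs a b T Δ ν ((c : ℂ) + (t : ℂ) * I)‖
      = ‖((∫ t in (T / 2)..(3 * T / 2), hs a b T Δ ν (cp t)) -
          ∫ t in (T / 2)..(3 * T / 2), hs a b T Δ ν ((c : ℂ) + (t : ℂ) * I)) +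
        (∫ t in (Ioc (T / 2) (3 * T / 2))ᶜ, f t)‖ := by congr 1; ring
    _ ≤ _ := norm_add_le _ _
    _ ≤ T ^ (-M) := by linarith

end Pool.Agent.N30.AP
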