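import Pool.Agent.N30.AP.Stm
import Pool.Agent.N30.SR.L_PART

set_option autoImplicit false

/-!
# Project AP (helper30), VDC: the second derivative test

Written by helper395.
-/

open Complex MeasureTheory Set Filter Topology
open Pool.Agent.W188.QS (XX cp fp GG gg Zk PC)

namespace Pool.Agent.N30.AP

namespace VDC_

/-- integration by parts: the first derivative test -/
theorem parts {a b : ℝ} (hab : a ≤ b) {W ρ : ℝ → ℂ} {h h' q Q : ℝ → ℝ} {d M N : ℝ} (hd : 0 < d)
    (hW : ∀ t ∈ Icc a b, HasDerivAt W (I * ((h t : ℂ) + ρ t) * W t) t)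
    (hh : ∀ t ∈ Icc a b, HasDerivAt h (h' t) t)
    (hh' : ContinuousOn h' (Icc a b)) (hpos : ∀ t ∈ Icc a b, 0 ≤ h' t)
    (hdh : ∀ t ∈ Icc a b, d ≤ |h t|)
    (hρ : ContinuousOn ρ (Icc a b))
    (hM : ∀ t ∈ Icc a b, ‖W t‖ ≤ M)
    (hq : ∀ t ∈ Icc a b, ‖ρ t * W t‖ ≤ q t)
    (hQ : ∀ t ∈ Icc a b, HasDerivAt Q (q t) t) (hqc : ContinuousOn q (Icc a b))
    (hN : Q b - Q a ≤ N) :
    ‖∫ t in a..b, W t‖ ≤ (4 * M + N) / d := by
  have hWc : ContinuousOn W (Icc a b) := fun t ht => (hW t ht).continuousAt.continuousWithinAt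
  have hhc : ContinuousOn h (Icc a b) := fun t ht => (hh t ht).continuousAt.continuousWithinAt
  have hhC : ContinuousOn (fun t => ((h t : ℝ) : ℂ)) (Icc a b) :=
    Complex.continuous_ofReal.comp_continuousOn hhc
  have hhC' : ContinuousOn (fun t => ((h' t : ℝ) : ℂ)) (Icc a b) :=
    Complex.continuous_ofReal.comp_continuousOn hh'
  have hh0 : ∀ t ∈ Icc a b, h t ≠ 0 := fun t ht h0 => by
    have := hdh t ht
    rw [h0, abs_zero] at this
    linarith
  have hh0C : ∀ t ∈ Icc a b, ((h t : ℝ) : ℂ) ≠ 0 := fun t ht => by exact_mod_cast hh0 t ht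
  have hM0 : 0 ≤ M := (norm_nonneg _).trans (hM a (left_mem_Icc.2 hab))
  set R : ℝ → ℂ := fun t => ρ t * W t / ((h t : ℝ) : ℂ) +
    I * W t * ((h' t : ℝ) : ℂ) / ((h t : ℝ) : ℂ) ^ 2 with hR
  set F : ℝ → ℂ := fun t => W t / (I * ((h t : ℝ) : ℂ)) with hF
  have hRc : ContinuousOn R (Icc a b) :=
    ((hρ.mul hWc).div hhC hh0C).add
      (((continuousOn_const.mul hWc).mul hhC').div (hhC.pow 2) fun t ht => pow_ne_zero _ (hh0C t ht))
  have hFd : ∀ t ∈ uIcc a b, HasDerivAt F (W t + R t) t := by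
    intro t ht
    rw [uIcc_of_le hab] at ht
    have h2 : HasDerivAt (fun t : ℝ => I * ((h t : ℝ) : ℂ)) (I * ((h' t : ℝ) : ℂ)) t :=
      ((hh t ht).ofReal_comp).const_mul I
    have h3 := (hW t ht).div h2 (mul_ne_zero I_ne_zero (hh0C t ht))
    refine h3.congr_deriv ?_
    have h5 := hh0C t ht
    rw [hR]
    simp only
    have hI : (I : ℂ) ^ 2 = -1 := I_sq
    field_simp
    ring_nf
    rw [hI]
    ring
  have hint : IntervalIntegrable (fun t => W t + R t) volume a b := by
    apply ContinuousOn.intervalIntegrable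
    rw [uIcc_of_le hab]
    exact hWc.add hRc
  have hWi : IntervalIntegrable W volume a b := by
    apply ContinuousOn.intervalIntegrable
    rw [uIcc_of_le hab]
    exact hWc
  have hRi : IntervalIntegrable R volume a b := by
    apply ContinuousOn.intervalIntegrable
    rw [uIcc_of_le hab]
    exact hRc
  have hftc := intervalIntegral.integral_eq_sub_of_hasDerivAt hFd hint
  rw [intervalIntegral.integral_add hWi hRi] at hftc
  have hWeq : ∫ t in a..b, W t = F b - F a - ∫ t in a..b, R t := by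
    rw [← hftc]
    ring
  have hFn : ∀ t ∈ Icc a b, ‖F t‖ ≤ M / d := by
    intro t ht
    rw [hF]
    simp only [norm_div, norm_mul, Complex.norm_I, one_mul, Complex.norm_real, Real.norm_eq_abs]
    exact div_le_div₀ hM0 (hM t ht) hd (hdh t ht)
  have hRn : ∀ t ∈ Icc a b, ‖R t‖ ≤ q t / d + M * (h' t / h t ^ 2) := by
    intro t ht
    have h1 : ‖ρ t * W t / ((h t : ℝ) : ℂ)‖ ≤ q t / d := by
      rw [norm_div, Complex.norm_real, Real.norm_eq_abs]
      exact div_le_div₀ ((norm_nonneg _).trans (hq t ht)) (hq t ht) hd (hdh t ht)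
    have h2 : ‖I * W t * ((h' t : ℝ) : ℂ) / ((h t : ℝ) : ℂ) ^ 2‖ ≤ M * (h' t / h t ^ 2) := by
      rw [norm_div, norm_mul, norm_mul, norm_pow, Complex.norm_I, one_mul, Complex.norm_real,
        Complex.norm_real, Real.norm_eq_abs, Real.norm_eq_abs, sq_abs, abs_of_nonneg (hpos t ht),
        mul_div_assoc]
      exact mul_le_mul_of_nonneg_right (hM t ht) (div_nonneg (hpos t ht) (sq_nonneg _))
    exact (norm_add_le _ _).trans (add_le_add h1 h2)
  have hbc : ContinuousOn (fun t => q t / d + M * (h' t / h t ^ 2)) (Icc a b) :=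
    (hqc.div_const _).add (continuousOn_const.mul (hh'.div (hhc.pow 2)
      fun t ht => pow_ne_zero _ (hh0 t ht)))
  have hbi : IntervalIntegrable (fun t => q t / d + M * (h' t / h t ^ 2)) volume a b := by
    apply ContinuousOn.intervalIntegrable
    rw [uIcc_of_le hab]
    exact hbc
  have hRI : ‖∫ t in a..b, R t‖ ≤ ∫ t in a..b, (q t / d + M * (h' t / h t ^ 2)) :=
    intervalIntegral.norm_integral_le_of_norm_le hab
      (ae_of_all _ fun t ht => hRn t (Ioc_subset_Icc_self ht)) hbi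
  have hΦ : ∀ t ∈ uIcc a b, HasDerivAt (fun t => Q t / d - M * (h t)⁻¹)
      (q t / d + M * (h' t / h t ^ 2)) t := by
    intro t ht
    rw [uIcc_of_le hab] at ht
    have h1 := ((hQ t ht).div_const d).sub (((hh t ht).inv (hh0 t ht)).const_mul M)
    refine h1.congr_deriv ?_
    ring
  rw [intervalIntegral.integral_eq_sub_of_hasDerivAt hΦ hbi] at hRI
  have hinv : ∀ t ∈ Icc a b, |M * (h t)⁻¹| ≤ M / d := by
    intro t ht
    rw [abs_mul, abs_of_nonneg hM0, abs_inv, ← div_eq_mul_inv]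
    exact div_le_div_of_nonneg_left hM0 hd (hdh t ht)
  have ha' := left_mem_Icc.2 hab
  have hb' := right_mem_Icc.2 hab
  have i1 := abs_le.1 (hinv a ha')
  have i2 := abs_le.1 (hinv b hb')
  have e1 := norm_sub_le (F b - F a) (∫ t in a..b, R t)
  have e2 := norm_sub_le (F b) (F a)
  have f1 := hFn a ha'
  have f2 := hFn b hb'
  have g1 : Q b / d - Q a / d ≤ N / d := by
    rw [← sub_div]
    exact div_le_div_of_nonneg_right hN hd.le
  rw [hWeq]
  have e3 : (4 * M + N) / d = 4 * (M / d) + N / d := by ring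
  rw [e3]
  linarith

/-- the second derivative test for a phase with logarithmic derivative -/
theorem second {β u T M N : ℝ} (hT : 24 ≤ T) (hβ : 1 ≤ β) (hM0 : 0 ≤ M) (hN0 : 0 ≤ N) {W : ℝ → ℂ}
    (hM : ∀ t ∈ Icc (T / 2) (3 * T / 2), ‖W t‖ ≤ M)
    (hWc : ContinuousOn W (Icc (T / 2) (3 * T / 2)))
    (hp : ∀ a b d : ℝ, T / 2 ≤ a → a ≤ b → b ≤ 3 * T / 2 → 0 < d →
      (∀ t ∈ Icc a b, d ≤ |β * Real.log (t / (2 * Real.pi)) - u|) →
      ‖∫ t in a..b, W t‖ ≤ (4 * M + N) / d) :
    ‖∫ t in (T / 2)..(3 * T / 2), W t‖ ≤ (11 * M + 2 * N) * √T := by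
  have hpi := Real.pi_pos
  have hT0 : 0 < T := by linarith
  have hsq : 0 < √T := Real.sqrt_pos.2 hT0
  have hsqq : √T * √T = T := Real.mul_self_sqrt hT0.le
  set a : ℝ := T / 2 with ha
  set b : ℝ := 3 * T / 2 with hb
  have hab : a ≤ b := by rw [ha, hb]; linarith
  have ha0 : 0 < a := by rw [ha]; linarith
  set d : ℝ := 1 / √T with hd
  have hd0 : 0 < d := by rw [hd]; positivity
  set p : ℝ := 2 * Real.pi * Real.exp ((u - d) / β) with hpdef
  set r : ℝ := 2 * Real.pi * Real.exp ((u + d) / β) with hrdef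
  have hp0 : 0 < p := by rw [hpdef]; positivity
  have hr0 : 0 < r := by rw [hrdef]; positivity
  have hβ0 : 0 < β := by linarith
  have hlp : Real.log (p / (2 * Real.pi)) = (u - d) / β := by
    rw [hpdef, mul_div_cancel_left₀ _ (by positivity), Real.log_exp]
  have hlr : Real.log (r / (2 * Real.pi)) = (u + d) / β := by
    rw [hrdef, mul_div_cancel_left₀ _ (by positivity), Real.log_exp]
  set p' : ℝ := min (max p a) b with hp'
  set r' : ℝ := min (max r a) b with hr'
  have hpr : p ≤ r := by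
    rw [hpdef, hrdef]
    refine mul_le_mul_of_nonneg_left (Real.exp_le_exp.2 ?_) (by positivity)
    exact div_le_div_of_nonneg_right (by linarith) hβ0.le
  have hpr' : p' ≤ r' := by
    rw [hp', hr']
    exact min_le_min_right _ (max_le_max_right _ hpr)
  have hap : a ≤ p' := le_min (le_max_right _ _) hab
  have har : a ≤ r' := le_min (le_max_right _ _) hab
  have hpb : p' ≤ b := min_le_right _ _
  have hrb : r' ≤ b := min_le_right _ _
  have hMN : 0 ≤ 4 * M + N := by linarith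
  have hdiv : (4 * M + N) / d = (4 * M + N) * √T := by
    rw [hd]
    field_simp
  -- first part
  have h1 : ‖∫ t in a..p', W t‖ ≤ (4 * M + N) * √T := by
    by_cases hc : p ≤ a
    · have : p' = a := by rw [hp', max_eq_right hc, min_eq_left hab]
      rw [this, intervalIntegral.integral_same, norm_zero]
      positivity
    · push Not at hc
      have hpp : p' ≤ p := by rw [hp', max_eq_left hc.le]; exact min_le_left _ _
      rw [← hdiv]
      refine hp a p' d le_rfl hap hpb hd0 fun t ht => ?_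
      have ht0 : 0 < t := by linarith [ht.1]
      have hl : Real.log (t / (2 * Real.pi)) ≤ (u - d) / β := by
        rw [← hlp]
        exact Real.log_le_log (by positivity)
          (div_le_div_of_nonneg_right (ht.2.trans hpp) (by positivity))
      have hl2 : β * Real.log (t / (2 * Real.pi)) ≤ u - d := by
        have := mul_le_mul_of_nonneg_left hl hβ0.le
        rwa [mul_div_cancel₀ _ hβ0.ne'] at this
      rw [abs_of_neg (by linarith)]
      linarith
  -- last part
  have h3 : ‖∫ t in r'..b, W t‖ ≤ (4 * M + N) * √T := by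
    by_cases hc : b ≤ r
    · have : r' = b := by rw [hr', max_eq_left (hab.trans hc), min_eq_right hc]
      rw [this, intervalIntegral.integral_same, norm_zero]
      positivity
    · push Not at hc
      have hrr : r ≤ r' := le_min (le_max_left _ _) hc.le
      rw [← hdiv]
      refine hp r' b d har hrb le_rfl hd0 fun t ht => ?_
      have hl : (u + d) / β ≤ Real.log (t / (2 * Real.pi)) := by
        rw [← hlr]
        exact Real.log_le_log (by positivity)
          (div_le_div_of_nonneg_right (hrr.trans ht.1) (by positivity))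
      have hl2 : u + d ≤ β * Real.log (t / (2 * Real.pi)) := by
        have := mul_le_mul_of_nonneg_left hl hβ0.le
        rwa [mul_div_cancel₀ _ hβ0.ne'] at this
      rw [abs_of_pos (by linarith)]
      linarith
  -- middle part
  have hlen : r' - p' ≤ 3 * √T := by
    rcases eq_or_lt_of_le hpr' with he | hlt
    · rw [he, sub_self]
      positivity
    · have hp'0 : 0 < p' := lt_of_lt_of_le ha0 hap
      have hr'0 : 0 < r' := lt_of_lt_of_le ha0 har
      have c1 : p ≤ p' := by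
        have hlb : p' < b := lt_of_lt_of_le hlt hrb
        rw [hp'] at hlb ⊢
        rcases min_lt_iff.1 hlb with h | h
        · rw [min_eq_left h.le]
          exact le_max_left _ _
        · exact absurd h (lt_irrefl _)
      have c2 : r' ≤ r := by
        have hla : a < r' := lt_of_le_of_lt hap hlt
        rw [hr'] at hla ⊢
        rcases lt_max_iff.1 (lt_of_lt_of_le hla (min_le_left _ _)) with h | h
        · rw [max_eq_left h.le]
          exact min_le_left _ _
        · exact absurd h (lt_irrefl _)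
      have l1 : Real.log p ≤ Real.log p' := Real.log_le_log hp0 c1
      have l2 : Real.log r' ≤ Real.log r := Real.log_le_log hr'0 c2
      have l3 : Real.log r - Real.log p ≤ 2 * d := by
        rw [Real.log_div hr0.ne' (by positivity)] at hlr
        rw [Real.log_div hp0.ne' (by positivity)] at hlp
        have : Real.log r - Real.log p = 2 * d / β := by
          have e : (u + d) / β - (u - d) / β = 2 * d / β := by ring
          linarith
        rw [this]
        exact div_le_self (by positivity) hβ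
      have l4 : Real.log (p' / r') ≤ p' / r' - 1 := Real.log_le_sub_one_of_pos (by positivity)
      rw [Real.log_div hp'0.ne' hr'0.ne'] at l4
      have l5 : 1 - p' / r' ≤ 2 * d := by linarith
      have l6 : r' - p' = r' * (1 - p' / r') := by
        field_simp
      rw [l6]
      calc r' * (1 - p' / r') ≤ r' * (2 * d) := mul_le_mul_of_nonneg_left l5 hr'0.le
        _ ≤ b * (2 * d) := mul_le_mul_of_nonneg_right hrb (by positivity)
        _ = 3 * (T * (1 / √T)) := by rw [hb, hd]; ring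
        _ = 3 * √T := by
          congr 1
          rw [mul_one_div, div_eq_iff hsq.ne']
          exact hsqq.symm
  have h2 : ‖∫ t in p'..r', W t‖ ≤ M * (3 * √T) := by
    have e := intervalIntegral.norm_integral_le_of_norm_le_const (a := p') (b := r') (C := M)
      (f := W) fun t ht => by
        rw [uIoc_of_le hpr'] at ht
        exact hM t ⟨by linarith [ht.1], by linarith [ht.2]⟩
    refine e.trans (mul_le_mul_of_nonneg_left ?_ hM0)
    rw [abs_of_nonneg (by linarith)]
    exact hlen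
  have hii : ∀ x y : ℝ, a ≤ x → x ≤ y → y ≤ b → IntervalIntegrable W volume x y := by
    intro x y hx hxy hy
    apply ContinuousOn.intervalIntegrable
    rw [uIcc_of_le hxy]
    exact hWc.mono (Icc_subset_Icc hx hy)
  have hsum : ∫ t in a..b, W t = (∫ t in a..p', W t) + (∫ t in p'..r', W t) +
      ∫ t in r'..b, W t := by
    rw [intervalIntegral.integral_add_adjacent_intervals (hii a p' le_rfl hap hpb)
      (hii p' r' hap hpr' hrb),
      intervalIntegral.integral_add_adjacent_intervals (hii a r' le_rfl har hrb)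
      (hii r' b har hrb le_rfl)]
  rw [hsum]
  have e1 := norm_add_le ((∫ t in a..p', W t) + (∫ t in p'..r', W t)) (∫ t in r'..b, W t)
  have e2 := norm_add_le (∫ t in a..p', W t) (∫ t in p'..r', W t)
  nlinarith

/-- the integrand -/
noncomputable def Wf (b : ℕ) (c T Δ u t : ℝ) : ℂ :=
  XX ((c : ℂ) + (t : ℂ) * I) ^ b * cexp (-(((c : ℂ) + (t : ℂ) * I) * (u : ℂ))) *
    GG T Δ ((c : ℂ) + (t : ℂ) * I)

theorem hasDerivAt_W (b : ℕ) (hb : 1 ≤ b) (c T Δ u t : ℝ) (hΔ : 1 ≤ Δ) (ht : 1 ≤ t) :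
    HasDerivAt (Wf b c T Δ u) (I * ((b : ℂ) * logDeriv XX ((c : ℂ) + (t : ℂ) * I) - (u : ℂ) +
      2 * (((c : ℂ) + (t : ℂ) * I) - cp T) / (Δ : ℂ) ^ 2) * Wf b c T Δ u t) t := by
  have hbs := Pool.Agent.W22.QS.qs_basic ((c : ℂ) + (t : ℂ) * I) (by simpa using ht)
  have hΔ0 : (Δ : ℂ) ≠ 0 := by
    have : Δ ≠ 0 := by linarith
    exact_mod_cast this
  have h0 : HasDerivAt (fun w : ℂ => (c : ℂ) + w * I) (1 * I) (t : ℂ) :=
    ((hasDerivAt_id (t : ℂ)).mul_const I).const_add (c : ℂ)
  have h1 : HasDerivAt (fun w : ℂ => XX ((c : ℂ) + w * I))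
      (deriv XX ((c : ℂ) + (t : ℂ) * I) * (1 * I)) (t : ℂ) :=
    HasDerivAt.comp (h₂ := XX) (h := fun w : ℂ => (c : ℂ) + w * I) (t : ℂ) hbs.1.hasDerivAt h0
  have h2 : HasDerivAt (fun w : ℂ => cexp (-(((c : ℂ) + w * I) * (u : ℂ))))
      (cexp (-(((c : ℂ) + (t : ℂ) * I) * (u : ℂ))) * (-(1 * I * (u : ℂ)))) (t : ℂ) :=
    ((h0.mul_const (u : ℂ)).neg).cexp
  have h3 : HasDerivAt (fun w : ℂ => cexp ((((c : ℂ) + w * I - cp T) / (Δ : ℂ)) ^ 2))
      (cexp ((((c : ℂ) + (t : ℂ) * I - cp T) / (Δ : ℂ)) ^ 2) *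
        (2 * (((c : ℂ) + (t : ℂ) * I - cp T) / (Δ : ℂ)) * (1 * I / (Δ : ℂ)))) (t : ℂ) := by
    have h := (((h0.sub_const (cp T)).div_const (Δ : ℂ)).pow 2).cexp
    refine HasDerivAt.congr_deriv
      (f := fun w : ℂ => cexp ((((c : ℂ) + w * I - cp T) / (Δ : ℂ)) ^ 2)) h ?_
    simp
  obtain ⟨k, rfl⟩ : ∃ k, b = k + 1 := ⟨b - 1, by omega⟩
  have h1p : HasDerivAt (fun w : ℂ => XX ((c : ℂ) + w * I) ^ (k + 1))
      (((k : ℂ) + 1) * XX ((c : ℂ) + (t : ℂ) * I) ^ k *
        (deriv XX ((c : ℂ) + (t : ℂ) * I) * (1 * I))) (t : ℂ) := by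
    have h := h1.pow (k + 1)
    refine HasDerivAt.congr_deriv
      (f := fun w : ℂ => XX ((c : ℂ) + w * I) ^ (k + 1)) h ?_
    simp
  have h4 := ((h1p.mul h2).mul h3).comp_ofReal
  have hne := hbs.2.1
  refine HasDerivAt.congr_deriv (f := Wf (k + 1) c T Δ u) h4 ?_
  unfold Wf logDeriv GG
  simp only [Pi.div_apply, Pi.mul_apply]
  generalize deriv XX ((c : ℂ) + (t : ℂ) * I) = D at *
  generalize cexp (-(((c : ℂ) + (t : ℂ) * I) * (u : ℂ))) = E at *
  generalize cexp ((((c : ℂ) + (t : ℂ) * I - cp T) / (Δ : ℂ)) ^ 2) = G at *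
  generalize XX ((c : ℂ) + (t : ℂ) * I) = X at *
  push_cast
  field_simp
  ring

theorem norm_GG (c T Δ t : ℝ) (hc1 : 1 / 2 ≤ c) (hc2 : c ≤ 2) (hΔ : 1 ≤ Δ) :
    ‖GG T Δ ((c : ℂ) + (t : ℂ) * I)‖ ≤ Real.exp (9 / 4) * Real.exp (-((t - T) / Δ) ^ 2) := by
  unfold GG cp
  rw [Complex.norm_exp, ← Real.exp_add]
  apply Real.exp_le_exp.2
  have hΔ0 : 0 < Δ := by linarith
  have e : ((((c : ℂ) + (t : ℂ) * I - (1 / 2 + (T : ℂ) * I)) / (Δ : ℂ)) ^ 2) =
      ((((c - 1 / 2) ^ 2 - (t - T) ^ 2) / Δ ^ 2 : ℝ) : ℂ) +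
        ((2 * (c - 1 / 2) * (t - T) / Δ ^ 2 : ℝ) : ℂ) * I := by
    have hI : (I : ℂ) ^ 2 = -1 := I_sq
    push_cast
    field_simp
    ring_nf
    rw [hI]
    ring
  rw [e]
  simp only [add_re, ofReal_re, mul_re, I_re, mul_zero, ofReal_im, I_im, mul_one, sub_self,
    add_zero]
  have h1 : (c - 1 / 2) ^ 2 / Δ ^ 2 ≤ 9 / 4 := by
    rw [div_le_iff₀ (by positivity)]
    have h2 : (c - 1 / 2) ^ 2 ≤ 9 / 4 := by nlinarith
    have h3 : 1 ≤ Δ ^ 2 := by nlinarith
    nlinarith
  have h4 : ((c - 1 / 2) ^ 2 - (t - T) ^ 2) / Δ ^ 2 =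
      (c - 1 / 2) ^ 2 / Δ ^ 2 + -((t - T) / Δ) ^ 2 := by
    field_simp
    ring
  rw [h4]
  linarith

/-- `(3/2 + |y|) exp (-y^2) ≤ 3 / (1 + y^2)` -/
theorem gauss_le (y : ℝ) : (3 / 2 + |y|) * Real.exp (-y ^ 2) ≤ 3 / (1 + y ^ 2) := by
  have h1 : 1 + y ^ 2 + (y ^ 2) ^ 2 / 2 ≤ Real.exp (y ^ 2) :=
    Real.quadratic_le_exp_of_nonneg (sq_nonneg y)
  have h2 : 0 < 1 + y ^ 2 := by positivity
  rw [Real.exp_neg, ← div_eq_mul_inv, div_le_div_iff₀ (Real.exp_pos _) h2]
  have h3 : |y| ^ 2 = y ^ 2 := sq_abs y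
  have h4 := abs_nonneg y
  rw [← h3] at h1 ⊢
  set z := |y|
  nlinarith [sq_nonneg (z - 1), sq_nonneg (z ^ 2 - z), mul_nonneg h4 h4, sq_nonneg (z ^ 2)]

theorem XX_pow (K : ℝ) (hXX : ∀ s : ℂ, 1 / 2 ≤ s.re → s.re ≤ 4 → 1 ≤ s.im →
    Real.exp (-K) * s.im ^ (s.re - 1 / 2) ≤ ‖XX s‖ ∧ ‖XX s‖ ≤ Real.exp K * s.im ^ (s.re - 1 / 2))
    (b : ℕ) (c T t : ℝ) (hc1 : 1 / 2 ≤ c) (hc2 : c ≤ 2) (hT : 24 ≤ T) (ht1 : T / 2 ≤ t)
    (ht2 : t ≤ 3 * T / 2) :
    ‖XX ((c : ℂ) + (t : ℂ) * I)‖ ^ b ≤ (3 * Real.exp K) ^ b * T ^ ((b : ℝ) * (c - 1 / 2)) := by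
  have hT0 : 0 < T := by linarith
  have ht0 : 0 < t := by linarith
  have h1 := (hXX ((c : ℂ) + (t : ℂ) * I) (by simpa using hc1) (by simp; linarith)
    (by simp; linarith)).2
  have e1 : ((c : ℂ) + (t : ℂ) * I).re = c := by simp
  have e2 : ((c : ℂ) + (t : ℂ) * I).im = t := by simp
  rw [e1, e2] at h1
  have h2 : t ^ (c - 1 / 2) ≤ (3 / 2) ^ (c - 1 / 2) * T ^ (c - 1 / 2) := by
    rw [← Real.mul_rpow (by norm_num) hT0.le]
    exact Real.rpow_le_rpow ht0.le (by linarith) (by linarith)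
  have h3 : (3 / 2 : ℝ) ^ (c - 1 / 2) ≤ 3 := by
    have h4 : (3 / 2 : ℝ) ^ (c - 1 / 2) ≤ (3 / 2 : ℝ) ^ (2 : ℝ) :=
      Real.rpow_le_rpow_of_exponent_le (by norm_num) (by linarith)
    have h5 : (3 / 2 : ℝ) ^ (2 : ℝ) = 9 / 4 := by
      rw [Real.rpow_two]; norm_num
    rw [h5] at h4
    linarith
  have hTp : 0 ≤ T ^ (c - 1 / 2) := Real.rpow_nonneg hT0.le _
  have h6 : ‖XX ((c : ℂ) + (t : ℂ) * I)‖ ≤ 3 * Real.exp K * T ^ (c - 1 / 2) := by
    refine h1.trans ?_
    have h7 : t ^ (c - 1 / 2) ≤ 3 * T ^ (c - 1 / 2) :=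
      h2.trans (mul_le_mul_of_nonneg_right h3 hTp)
    have := mul_le_mul_of_nonneg_left h7 (Real.exp_pos K).le
    linarith
  calc ‖XX ((c : ℂ) + (t : ℂ) * I)‖ ^ b ≤ (3 * Real.exp K * T ^ (c - 1 / 2)) ^ b :=
        pow_le_pow_left₀ (norm_nonneg _) h6 b
    _ = (3 * Real.exp K) ^ b * T ^ ((b : ℝ) * (c - 1 / 2)) := by
        rw [mul_pow, ← Real.rpow_natCast (T ^ (c - 1 / 2)) b, ← Real.rpow_mul hT0.le,
          mul_comm (c - 1 / 2) (b : ℝ)]

end VDC_

open VDC_ in
theorem t_VDC : S_VDC := by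
  intro b hb
  obtain ⟨-, -, -, -, -, -, -, hline, ⟨K, hK, hXX⟩, -⟩ := Pool.Agent.W338.QS.qs_line
  refine ⟨(11 + 2 * (28 * (b : ℝ) + 24)) * (Real.exp 3 * (3 * Real.exp K) ^ b), by positivity, ?_⟩
  intro c T Δ u hc1 hc2 hT hΔ1 hΔT
  have hT0 : 0 < T := by linarith
  have hΔ0 : 0 < Δ := by linarith
  have hpi := Real.pi_pos
  have hb1 : (1 : ℝ) ≤ b := by exact_mod_cast hb
  set S : ℝ := (3 * Real.exp K) ^ b * T ^ ((b : ℝ) * (c - 1 / 2)) * Real.exp (-(c * u)) with hS
  have hS0 : 0 ≤ S := by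
    have := Real.rpow_nonneg hT0.le ((b : ℝ) * (c - 1 / 2))
    positivity
  -- the bound of `V`
  have hV : ∀ t ∈ Icc (T / 2) (3 * T / 2),
      ‖XX ((c : ℂ) + (t : ℂ) * I) ^ b * cexp (-(((c : ℂ) + (t : ℂ) * I) * (u : ℂ)))‖ ≤ S := by
    intro t ht
    rw [norm_mul, norm_pow, Complex.norm_exp]
    have e1 : (-(((c : ℂ) + (t : ℂ) * I) * (u : ℂ))).re = -(c * u) := by simp
    rw [e1, hS]
    exact mul_le_mul_of_nonneg_right (XX_pow K hXX b c T t hc1 hc2 hT ht.1 ht.2)
      (Real.exp_pos _).le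
  have hWG : ∀ t ∈ Icc (T / 2) (3 * T / 2), ‖Wf b c T Δ u t‖ ≤
      S * (Real.exp 3 * Real.exp (-((t - T) / Δ) ^ 2)) := by
    intro t ht
    unfold Wf
    rw [norm_mul]
    refine mul_le_mul (hV t ht) ((norm_GG c T Δ t hc1 hc2 hΔ1).trans ?_) (norm_nonneg _) hS0
    exact mul_le_mul_of_nonneg_right (Real.exp_le_exp.2 (by norm_num)) (Real.exp_pos _).le
  have hWM : ∀ t ∈ Icc (T / 2) (3 * T / 2), ‖Wf b c T Δ u t‖ ≤ S * Real.exp 3 := by
    intro t ht
    refine (hWG t ht).trans (mul_le_mul_of_nonneg_left ?_ hS0)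
    have : Real.exp (-((t - T) / Δ) ^ 2) ≤ 1 := Real.exp_le_one_iff.2 (by
      have := sq_nonneg ((t - T) / Δ)
      linarith)
    calc Real.exp 3 * Real.exp (-((t - T) / Δ) ^ 2) ≤ Real.exp 3 * 1 :=
          mul_le_mul_of_nonneg_left this (Real.exp_pos _).le
      _ = Real.exp 3 := mul_one _
  have hWc : ContinuousOn (Wf b c T Δ u) (Icc (T / 2) (3 * T / 2)) := fun t ht =>
    (hasDerivAt_W b hb c T Δ u t hΔ1 (by linarith [ht.1])).continuousAt.continuousWithinAt
  have hfin := second (β := (b : ℝ)) (u := u) (T := T) (M := S * Real.exp 3)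
    (N := S * Real.exp 3 * (28 * (b : ℝ) + 24)) hT hb1 (by positivity) (by positivity) hWM hWc (by
    intro x y d hx hxy hy hd hdh
    have hx0 : 12 ≤ x := by linarith
    have hIn : ∀ t ∈ Icc x y, t ∈ Icc (T / 2) (3 * T / 2) := fun t ht =>
      ⟨hx.trans ht.1, ht.2.trans hy⟩
    set L : ℝ → ℂ := fun t => logDeriv XX ((c : ℂ) + (t : ℂ) * I) with hL
    have hLc : ContinuousOn L (Icc x y) := Pool.Agent.N30.SR.PART_.cont_L c x y hx0
    have hlogc : ContinuousOn (fun t : ℝ => ((Real.log (t / (2 * Real.pi)) : ℝ) : ℂ)) (Icc x y) := by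
      refine Complex.continuous_ofReal.comp_continuousOn ?_
      refine ContinuousOn.log (continuousOn_id.div_const _) fun t ht => ?_
      have : 0 < t := by linarith [ht.1]
      show t / (2 * Real.pi) ≠ 0
      positivity
    refine parts (W := Wf b c T Δ u)
      (ρ := fun t => (b : ℂ) * (L t - ((Real.log (t / (2 * Real.pi)) : ℝ) : ℂ)) +
        2 * (((c : ℂ) + (t : ℂ) * I) - cp T) / (Δ : ℂ) ^ 2)
      (h := fun t => (b : ℝ) * Real.log (t / (2 * Real.pi)) - u) (h' := fun t => (b : ℝ) / t)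
      (q := fun t => S * Real.exp 3 * (14 * b) * (1 / t) +
        6 * (S * Real.exp 3) * (1 / (1 + ((t - T) / Δ) ^ 2) * (1 / Δ)))
      (Q := fun t => S * Real.exp 3 * (14 * b) * Real.log t +
        6 * (S * Real.exp 3) * Real.arctan ((t - T) / Δ))
      hxy hd ?_ ?_ ?_ ?_ hdh ?_ (fun t ht => hWM t (hIn t ht)) ?_ ?_ ?_ ?_
    · intro t ht
      refine (hasDerivAt_W b hb c T Δ u t hΔ1 (by linarith [ht.1])).congr_deriv ?_
      simp only [hL]
      push_cast
      ring
    · intro t ht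
      have ht0 : 0 < t := by linarith [ht.1]
      have h1 : HasDerivAt (fun x : ℝ => x / (2 * Real.pi)) (1 / (2 * Real.pi)) t :=
        (hasDerivAt_id t).div_const _
      have h2 := (((h1.log (by positivity)).const_mul (b : ℝ)).sub_const u)
      refine h2.congr_deriv ?_
      field_simp
    · exact continuousOn_const.div continuousOn_id fun t ht => by
        have : 0 < t := by linarith [ht.1]
        exact this.ne'
    · intro t ht
      have : 0 < t := by linarith [ht.1]
      positivity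
    · refine (continuousOn_const.mul (hLc.sub hlogc)).add ?_
      have : Continuous (fun t : ℝ => 2 * (((c : ℂ) + (t : ℂ) * I) - cp T) / (Δ : ℂ) ^ 2) := by
        fun_prop
      exact this.continuousOn
    · intro t ht
      have ht' := hIn t ht
      have ht0 : 0 < t := by linarith [ht.1]
      rw [add_mul]
      refine (norm_add_le _ _).trans (add_le_add ?_ ?_)
      · rw [norm_mul, norm_mul, Complex.norm_natCast]
        have h1 : ‖L t - ((Real.log (t / (2 * Real.pi)) : ℝ) : ℂ)‖ ≤ 14 / t := by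
          have := hline ((c : ℂ) + (t : ℂ) * I) (by simp; linarith) (by simp; linarith)
            (by simp; linarith [ht.1])
          have e2 : ((c : ℂ) + (t : ℂ) * I).im = t := by simp
          rw [e2] at this
          exact this
        calc (b : ℝ) * ‖L t - ((Real.log (t / (2 * Real.pi)) : ℝ) : ℂ)‖ * ‖Wf b c T Δ u t‖
            ≤ (b : ℝ) * (14 / t) * (S * Real.exp 3) :=
              mul_le_mul (mul_le_mul_of_nonneg_left h1 (by positivity)) (hWM t ht')
                (norm_nonneg _) (by positivity)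
          _ = S * Real.exp 3 * (14 * b) * (1 / t) := by ring
      · rw [norm_mul, norm_div, norm_mul, norm_pow, Complex.norm_real, Complex.norm_ofNat,
          Real.norm_eq_abs, abs_of_pos hΔ0]
        have h1 : ‖(c : ℂ) + (t : ℂ) * I - cp T‖ ≤ 3 / 2 + |t - T| := by
          unfold cp
          have e : (c : ℂ) + (t : ℂ) * I - (1 / 2 + (T : ℂ) * I) =
              ((c - 1 / 2 : ℝ) : ℂ) + ((t - T : ℝ) : ℂ) * I := by
            push_cast; ring
          rw [e]
          refine (norm_add_le _ _).trans ?_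
          rw [norm_mul, Complex.norm_real, Complex.norm_real, Complex.norm_I, mul_one,
            Real.norm_eq_abs, Real.norm_eq_abs]
          have : |c - 1 / 2| ≤ 3 / 2 := abs_le.2 ⟨by linarith, by linarith⟩
          linarith
        have h2 := hWG t ht'
        have h3 := gauss_le ((t - T) / Δ)
        have h4 : (3 / 2 + |t - T|) / Δ ≤ 3 / 2 + |(t - T) / Δ| := by
          rw [abs_div, abs_of_pos hΔ0, add_div]
          have : 3 / 2 / Δ ≤ 3 / 2 := div_le_self (by norm_num) hΔ1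
          linarith
        calc 2 * ‖(c : ℂ) + (t : ℂ) * I - cp T‖ / Δ ^ 2 * ‖Wf b c T Δ u t‖
            ≤ 2 * (3 / 2 + |t - T|) / Δ ^ 2 *
              (S * (Real.exp 3 * Real.exp (-((t - T) / Δ) ^ 2))) := by
              refine mul_le_mul ?_ h2 (norm_nonneg _) (by positivity)
              exact div_le_div_of_nonneg_right (by linarith) (by positivity)
          _ = 2 * (S * Real.exp 3) / Δ * (((3 / 2 + |t - T|) / Δ) *
              Real.exp (-((t - T) / Δ) ^ 2)) := by
              field_simp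
          _ ≤ 2 * (S * Real.exp 3) / Δ * ((3 / 2 + |(t - T) / Δ|) *
              Real.exp (-((t - T) / Δ) ^ 2)) := by
              refine mul_le_mul_of_nonneg_left ?_ (by positivity)
              exact mul_le_mul_of_nonneg_right h4 (Real.exp_pos _).le
          _ ≤ 2 * (S * Real.exp 3) / Δ * (3 / (1 + ((t - T) / Δ) ^ 2)) :=
              mul_le_mul_of_nonneg_left h3 (by positivity)
          _ = 6 * (S * Real.exp 3) * (1 / (1 + ((t - T) / Δ) ^ 2) * (1 / Δ)) := by
              ring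
    · intro t ht
      have ht0 : 0 < t := by linarith [ht.1]
      have h1 := (Real.hasDerivAt_log ht0.ne').const_mul (S * Real.exp 3 * (14 * b))
      have h2 : HasDerivAt (fun x : ℝ => (x - T) / Δ) (1 / Δ) t :=
        ((hasDerivAt_id t).sub_const T).div_const Δ
      have h3 := (h2.arctan).const_mul (6 * (S * Real.exp 3))
      refine (h1.add h3).congr_deriv ?_
      rw [one_div t]
    · refine ContinuousOn.add (continuousOn_const.mul (continuousOn_const.div continuousOn_id
        fun t ht => ?_)) ?_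
      · have : 0 < t := by linarith [ht.1]
        exact this.ne'
      · refine Continuous.continuousOn ?_
        refine continuous_const.mul (Continuous.mul (Continuous.div continuous_const ?_ ?_)
          continuous_const)
        · fun_prop
        · intro t
          positivity
    · have hy0 : 0 < y := by linarith
      have hx00 : 0 < x := by linarith
      have l1 : Real.log y - Real.log x ≤ 2 := by
        rw [← Real.log_div hy0.ne' hx00.ne']
        have h1 : y / x ≤ 3 := by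
          rw [div_le_iff₀ hx00]; linarith
        have h2 := Real.log_le_sub_one_of_pos (show 0 < y / x by positivity)
        linarith
      have l2 : Real.arctan ((y - T) / Δ) - Real.arctan ((x - T) / Δ) ≤ 4 := by
        have h1 := Real.arctan_lt_pi_div_two ((y - T) / Δ)
        have h2 := Real.neg_pi_div_two_lt_arctan ((x - T) / Δ)
        have h3 := Real.pi_le_four
        linarith
      have hSe : 0 ≤ S * Real.exp 3 := by positivity
      have m1 := mul_le_mul_of_nonneg_left l1 (show 0 ≤ S * Real.exp 3 * (14 * (b : ℝ)) by positivity)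
      have m2 := mul_le_mul_of_nonneg_left l2 (show 0 ≤ 6 * (S * Real.exp 3) by positivity)
      linarith)
  have hVi : Vi b c T Δ u = ∫ t in (T / 2)..(3 * T / 2), Wf b c T Δ u t := rfl
  rw [hVi]
  refine hfin.trans (le_of_eq ?_)
  rw [hS]
  ring

end Pool.Agent.N30.AP
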