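import Pool.Agent.W188.QS.Stm2

set_option autoImplicit false

/-!
# Project AP (helper30): the moments of zeta sampled along arithmetic progressions below the Nyquist rate

`z(t) = ζ(1/2 + it)`.  THEOREM: for all `a, b ≥ 1`, `A > max a b - 1` and all progressions with a spacing
`δ ≤ 2π/(A log T)` the sums `δ Σ_n z^a conj z^b (nδ+τ) g(nδ+τ)` with a Gaussian weight `g` around `T` equal the integrals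
`∫ z^a conj z^b g` up to a power saving.

Independent parts: statements.
-/

open Complex MeasureTheory Set Filter Topology
open Pool.Agent.W188.QS (XX cp fp GG gg Zk PC)

namespace Pool.Agent.N30.AP

/-- `z(t)^a conj z(t)^b`, `z(t) = ζ(1/2+it)` -/
noncomputable def zab (a b : ℕ) (t : ℝ) : ℂ :=
  riemannZeta (cp t) ^ a * (starRingEnd ℂ) (riemannZeta (cp t)) ^ b

/-- `z^a conj z^b` times the Gaussian -/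
noncomputable def zg (a b : ℕ) (T Δ t : ℝ) : ℂ := zab a b t * ((gg T Δ t : ℝ) : ℂ)

/-- Fourier transform -/
noncomputable def FT (a b : ℕ) (T Δ ν : ℝ) : ℂ := ∫ t : ℝ, zg a b T Δ t * cexp (-(((ν * t : ℝ) : ℂ) * I))

/-! ## Part A: Gaussian windows -/

/-- STRIP: the shift to `Re s = 3/4` -/
def S_STRIP : Prop := ∀ a b : ℕ, ∃ C : ℝ, 0 ≤ C ∧ ∀ T Δ : ℝ, 1 ≤ Δ → Δ ≤ T →
  Continuous (zg a b T Δ) ∧ Integrable (zg a b T Δ) ∧ (∃ D : ℝ, ∀ t : ℝ, ‖zg a b T Δ t‖ ≤ D / (1 + t ^ 2)) ∧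
  ∀ ν : ℝ, 0 ≤ ν → ‖FT a b T Δ ν‖ ≤ C * T ^ C * Real.exp (-ν / 4)

/-- `∫ X(s)^b y^(-s) G(s)` over the segment `c + it`, `T/2 ≤ t ≤ 3T/2`, `y = e^u` -/
noncomputable def Vi (b : ℕ) (c T Δ u : ℝ) : ℂ := ∫ t in (T / 2)..(3 * T / 2),
  XX ((c : ℂ) + (t : ℂ) * I) ^ b * cexp (-(((c : ℂ) + (t : ℂ) * I) * (u : ℂ))) * GG T Δ ((c : ℂ) + (t : ℂ) * I)

/-- VDC: second derivative test -/
def S_VDC : Prop := ∀ b : ℕ, 1 ≤ b → ∃ C : ℝ, 0 ≤ C ∧ ∀ c T Δ u : ℝ, 1 / 2 ≤ c → c ≤ 2 → 24 ≤ T → 1 ≤ Δ → Δ ≤ T →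
  ‖Vi b c T Δ u‖ ≤ C * (√T * T ^ ((b : ℝ) * (c - 1 / 2)) * Real.exp (-(c * u)))

/-- the integrand on the right of the critical line, `ζ(1-s) = X(s) ζ(s)` -/
noncomputable def hs (a b : ℕ) (T Δ ν : ℝ) (s : ℂ) : ℂ :=
  riemannZeta s ^ (a + b) * XX s ^ b * GG T Δ s * cexp (-((s - 1 / 2) * (ν : ℂ)))

/-- TRUNC: the tails, and the shift to the line `Re s = c` -/
def S_TRUNC : Prop := ∀ (a b : ℕ) (M : ℝ), ∃ B T₀ : ℝ, 1 ≤ B ∧ 100 ≤ T₀ ∧ ∀ T Δ ν c : ℝ, T₀ ≤ T → 1 ≤ Δ →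
  B * Δ * √(Real.log T) ≤ T → 0 ≤ ν → 1 / 2 ≤ c → c ≤ 2 →
  ‖FT a b T Δ ν - ∫ t in (T / 2)..(3 * T / 2), hs a b T Δ ν ((c : ℂ) + (t : ℂ) * I)‖ ≤ T ^ (-M)

/-- SER: the integral on the line `Re s = 1 + η` -/
def S_SER : Prop := ∀ a b : ℕ, 1 ≤ b → ∀ η : ℝ, 0 < η → η ≤ 1 → ∃ C : ℝ, 0 ≤ C ∧ ∀ T Δ ν : ℝ, 24 ≤ T → 1 ≤ Δ → Δ ≤ T →
  ‖∫ t in (T / 2)..(3 * T / 2), hs a b T Δ ν (((1 + η : ℝ) : ℂ) + (t : ℂ) * I)‖ ≤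
    C * (√T * T ^ ((b : ℝ) * (1 / 2 + η)) * Real.exp (-((1 / 2 + η) * ν)))

/-- POIS: Poisson's summation formula, as an inequality -/
def S_POIS : Prop := ∀ f : ℝ → ℂ, Continuous f → (∃ C : ℝ, ∀ t : ℝ, ‖f t‖ ≤ C / (1 + t ^ 2)) →
  ∀ (δ τ : ℝ) (φ : ℕ → ℝ), 0 < δ → Summable φ →
  (∀ m : ℕ, ‖∫ t : ℝ, f t * cexp (-(((2 * Real.pi * (m + 1) / δ * t : ℝ) : ℂ) * I))‖ ≤ φ m) →
  (∀ m : ℕ, ‖∫ t : ℝ, f t * cexp (((2 * Real.pi * (m + 1) / δ * t : ℝ) : ℂ) * I)‖ ≤ φ m) →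
  (∃ C c : ℝ, 0 < c ∧ ∀ ν : ℝ, ‖∫ t : ℝ, f t * cexp (-(((ν * t : ℝ) : ℂ) * I))‖ ≤ C * Real.exp (-(c * |ν|))) →
  Summable (fun n : ℤ => f (n * δ + τ)) ∧
  ‖(δ : ℂ) * (∑' n : ℤ, f (n * δ + τ)) - ∫ t : ℝ, f t‖ ≤ 2 * ∑' m : ℕ, φ m

/-- WIN: sums over progressions and integrals in Gaussian windows -/
def S_WIN : Prop := ∀ a b : ℕ, 1 ≤ a → 1 ≤ b → ∀ A ε : ℝ, 0 < A → (a : ℝ) - 1 < A → (b : ℝ) - 1 < A → 0 < ε →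
  ∃ B C T₀ : ℝ, 1 ≤ B ∧ 0 ≤ C ∧ 100 ≤ T₀ ∧ ∀ T Δ δ τ : ℝ, T₀ ≤ T → 1 ≤ Δ → B * Δ * √(Real.log T) ≤ T →
  0 < δ → δ * (A * Real.log T) ≤ 2 * Real.pi →
  Summable (fun n : ℤ => zg a b T Δ (n * δ + τ)) ∧
  ‖(δ : ℂ) * (∑' n : ℤ, zg a b T Δ (n * δ + τ)) - ∫ t : ℝ, zg a b T Δ t‖ ≤
    C * T ^ (1 / 2 + (max (a : ℝ) b - A) / 2 + ε)

/-- EQD: equidistribution of the moments modulo `δ` -/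
def S_EQD : Prop := ∀ (a b : ℕ) (T Δ δ E : ℝ), 1 ≤ Δ → Δ ≤ T → 0 < δ →
  (∀ τ : ℝ, Summable (fun n : ℤ => zg a b T Δ (n * δ + τ)) ∧
    ‖(δ : ℂ) * (∑' n : ℤ, zg a b T Δ (n * δ + τ)) - ∫ t : ℝ, zg a b T Δ t‖ ≤ E) →
  ∀ (τ : ℝ) (W : Set ℝ), MeasurableSet W → W ⊆ Ico 0 1 →
  ‖(∫ t in {t : ℝ | Int.fract ((t - τ) / δ) ∈ W}, zg a b T Δ t) - ((volume.real W : ℝ) : ℂ) * ∫ t : ℝ, zg a b T Δ t‖ ≤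
    volume.real W * E

/-! ## Part B: intervals -/

/-- the moment measure `|ζ(1/2+it)|^{2k} dt`, `t > 0` -/
noncomputable def mu (k : ℕ) : Measure ℝ := (volume.restrict (Ioi 0)).withDensity fun t => ENNReal.ofReal (Zk k t)

/-- the moment measure on the progression `nδ + τ > 0` -/
noncomputable def nu (k : ℕ) (δ τ : ℝ) : Measure ℝ := (Measure.sum fun n : ℤ =>
  ENNReal.ofReal (δ * Zk k (n * δ + τ)) • Measure.dirac (n * δ + τ)).restrict (Ioi 0)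

/-- the sampled moment -/
noncomputable def Sa (k : ℕ) (δ τ x : ℝ) : ℝ :=
  δ * ∑ᶠ n ∈ {n : ℤ | 0 < (n : ℝ) * δ + τ ∧ (n : ℝ) * δ + τ ≤ x}, Zk k (n * δ + τ)

/-- MEA: elementary facts on the two measures -/
def S_MEA : Prop := ∀ k : ℕ, 1 ≤ k →
  (∀ x : ℝ, mu k (Iic x) < ⊤) ∧ (∀ δ τ x : ℝ, 0 < δ → nu k δ τ (Iic x) < ⊤) ∧
  (∀ x : ℝ, 0 ≤ x → (mu k).real (Ioc 0 x) = ∫ t in (0 : ℝ)..x, Zk k t) ∧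
  (∀ δ τ x : ℝ, 0 < δ → (nu k δ τ).real (Ioc 0 x) = Sa k δ τ x)

/-- MEB: the Gaussian averages of the two measures -/
def S_MEB : Prop := ∀ k : ℕ, 1 ≤ k → ∀ M : ℝ, ∃ B T₀ : ℝ, 1 ≤ B ∧ 100 ≤ T₀ ∧ ∀ T Δ : ℝ, T₀ ≤ T → 1 ≤ Δ →
  B * Δ * √(Real.log T) ≤ T →
    |(∫ t in Ioo (T / 2) (3 * T / 2), gg T Δ t ∂(mu k)) - (∫ t : ℝ, zg k k T Δ t).re| ≤ T ^ (-M) ∧
    ∀ δ τ : ℝ, 0 < δ → δ ≤ 10 →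
      |(∫ t in Ioo (T / 2) (3 * T / 2), gg T Δ t ∂(nu k δ τ)) -
        ((δ : ℂ) * (∑' n : ℤ, zg k k T Δ (n * δ + τ))).re| ≤ T ^ (-M)

/-- MEC: trivial bounds for the two measures -/
def S_MEC : Prop := ∀ k : ℕ, 1 ≤ k →
  (∃ κ : ℝ, 0 < κ ∧ κ < 1 ∧ ∃ T₀ : ℝ, ∀ T : ℝ, T₀ ≤ T → (mu k).real (Ioc 0 (2 * T ^ κ)) ≤ T ^ (1 / 2 : ℝ) ∧
    ∀ δ τ : ℝ, 0 < δ → δ ≤ 10 → (nu k δ τ).real (Ioc 0 (2 * T ^ κ)) ≤ T ^ (1 / 2 : ℝ)) ∧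
  (∃ C : ℝ, 0 ≤ C ∧ ∀ x : ℝ, 1 ≤ x → (mu k).real (Ioc 0 x) ≤ C * x ^ C ∧
    ∀ δ τ : ℝ, 0 < δ → δ ≤ 10 → (nu k δ τ).real (Ioc 0 x) ≤ C * x ^ C)

/-- comparison of two measures on all subintervals of `[x, 2x]`, with a power saving -/
def Cmp (θ : ℝ) (μ ν : Measure ℝ) (x : ℝ) : Prop := ∀ u v : ℝ, x ≤ u → u ≤ v → v ≤ 2 * x →
  μ.real (Ioc u v) ≤ ν.real (Ioc (u - x ^ (1 - θ)) (v + x ^ (1 - θ))) + x ^ (1 - θ) ∧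
  ν.real (Ioc u v) ≤ μ.real (Ioc (u - x ^ (1 - θ)) (v + x ^ (1 - θ))) + x ^ (1 - θ)

/-- BLOCK: from Gaussian windows to intervals; `x` is between `T ^ κ` and `2T` -/
def S_BLOCK : Prop := ∀ A C' κ θ₀ : ℝ, 0 ≤ A → 0 ≤ C' → 0 < κ → κ < 1 → 0 < θ₀ → θ₀ < 1 → ∃ θ T₁ : ℝ, 0 < θ ∧ θ < 1 ∧
  ∀ μ ν : Measure ℝ, ∀ T x : ℝ, T₁ ≤ T → T ^ κ ≤ x → x ≤ 2 * T →
  (∀ y : ℝ, μ (Iic y) < ⊤) → (∀ y : ℝ, ν (Iic y) < ⊤) → μ (Iic 0) = 0 → ν (Iic 0) = 0 →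
  μ.real (Ioc 0 (4 * x)) ≤ C' * (4 * x) ^ A → ν.real (Ioc 0 (4 * x)) ≤ C' * (4 * x) ^ A →
  (∀ y : ℝ, x / 2 ≤ y → y ≤ 4 * x → ∀ Δ : ℝ, y ^ (1 - θ₀) ≤ Δ → Δ * Real.log y ≤ y →
    |(∫ t in Ioo (y / 2) (3 * y / 2), gg y Δ t ∂μ) - ∫ t in Ioo (y / 2) (3 * y / 2), gg y Δ t ∂ν| ≤
      C' * Δ * y ^ (-θ₀)) →
  Cmp θ μ ν x

/-- FAM: Tauberian theorem for families of progressions -/
def S_FAM : Prop := ∀ (κ θ : ℝ) (μ : Measure ℝ) (ν : ℝ → Measure ℝ), 0 < κ → κ < 1 → 0 < θ → θ < 1 →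
  (∀ y : ℝ, μ (Iic y) < ⊤) → (∀ T y : ℝ, ν T (Iic y) < ⊤) →
  (∀ᶠ T : ℝ in atTop, ∀ x : ℝ, T ^ κ ≤ x → x ≤ 2 * T → Cmp θ μ (ν T) x) →
  (∀ᶠ T : ℝ in atTop, μ.real (Ioc 0 (2 * T ^ κ)) ≤ T ^ (1 / 2 : ℝ) ∧ (ν T).real (Ioc 0 (2 * T ^ κ)) ≤ T ^ (1 / 2 : ℝ)) →
  ∀ a m : ℝ, 0 ≤ m → (Tendsto (fun T => μ.real (Ioc 0 T) / (T * Real.log T ^ m)) atTop (𝓝 a) ↔
    Tendsto (fun T => (ν T).real (Ioc 0 T) / (T * Real.log T ^ m)) atTop (𝓝 a))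

/-- ING: Ingham's asymptotic formula for the fourth moment -/
def S_ING : Prop := Tendsto (fun T => (∫ t in (0 : ℝ)..T, Zk 2 t) / (T * Real.log T ^ (4 : ℝ))) atTop
  (𝓝 (1 / (2 * Real.pi ^ 2)))

end Pool.Agent.N30.AP
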