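import Pool.Agent.N30.AP.Stm

set_option autoImplicit false

open Complex MeasureTheory Set Filter Topology
open Pool.Agent.W188.QS (XX cp fp GG gg Zk PC)

namespace Pool.Agent.N30.AP

lemma zg_conj (a b : ℕ) (T Δ t : ℝ) : (starRingEnd ℂ) (zg b a T Δ t) = zg a b T Δ t := by
  unfold zg zab
  simp only [map_mul, map_pow, Complex.conj_conj, Complex.conj_ofReal]
  ring

lemma FT_conj (a b : ℕ) (T Δ ν : ℝ) :
    ∫ t : ℝ, zg a b T Δ t * cexp (((ν * t : ℝ) : ℂ) * I) = (starRingEnd ℂ) (FT b a T Δ ν) := by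
  unfold FT
  rw [← integral_conj]
  refine integral_congr_ae (Eventually.of_forall fun t => ?_)
  simp only [map_mul, zg_conj, ← Complex.exp_conj, map_neg, Complex.conj_ofReal, Complex.conj_I]
  congr 2
  ring

/-- one frequency -/
lemma one_side (hS : S_STRIP) (hT : S_TRUNC) (hR : S_SER) (a b : ℕ) (hb : 1 ≤ b) (A ε E0 : ℝ) (hA : 0 < A)
    (hε : 0 < ε) (hE : 1 / 2 + ((b : ℝ) - A) / 2 + ε ≤ E0) :
    ∃ B C T₀ : ℝ, 1 ≤ B ∧ 0 ≤ C ∧ 100 ≤ T₀ ∧ ∀ T Δ ν : ℝ, T₀ ≤ T → 1 ≤ Δ → B * Δ * √(Real.log T) ≤ T →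
      A * Real.log T ≤ ν → ‖FT a b T Δ ν‖ ≤ C * T ^ E0 * Real.exp (-(ν - A * Real.log T) / 8) := by
  obtain ⟨C1, hC1, h1⟩ := hS a b
  set η : ℝ := min 1 (ε / ((b : ℝ) + 1)) with hη
  have hb0 : (0 : ℝ) ≤ b := Nat.cast_nonneg b
  have hη0 : 0 < η := lt_min one_pos (by positivity)
  have hη1 : η ≤ 1 := min_le_left _ _
  have hηb : (b : ℝ) * η ≤ ε := by
    have h : η ≤ ε / ((b : ℝ) + 1) := min_le_right _ _
    have h2 : η * ((b : ℝ) + 1) ≤ ε := by
      rwa [le_div_iff₀ (by positivity)] at h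
    nlinarith
  obtain ⟨C2, hC2, h2⟩ := hR a b hb η hη0 hη1
  set Q : ℝ := 8 * (C1 + |E0|) + A with hQ
  set M : ℝ := (Q - A) / 8 + |E0| with hM
  obtain ⟨B, T₀, hB, hT0, h3⟩ := hT a b M
  refine ⟨B, C1 + C2 + 1, T₀, hB, by positivity, hT0, ?_⟩
  intro T Δ ν hT' hΔ hBT hν
  have hT100 : 100 ≤ T := hT0.trans hT'
  have hTpos : 0 < T := by linarith
  have hT1 : 1 ≤ T := by linarith
  have hlog : 1 ≤ Real.log T := by
    rw [Real.le_log_iff_exp_le hTpos]
    have := Real.exp_one_lt_d9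
    linarith
  have hlog0 : 0 < Real.log T := by linarith
  have hsq : 1 ≤ √(Real.log T) := by rw [Real.one_le_sqrt]; exact hlog
  have hΔT : Δ ≤ T := by
    have : Δ * 1 ≤ B * Δ * √(Real.log T) := by
      have h4 : Δ ≤ B * Δ := by nlinarith
      nlinarith [mul_nonneg (by linarith : (0:ℝ) ≤ B * Δ) (by linarith : (0:ℝ) ≤ √(Real.log T) - 1)]
    linarith
  have hν0 : 0 ≤ ν := by nlinarith
  have hTE : ∀ x y : ℝ, x ≤ y → T ^ x ≤ T ^ y := fun x y h => Real.rpow_le_rpow_of_exponent_le hT1 h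
  have hE0abs : -|E0| ≤ E0 := neg_abs_le E0
  rcases le_total ν (Q * Real.log T) with hcase | hcase
  · -- low frequencies
    have h4 := h3 T Δ ν (1 + η) hT' hΔ hBT hν0 (by linarith) (by linarith)
    have h5 := h2 T Δ ν (by linarith) hΔ hΔT
    have h6 : ‖FT a b T Δ ν‖ ≤ T ^ (-M) + C2 * (√T * T ^ ((b : ℝ) * (1 / 2 + η)) *
        Real.exp (-((1 / 2 + η) * ν))) := by
      have e := norm_sub_norm_le (FT a b T Δ ν)
        (∫ t in (T / 2)..(3 * T / 2), hs a b T Δ ν (((1 + η : ℝ) : ℂ) + (t : ℂ) * I))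
      linarith
    have h7 : T ^ (-M) ≤ T ^ E0 * Real.exp (-(ν - A * Real.log T) / 8) := by
      have e1 : Real.exp (-((Q - A) * Real.log T) / 8) ≤ Real.exp (-(ν - A * Real.log T) / 8) := by
        apply Real.exp_le_exp.2
        nlinarith
      have e2 : Real.exp (-((Q - A) * Real.log T) / 8) = T ^ (-((Q - A) / 8)) := by
        rw [Real.rpow_def_of_pos hTpos]
        congr 1
        ring
      calc T ^ (-M) ≤ T ^ (E0 + -((Q - A) / 8)) := hTE _ _ (by rw [hM]; linarith)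
        _ = T ^ E0 * T ^ (-((Q - A) / 8)) := Real.rpow_add hTpos _ _
        _ ≤ T ^ E0 * Real.exp (-(ν - A * Real.log T) / 8) := by
            rw [← e2]
            exact mul_le_mul_of_nonneg_left e1 (by positivity)
    have h8 : √T * T ^ ((b : ℝ) * (1 / 2 + η)) * Real.exp (-((1 / 2 + η) * ν)) ≤
        T ^ E0 * Real.exp (-(ν - A * Real.log T) / 8) := by
      have e1 : √T * T ^ ((b : ℝ) * (1 / 2 + η)) * Real.exp (-((1 / 2 + η) * ν)) =
          Real.exp (Real.log T * (1 / 2 + ((b : ℝ) - A) * (1 / 2 + η)) + -((1 / 2 + η) * (ν - A * Real.log T))) := by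
        rw [Real.sqrt_eq_rpow, ← Real.rpow_add hTpos, Real.rpow_def_of_pos hTpos, ← Real.exp_add]
        congr 1
        ring
      have e2 : T ^ E0 * Real.exp (-(ν - A * Real.log T) / 8) =
          Real.exp (Real.log T * E0 + -(ν - A * Real.log T) / 8) := by
        rw [Real.rpow_def_of_pos hTpos, ← Real.exp_add]
      rw [e1, e2]
      apply Real.exp_le_exp.2
      have e3 : (1 / 2 + ((b : ℝ) - A) * (1 / 2 + η)) ≤ E0 := by
        have e30 : ((b : ℝ) - A) * η = b * η - A * η := by ring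
        have e31 : 0 < A * η := mul_pos hA hη0
        have e32 : 1 / 2 + ((b : ℝ) - A) * (1 / 2 + η) = 1 / 2 + ((b : ℝ) - A) / 2 + ((b : ℝ) - A) * η := by ring
        linarith
      have e4 : Real.log T * (1 / 2 + ((b : ℝ) - A) * (1 / 2 + η)) ≤ Real.log T * E0 :=
        mul_le_mul_of_nonneg_left e3 hlog0.le
      have e5 : -((1 / 2 + η) * (ν - A * Real.log T)) ≤ -(ν - A * Real.log T) / 8 := by
        have : 0 ≤ ν - A * Real.log T := by linarith
        nlinarith [mul_nonneg hη0.le this]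
      linarith
    have hpos : 0 ≤ T ^ E0 * Real.exp (-(ν - A * Real.log T) / 8) := by positivity
    nlinarith [mul_le_mul_of_nonneg_left h8 hC2]
  · -- high frequencies
    have h4 := (h1 T Δ hΔ hΔT).2.2.2 ν hν0
    have h5 : T ^ C1 * Real.exp (-ν / 4) ≤ T ^ E0 * Real.exp (-(ν - A * Real.log T) / 8) := by
      rw [Real.rpow_def_of_pos hTpos, Real.rpow_def_of_pos hTpos, ← Real.exp_add, ← Real.exp_add]
      apply Real.exp_le_exp.2
      have e1 : Real.log T * C1 - Real.log T * E0 ≤ ν / 8 := by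
        have : Q * Real.log T / 8 ≤ ν / 8 := by linarith
        have e2 : Real.log T * C1 - Real.log T * E0 ≤ Q * Real.log T / 8 := by
          rw [hQ]
          nlinarith [mul_nonneg hlog0.le (by linarith : (0:ℝ) ≤ |E0| + E0), mul_pos hA hlog0]
        linarith
      nlinarith [mul_pos hA hlog0]
    have hpos : 0 ≤ T ^ E0 * Real.exp (-(ν - A * Real.log T) / 8) := by positivity
    calc ‖FT a b T Δ ν‖ ≤ C1 * T ^ C1 * Real.exp (-ν / 4) := h4
      _ = C1 * (T ^ C1 * Real.exp (-ν / 4)) := by ring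
      _ ≤ C1 * (T ^ E0 * Real.exp (-(ν - A * Real.log T) / 8)) := mul_le_mul_of_nonneg_left h5 hC1
      _ ≤ (C1 + C2 + 1) * T ^ E0 * Real.exp (-(ν - A * Real.log T) / 8) := by nlinarith

theorem t_WIN (hS : S_STRIP) (hT : S_TRUNC) (hR : S_SER) (hP : S_POIS) : S_WIN := by
  intro a b ha hb A ε hA _ _ hε
  set E0 : ℝ := 1 / 2 + (max (a : ℝ) b - A) / 2 + ε with hE0
  obtain ⟨B1, C1, T1, hB1, hC1, hT1, h1⟩ := one_side hS hT hR a b hb A ε E0 hA hε
    (by rw [hE0]; have := le_max_right (a : ℝ) b; linarith)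
  obtain ⟨B2, C2, T2, hB2, hC2, hT2, h2⟩ := one_side hS hT hR b a ha A ε E0 hA hε
    (by rw [hE0]; have := le_max_left (a : ℝ) b; linarith)
  set r : ℝ := Real.exp (-(A / 2)) with hr
  have hr0 : 0 ≤ r := (Real.exp_pos _).le
  have hr1 : r < 1 := by
    have h := Real.exp_lt_exp.2 (show -(A / 2) < 0 by linarith)
    rwa [Real.exp_zero] at h
  refine ⟨max B1 B2, 2 * ((C1 + C2) * (1 - r)⁻¹), max T1 T2, le_max_of_le_left hB1, ?_, le_max_of_le_left hT1, ?_⟩
  · have : 0 ≤ (1 - r)⁻¹ := inv_nonneg.2 (by linarith)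
    positivity
  intro T Δ δ τ hT' hΔ hBT hδ hδA
  have hTT1 : T1 ≤ T := (le_max_left _ _).trans hT'
  have hTT2 : T2 ≤ T := (le_max_right _ _).trans hT'
  have hT100 : 100 ≤ T := hT1.trans hTT1
  have hTpos : 0 < T := by linarith
  have hlog4 : 4 ≤ Real.log T := by
    rw [Real.le_log_iff_exp_le hTpos]
    have h := Real.exp_one_lt_d9
    have : Real.exp 4 = Real.exp 1 ^ 4 := by
      rw [← Real.exp_nat_mul]; norm_num
    rw [this]
    have : Real.exp 1 ^ 4 ≤ (2.7182818286 : ℝ) ^ 4 := pow_le_pow_left₀ (Real.exp_pos _).le h.le 4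
    have h3 : (2.7182818286 : ℝ) ^ 4 ≤ 100 := by norm_num
    linarith
  have hsq : 1 ≤ √(Real.log T) := by rw [Real.one_le_sqrt]; linarith
  have hprod : 0 ≤ Δ * √(Real.log T) := by positivity
  have hBT1 : B1 * Δ * √(Real.log T) ≤ T := by
    have : B1 * (Δ * √(Real.log T)) ≤ max B1 B2 * (Δ * √(Real.log T)) :=
      mul_le_mul_of_nonneg_right (le_max_left _ _) hprod
    nlinarith
  have hBT2 : B2 * Δ * √(Real.log T) ≤ T := by
    have : B2 * (Δ * √(Real.log T)) ≤ max B1 B2 * (Δ * √(Real.log T)) :=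
      mul_le_mul_of_nonneg_right (le_max_right _ _) hprod
    nlinarith
  have hΔT : Δ ≤ T := by
    have : 1 * (Δ * √(Real.log T)) ≤ B1 * (Δ * √(Real.log T)) := mul_le_mul_of_nonneg_right hB1 hprod
    nlinarith
  obtain ⟨Ca, hCa, hSa⟩ := hS a b
  obtain ⟨Cb, hCb, hSb⟩ := hS b a
  obtain ⟨hcont, hint, hdec, hsa⟩ := hSa T Δ hΔ hΔT
  obtain ⟨-, -, -, hsb⟩ := hSb T Δ hΔ hΔT
  have hfreq : ∀ m : ℕ, A * Real.log T + m * (A * Real.log T) ≤ 2 * Real.pi * (m + 1) / δ := by
    intro m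
    rw [le_div_iff₀ hδ]
    have : (A * Real.log T + m * (A * Real.log T)) * δ = (m + 1) * (δ * (A * Real.log T)) := by ring
    rw [this]
    have hm : (0 : ℝ) ≤ m + 1 := by positivity
    nlinarith
  have hALpos : 0 < A * Real.log T := by positivity
  set φ : ℕ → ℝ := fun m => (C1 + C2) * T ^ E0 * r ^ m with hφ
  have hφs : Summable φ := (summable_geometric_of_lt_one hr0 hr1).mul_left _
  have hφsum : ∑' m : ℕ, φ m = (C1 + C2) * T ^ E0 * (1 - r)⁻¹ := by
    rw [hφ, tsum_mul_left, tsum_geometric_of_lt_one hr0 hr1]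
  have hdecay : ∀ m : ℕ, Real.exp (-(2 * Real.pi * (m + 1) / δ - A * Real.log T) / 8) ≤ r ^ m := by
    intro m
    rw [hr, ← Real.exp_nat_mul]
    apply Real.exp_le_exp.2
    have h := hfreq m
    have hm : (0 : ℝ) ≤ m := Nat.cast_nonneg m
    have : (m : ℝ) * (A * 4) ≤ m * (A * Real.log T) :=
      mul_le_mul_of_nonneg_left (mul_le_mul_of_nonneg_left hlog4 hA.le) hm
    linarith
  have hTE0 : 0 ≤ T ^ E0 := by positivity
  have hb1 : ∀ m : ℕ, ‖FT a b T Δ (2 * Real.pi * (m + 1) / δ)‖ ≤ φ m := by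
    intro m
    have hm : (0 : ℝ) ≤ m := Nat.cast_nonneg m
    have h := h1 T Δ (2 * Real.pi * (m + 1) / δ) hTT1 hΔ hBT1 (by
      have := hfreq m; nlinarith)
    calc _ ≤ C1 * T ^ E0 * Real.exp (-(2 * Real.pi * (m + 1) / δ - A * Real.log T) / 8) := h
      _ ≤ C1 * T ^ E0 * r ^ m := mul_le_mul_of_nonneg_left (hdecay m) (by positivity)
      _ ≤ (C1 + C2) * T ^ E0 * r ^ m := by
          apply mul_le_mul_of_nonneg_right _ (by positivity)
          apply mul_le_mul_of_nonneg_right _ hTE0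
          linarith
  have hb2 : ∀ m : ℕ, ‖FT b a T Δ (2 * Real.pi * (m + 1) / δ)‖ ≤ φ m := by
    intro m
    have hm : (0 : ℝ) ≤ m := Nat.cast_nonneg m
    have h := h2 T Δ (2 * Real.pi * (m + 1) / δ) hTT2 hΔ hBT2 (by
      have := hfreq m; nlinarith)
    calc _ ≤ C2 * T ^ E0 * Real.exp (-(2 * Real.pi * (m + 1) / δ - A * Real.log T) / 8) := h
      _ ≤ C2 * T ^ E0 * r ^ m := mul_le_mul_of_nonneg_left (hdecay m) (by positivity)
      _ ≤ (C1 + C2) * T ^ E0 * r ^ m := by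
          apply mul_le_mul_of_nonneg_right _ (by positivity)
          apply mul_le_mul_of_nonneg_right _ hTE0
          linarith
  have key := hP (zg a b T Δ) hcont hdec δ τ φ hδ hφs hb1 (fun m => by
    rw [FT_conj, RCLike.norm_conj]
    exact hb2 m) ⟨Ca * T ^ Ca + Cb * T ^ Cb, 1 / 4, by norm_num, fun ν => by
      rcases le_total 0 ν with hν | hν
      · rw [abs_of_nonneg hν]
        have h := hsa ν hν
        unfold FT at h
        refine h.trans ?_
        have e : Real.exp (-ν / 4) = Real.exp (-(1 / 4 * ν)) := by congr 1; ring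
        rw [e]
        apply mul_le_mul_of_nonneg_right _ (Real.exp_pos _).le
        have : 0 ≤ Cb * T ^ Cb := by positivity
        linarith
      · rw [abs_of_nonpos hν]
        have h := hsb (-ν) (by linarith)
        have e2 : ∫ t : ℝ, zg a b T Δ t * cexp (-(((ν * t : ℝ) : ℂ) * I)) = (starRingEnd ℂ) (FT b a T Δ (-ν)) := by
          rw [← FT_conj]
          refine integral_congr_ae (Eventually.of_forall fun t => ?_)
          simp only
          congr 2
          push_cast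
          ring
        rw [e2, RCLike.norm_conj]
        refine h.trans ?_
        have e : Real.exp (-(-ν) / 4) = Real.exp (-(1 / 4 * -ν)) := by congr 1; ring
        rw [e]
        apply mul_le_mul_of_nonneg_right _ (Real.exp_pos _).le
        have : 0 ≤ Ca * T ^ Ca := by positivity
        linarith⟩
  refine ⟨key.1, key.2.trans (le_of_eq ?_)⟩
  rw [hφsum]
  ring

end Pool.Agent.N30.AP
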